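import Pool.Agent.Lib.MP_19e880_co_TT.Defs
import Pool.Agent.Lib.MP_19e880_co.Derive

/-!
Euler characteristic from homology.
-/

set_option autoImplicit false
set_option linter.unusedSectionVars false

namespace Pool.Agent.MP19e880.TT

variable {V : Type} [Fintype V] [LinearOrder V] {k : Type} [Field k]
  {S : Finset (Finset V)} {d : ℕ}

theorem EulHS_range_le (L : Finset (Finset V))
    (hL : ∀ F ∈ L, ∀ G : Finset V, G ⊆ F → G ∈ L) (j : ℕ) :
    LinearMap.range (Mt k L (j + 1)).mulVecLin ≤ (LinearMap.ker (Mt k L j).mulVecLin) := by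
  rintro x ⟨c, rfl⟩
  rw [LinearMap.mem_ker, Matrix.mulVecLin_apply, Matrix.mulVecLin_apply]
  rw [mulVec_zero_iff L hL]
  have h3 : ext L j ((Mt k L (j + 1)).mulVec c) = bd (ext L (j + 1) c) :=
    ext_mulVec (k := k) L hL j c
  rw [show bd (ext L j ((Mt k L (j + 1)).mulVec c)) = bd (bd (ext L (j + 1) c)) from
    congrArg bd h3]
  exact bd_bd _

/-- The kernel and the extension by zero. -/
theorem EulHS_mem_ker (L : Finset (Finset V))
    (hL : ∀ F ∈ L, ∀ G : Finset V, G ⊆ F → G ∈ L) (j : ℕ) (c : Lev L j → k) :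
    c ∈ LinearMap.ker (Mt k L j).mulVecLin ↔ bd (ext L j c) = 0 := by
  rw [LinearMap.mem_ker, Matrix.mulVecLin_apply, mulVec_zero_iff L hL]

theorem EulHS_ext_inj (L : Finset (Finset V)) (j : ℕ) (c c' : Lev L j → k)
    (h : ext L j c = ext L j c') : c = c' := by
  funext B
  have h7 := congrFun h B.1
  unfold ext at h7
  rw [dif_pos B.2, dif_pos B.2] at h7
  exact h7

theorem EulHS_smul (L : Finset (Finset V)) (j : ℕ) (c : Lev L j → k) (a : k) :
    ext L j (a • c) = a • ext L j c := by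
  funext A
  simp only [ext, Pi.smul_apply, smul_eq_mul]
  split_ifs with hh
  · rfl
  · rw [mul_zero]

theorem EulHS_exact (L : Finset (Finset V))
    (hL : ∀ F ∈ L, ∀ G : Finset V, G ⊆ F → G ∈ L) (j : ℕ)
    (hex : ∀ z : Finset V → k, Ch (fun B => B ∈ L) j z → bd z = 0 →
      ∃ c : Finset V → k, Ch (fun B => B ∈ L) (j + 1) c ∧ bd c = z) :
    ((L.filter (fun A => A.card = j)).card : ℤ) - ((Mt k L j).rank : ℤ) -
      ((Mt k L (j + 1)).rank : ℤ) = 0 := by
  have h1 := finrank_ker (k := k) L j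
  have heq : LinearMap.range (Mt k L (j + 1)).mulVecLin =
      (LinearMap.ker (Mt k L j).mulVecLin) := by
    refine le_antisymm (EulHS_range_le L hL j) fun z hz => ?_
    rw [EulHS_mem_ker L hL] at hz
    obtain ⟨c, hc, hbc⟩ := hex _ (ext_ch L j z) hz
    refine ⟨fun B => c B.1, ?_⟩
    rw [Matrix.mulVecLin_apply]
    apply EulHS_ext_inj L j
    rw [← hbc]
    have h3 : ext L j ((Mt k L (j + 1)).mulVec (fun B => c B.1)) =
        bd (ext L (j + 1) (fun B => c B.1)) := ext_mulVec (k := k) L hL j _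
    refine Eq.trans h3 ?_
    rw [ext_of_ch L (j + 1) c hc]
  have h4 : Module.finrank k (LinearMap.ker (Mt k L j).mulVecLin) =
      (Mt k L (j + 1)).rank := by
    rw [← heq]
    rfl
  omega

theorem EulHS_top (L : Finset (Finset V))
    (hL : ∀ F ∈ L, ∀ G : Finset V, G ⊆ F → G ∈ L) (j : ℕ)
    (hno : ∀ A ∈ L, A.card ≠ j + 1)
    (htop : ∃ z : Finset V → k, Ch (fun B => B ∈ L) j z ∧ bd z = 0 ∧ z ≠ 0 ∧
      ∀ z' : Finset V → k, Ch (fun B => B ∈ L) j z' → bd z' = 0 → ∃ a : k, z' = a • z) :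
    ((L.filter (fun A => A.card = j)).card : ℤ) - ((Mt k L j).rank : ℤ) -
      ((Mt k L (j + 1)).rank : ℤ) = 1 := by
  have h1 := finrank_ker (k := k) L j
  have h2 : (Mt k L (j + 1)).rank = 0 := rank_zero_of_card L (j + 1) hno
  obtain ⟨z, hz, hbz, hz0, hall⟩ := htop
  have hzk : (fun B : Lev L j => z B.1) ∈ LinearMap.ker (Mt k L j).mulVecLin := by
    rw [EulHS_mem_ker L hL, ext_of_ch L j z hz, hbz]
  have h5 : Module.finrank k (LinearMap.ker (Mt k L j).mulVecLin) = 1 := by
    rw [finrank_eq_one_iff']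
    refine ⟨⟨fun B => z B.1, hzk⟩, ?_, ?_⟩
    · intro h
      apply hz0
      have h6 : (fun B : Lev L j => z B.1) = 0 := congrArg Subtype.val h
      rw [← ext_of_ch L j z hz, h6]
      funext A
      unfold ext
      split_ifs <;> rfl
    · rintro ⟨w, hw⟩
      rw [EulHS_mem_ker L hL] at hw
      obtain ⟨a, ha⟩ := hall _ (ext_ch L j w) hw
      refine ⟨a, ?_⟩
      apply Subtype.ext
      change a • (fun B : Lev L j => z B.1) = w
      apply EulHS_ext_inj L j
      rw [EulHS_smul, ext_of_ch L j z hz, ha]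
  omega

/-- The rank conditions follow from the homology conditions. -/
theorem rank_of_hs (h : HS k S d) : RankCond k S d := by
  intro F hF j
  by_cases hj : j + F.card = d
  · rw [if_pos hj]
    refine EulHS_top (lkF S F) (lkF_down S h.down F) j ?_ ?_
    · intro A hA hcard
      unfold lkF at hA
      rw [Finset.mem_filter] at hA
      have h2 := h.card_le _ hA.2.2
      rw [Finset.card_union_of_disjoint hA.2.1] at h2
      omega
    · obtain ⟨z, hz, hbz, hz0, hall⟩ := h.top F hF j hj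
      refine ⟨z, hz.mono fun A _ hA => (mem_lkF S h.down F A).mpr hA, hbz, hz0, ?_⟩
      intro z' hz' hb'
      exact hall z' (hz'.mono fun A _ hA => (mem_lkF S h.down F A).mp hA) hb'
  · rw [if_neg hj]
    refine EulHS_exact (lkF S F) (lkF_down S h.down F) j ?_
    intro z hz hb
    obtain ⟨c, hc, hbc⟩ := h.ex F hF j hj z
      (hz.mono fun A _ hA => (mem_lkF S h.down F A).mp hA) hb
    exact ⟨c, hc.mono fun A _ hA => (mem_lkF S h.down F A).mpr hA, hbc⟩

theorem eul_of_hs (h : HS k S d) : Eul S d :=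
  Eul_of_rank S d h.down h.flag (rank_of_hs h)

end Pool.Agent.MP19e880.TT
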