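import Pool.Agent.Lib.MP_19e880_co_TT.Exc

/-!
The class: links and factors.
-/

set_option autoImplicit false
set_option linter.unusedSectionVars false

namespace Pool.Agent.MP19e880.TT

variable {V : Type} [Fintype V] [LinearOrder V] {k : Type} [Field k]
  {S : Finset (Finset V)} {d : ℕ}

theorem exc_of_cls (h : HS k S d) {r c : ℕ} {U : Finset V} (hU : LS S d r U) (hc : Con S U)
    (hr : 6 ≤ r) (hC : Cls S d c U) : exc S r U ≤ c := by
  have hne : U.Nonempty := by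
    rw [Finset.nonempty_iff_ne_empty]
    intro h0
    have h1 := (LS.zero h hU).mp h0
    omega
  have h1 : U ∈ cps S U := by
    rw [cps_one hc hne]
    exact Finset.mem_singleton_self U
  have h2 := nc_one hc hne
  rcases hC U h1 r hU with h3 | h3
  · omega
  · unfold exc
    rw [h2]
    omega

theorem cls_of_exc (h : HS k S d) {r c : ℕ} {U : Finset V} (hU : LS S d r U)
    (he : exc S r U ≤ c) : Cls S d c U := by
  intro A hA ρ hρ
  right
  have h1 := exc_cps h hU hA hρ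
  have h2 := nc_one (cps_con hA) (cps_ne hA)
  unfold exc at h1 he
  rw [h2] at h1
  omega

theorem cls_nb (h : HS k S d) {r c : ℕ} {U : Finset V} (hU : LS S d r U) (hC : Cls S d c U)
    {p : V} (hp : p ∈ U) : Cls S d c (nb S U p) := by
  intro D hD ρ hρ
  obtain ⟨_, h1, h2⟩ := nb_cp h hU hp
  rw [cps_union h1, h2, Finset.mem_union] at hD
  rcases hD with hD | hD
  · obtain ⟨s, t, _, hA, _⟩ := LS.cld h hU (cp_cld S U p)
    obtain ⟨s', hs', hN⟩ := LS.nb h hA (mem_cp_self hp)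
    obtain ⟨ρ', t', hρt, hD', _⟩ := LS.cld h hN (cps_cld hD)
    have hu := LS.uniq h hρ hD'
    subst hs'
    rcases hC _ (cp_cps hp) (s' + 1) hA with h3 | h3
    · left
      omega
    · right
      have h4 := nc_one (cps_con (cp_cps hp)) (cps_ne (cp_cps (S := S) hp))
      have h5 := exc_mono h hA (mem_cp_self hp)
      have h6 := exc_cps h hN hD hρ
      have h7 := nc_one (cps_con hD) (cps_ne hD)
      unfold exc at h5 h6
      rw [h4] at h5
      rw [h7] at h6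
      push_cast at h5
      omega
  · refine hC D ?_ ρ hρ
    rw [cps_union (cp_cld S U p), Finset.mem_union]
    exact Or.inr hD

theorem cls_cld {c : ℕ} {U W : Finset V} (hW : Cld S U W) (hC : Cls S d c U) :
    Cls S d c W := by
  intro A hA ρ hρ
  refine hC A ?_ ρ hρ
  rw [cps_union hW, Finset.mem_union]
  exact Or.inl hA

theorem nb_lv (h : HS k S d) {σ : Finset V} {x : V} (hx : x ∈ lv S σ) :
    nb S (lv S σ) x = lv S (insert x σ) := by
  ext y
  rw [mem_nb, mem_lv_insert h (eul_of_hs h) σ x y hx, Finset.pair_comm]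

private theorem cld_lkF (h : HS k S d) {σ : Finset V} (hσ : σ ∈ S) (A : Finset V) :
    Cld (lkF S σ) (lv S σ) A ↔ Cld S (lv S σ) A := by
  have key : ∀ a ∈ lv S σ, ∀ b ∈ lv S σ,
      (({a, b} : Finset V) ∈ lkF S σ ↔ ({a, b} : Finset V) ∈ S) := fun a ha b hb =>
    W1.ad_lkF h σ hσ a b ha hb
  unfold Cld
  constructor
  · rintro ⟨h1, h2⟩
    exact ⟨h1, fun x hx z hz => (key x (h1 hx) z (Finset.mem_sdiff.mp hz).1).mp (h2 x hx z hz)⟩
  · rintro ⟨h1, h2⟩
    exact ⟨h1, fun x hx z hz => (key x (h1 hx) z (Finset.mem_sdiff.mp hz).1).mpr (h2 x hx z hz)⟩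

private theorem cp_lkF (h : HS k S d) {σ : Finset V} (hσ : σ ∈ S) (x : V) :
    cp (lkF S σ) (lv S σ) x = cp S (lv S σ) x := by
  ext y
  rw [mem_cp, mem_cp]
  constructor
  · rintro ⟨h1, h2⟩
    exact ⟨h1, fun A hA hx => h2 A ((cld_lkF h hσ A).mpr hA) hx⟩
  · rintro ⟨h1, h2⟩
    exact ⟨h1, fun A hA hx => h2 A ((cld_lkF h hσ A).mp hA) hx⟩

private theorem lv_lkF_union (h : HS k S d) {σ τ : Finset V} (hτ : τ ∈ lkF S σ) :
    lv (lkF S σ) τ = lv S (τ ∪ σ) := by
  have h1 := (W1.HslkAux.mem_lk h σ τ).mp hτ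
  ext x
  rw [mem_lv, mem_lv, W1.HslkAux.mem_lk h, Finset.disjoint_insert_left, Finset.mem_union,
    Finset.insert_union, not_or]
  constructor
  · rintro ⟨h2, ⟨h3, _⟩, h4⟩
    exact ⟨⟨h2, h3⟩, h4⟩
  · rintro ⟨⟨h2, h3⟩, h4⟩
    exact ⟨h2, ⟨h3, h1.1⟩, h4⟩

theorem cls_lkF (h : HS k S d) {c : ℕ} {σ : Finset V} (hσ : σ ∈ S)
    (hC : Cls S d c (lv S σ)) : Cls (lkF S σ) (d - σ.card) c (lv (lkF S σ) ∅) := by
  rw [W1.lv_lkF h σ hσ]
  intro A hA ρ hρ
  have hcd := h.card_le σ hσ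
  refine hC A ?_ ρ ?_
  · rw [mem_cps] at hA ⊢
    obtain ⟨x, hx, hxA⟩ := hA
    exact ⟨x, hx, by rw [← hxA, cp_lkF h hσ x]⟩
  · obtain ⟨τ, hτ, hc, hl⟩ := hρ
    have h1 := (W1.HslkAux.mem_lk h σ τ).mp hτ
    refine ⟨τ ∪ σ, h1.2, ?_, ?_⟩
    · rw [Finset.card_union_of_disjoint h1.1]
      omega
    · rw [← hl, lv_lkF_union h hτ]

theorem H_lkF (h : HS k S d) {σ τ : Finset V} (hσ : σ ∈ S) (hd : Disjoint τ σ)
    (hτ : τ ∪ σ ∈ S) : H (lkF S σ) (d - σ.card) τ = H S d (τ ∪ σ) := by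
  unfold H
  refine Finset.sum_bij' (fun F _ => F ∪ σ) (fun G _ => G \ σ) ?_ ?_ ?_ ?_ ?_
  · intro F hF
    rw [Finset.mem_filter, W1.HslkAux.mem_lk h] at hF
    rw [Finset.mem_filter]
    exact ⟨hF.1.2, Finset.union_subset_union_left hF.2⟩
  · intro G hG
    rw [Finset.mem_filter] at hG
    rw [Finset.mem_filter, W1.HslkAux.mem_lk h]
    refine ⟨⟨Finset.sdiff_disjoint, ?_⟩, ?_⟩
    · rw [Finset.sdiff_union_of_subset (Finset.subset_union_right.trans hG.2)]
      exact hG.1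
    · rw [Finset.subset_sdiff]
      exact ⟨Finset.subset_union_left.trans hG.2, hd⟩
  · intro F hF
    rw [Finset.mem_filter, W1.HslkAux.mem_lk h] at hF
    exact Finset.union_sdiff_cancel_right hF.1.1
  · intro G hG
    rw [Finset.mem_filter] at hG
    exact Finset.sdiff_union_of_subset (Finset.subset_union_right.trans hG.2)
  · intro F hF
    rw [Finset.mem_filter, W1.HslkAux.mem_lk h] at hF
    rw [Finset.card_union_of_disjoint hF.1.1, Nat.sub_sub, Nat.add_comm σ.card]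

end Pool.Agent.MP19e880.TT
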