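import Pool.Agent.Lib.MP_19e880_co_TT.EulHS

/-!
The contraction of an edge: h-polynomials.
-/

set_option autoImplicit false
set_option linter.unusedSectionVars false

namespace Pool.Agent.MP19e880.TT

open Polynomial

variable {V : Type} [Fintype V] [LinearOrder V] {k : Type} [Field k]
  {S : Finset (Finset V)} {d : ℕ}

/-- The faces containing `s` and `y`, not `x`, with the swapped face in `S`. -/
private theorem conH_a (hE : Eul S d) {x y : V} (hxy : x ≠ y) (hS : ({x, y} : Finset V) ∈ S)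
    (s : Finset V) (hx : x ∉ s) :
    ∑ F ∈ S.filter (fun F => s ⊆ F ∧ y ∈ F ∧ x ∉ F ∧ insert x (F.erase y) ∈ S),
        (X - 1 : ℤ[X]) ^ (d - F.card) =
      (X - 1) * ∑ F ∈ S.filter (fun F => s ⊆ F ∧ x ∈ F ∧ y ∈ F), (X - 1) ^ (d - F.card) := by
  rw [Finset.mul_sum]
  refine Finset.sum_bij' (fun F _ => insert x F) (fun G _ => G.erase x) ?_ ?_ ?_ ?_ ?_
  · intro F hF
    rw [Finset.mem_filter] at hF ⊢
    obtain ⟨h1, h2, h3, h4, h5⟩ := hF
    refine ⟨?_, h2.trans (Finset.subset_insert _ _), Finset.mem_insert_self _ _,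
      Finset.mem_insert_of_mem h3⟩
    refine hE.flag _ ?_
    intro a ha b hb
    rw [Finset.mem_insert] at ha hb
    have key : ∀ c ∈ F, ({x, c} : Finset V) ∈ S := by
      intro c hc
      by_cases hcy : c = y
      · rw [hcy]
        exact hS
      · exact pair_mem hE _ h5 x c (Finset.mem_insert_self _ _)
          (Finset.mem_insert_of_mem (Finset.mem_erase.mpr ⟨hcy, hc⟩))
    rcases ha with rfl | ha
    · rcases hb with rfl | hb
      · exact pair_mem hE _ h5 _ _ (Finset.mem_insert_self _ _) (Finset.mem_insert_self _ _)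
      · exact key b hb
    · rcases hb with rfl | hb
      · rw [Finset.pair_comm]
        exact key a ha
      · exact pair_mem hE F h1 a b ha hb
  · intro G hG
    rw [Finset.mem_filter] at hG ⊢
    obtain ⟨h1, h2, h3, h4⟩ := hG
    refine ⟨hE.down G h1 _ (Finset.erase_subset _ _), ?_, Finset.mem_erase.mpr ⟨hxy.symm, h4⟩,
      Finset.notMem_erase _ _, ?_⟩
    · intro a ha
      refine Finset.mem_erase.mpr ⟨?_, h2 ha⟩
      rintro rfl
      exact hx ha
    · refine hE.down G h1 _ ?_
      intro a ha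
      rw [Finset.mem_insert, Finset.mem_erase, Finset.mem_erase] at ha
      rcases ha with rfl | ha
      · exact h3
      · exact ha.2.2
  · intro F hF
    rw [Finset.mem_filter] at hF
    exact Finset.erase_insert hF.2.2.2.1
  · intro G hG
    rw [Finset.mem_filter] at hG
    exact Finset.insert_erase hG.2.2.1
  · intro F hF
    rw [Finset.mem_filter] at hF
    obtain ⟨h1, h2, h3, h4, h5⟩ := hF
    have hF2 : insert x F ∈ S := by
      refine hE.flag _ ?_
      intro a ha b hb
      rw [Finset.mem_insert] at ha hb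
      have key : ∀ c ∈ F, ({x, c} : Finset V) ∈ S := by
        intro c hc
        by_cases hcy : c = y
        · rw [hcy]
          exact hS
        · exact pair_mem hE _ h5 x c (Finset.mem_insert_self _ _)
            (Finset.mem_insert_of_mem (Finset.mem_erase.mpr ⟨hcy, hc⟩))
      rcases ha with rfl | ha
      · rcases hb with rfl | hb
        · exact pair_mem hE _ h5 _ _ (Finset.mem_insert_self _ _) (Finset.mem_insert_self _ _)
        · exact key b hb
      · rcases hb with rfl | hb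
        · rw [Finset.pair_comm]
          exact key a ha
        · exact pair_mem hE F h1 a b ha hb
    have h6 := hE.le _ hF2
    rw [Finset.card_insert_of_notMem h4] at h6 ⊢
    rw [← pow_succ']
    congr 1
    omega

/-- The new faces of the contraction. -/
private theorem conH_b (hE : Eul S d) {x y : V} (hxy : x ≠ y)
    (s : Finset V) (hx : x ∉ s) (hy : y ∉ s) :
    ∑ G ∈ (W1.con S x y).filter (fun G => s ⊆ G ∧ G ∉ S), (X - 1 : ℤ[X]) ^ (d - G.card) =
      ∑ F ∈ S.filter (fun F => s ⊆ F ∧ y ∈ F ∧ x ∉ F ∧ insert x (F.erase y) ∉ S),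
        (X - 1 : ℤ[X]) ^ (d - F.card) := by
  have e1 : ∀ G : Finset V, x ∈ G → y ∉ G → insert x ((insert y (G.erase x)).erase y) = G := by
    intro G h1 h2
    rw [Finset.erase_insert (fun h => h2 (Finset.mem_of_mem_erase h)), Finset.insert_erase h1]
  have e2 : ∀ F : Finset V, y ∈ F → x ∉ F → insert y ((insert x (F.erase y)).erase x) = F := by
    intro F h1 h2
    rw [Finset.erase_insert (fun h => h2 (Finset.mem_of_mem_erase h)), Finset.insert_erase h1]
  refine Finset.sum_bij' (fun G _ => insert y (G.erase x)) (fun F _ => insert x (F.erase y))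
    ?_ ?_ ?_ ?_ ?_
  · intro G hG
    rw [Finset.mem_filter, W1.CtrcAux.mem_con hE.down hxy] at hG
    rw [Finset.mem_filter]
    obtain ⟨⟨h1, h2⟩, h3, h4⟩ := hG
    rcases h2 with h2 | ⟨h2, h5⟩
    · exact absurd h2 h4
    · refine ⟨h5, ?_, Finset.mem_insert_self _ _, ?_, ?_⟩
      · intro a ha
        refine Finset.mem_insert_of_mem (Finset.mem_erase.mpr ⟨?_, h3 ha⟩)
        rintro rfl
        exact hx ha
      · rw [Finset.mem_insert, not_or]
        exact ⟨hxy, Finset.notMem_erase _ _⟩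
      · rw [e1 G h2 h1]
        exact h4
  · intro F hF
    rw [Finset.mem_filter] at hF
    rw [Finset.mem_filter, W1.CtrcAux.mem_con hE.down hxy]
    obtain ⟨h1, h2, h3, h4, h5⟩ := hF
    refine ⟨⟨?_, Or.inr ⟨Finset.mem_insert_self _ _, ?_⟩⟩, ?_, h5⟩
    · rw [Finset.mem_insert, not_or]
      exact ⟨hxy.symm, Finset.notMem_erase _ _⟩
    · rw [e2 F h3 h4]
      exact h1
    · intro a ha
      refine Finset.mem_insert_of_mem (Finset.mem_erase.mpr ⟨?_, h2 ha⟩)
      rintro rfl
      exact hy ha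
  · intro G hG
    rw [Finset.mem_filter, W1.CtrcAux.mem_con hE.down hxy] at hG
    obtain ⟨⟨h1, h2⟩, h3, h4⟩ := hG
    rcases h2 with h2 | ⟨h2, h5⟩
    · exact absurd h2 h4
    · exact e1 G h2 h1
  · intro F hF
    rw [Finset.mem_filter] at hF
    exact e2 F hF.2.2.1 hF.2.2.2.1
  · intro G hG
    rw [Finset.mem_filter, W1.CtrcAux.mem_con hE.down hxy] at hG
    obtain ⟨⟨h1, h2⟩, h3, h4⟩ := hG
    rcases h2 with h2 | ⟨h2, h5⟩
    · exact absurd h2 h4
    · rw [Finset.card_insert_of_notMem (fun h => h1 (Finset.mem_of_mem_erase h)),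
        Finset.card_erase_of_mem h2]
      have : 0 < G.card := Finset.card_pos.mpr ⟨x, h2⟩
      congr 2
      omega

/-- The old faces of the contraction. -/
private theorem conH_c (hE : Eul S d) {x y : V} (hxy : x ≠ y) (t : Finset V) :
    H (W1.con S x y) d t =
      ∑ F ∈ S.filter (fun F => t ⊆ F ∧ y ∉ F), (X - 1 : ℤ[X]) ^ (d - F.card) +
      ∑ G ∈ (W1.con S x y).filter (fun G => t ⊆ G ∧ G ∉ S), (X - 1 : ℤ[X]) ^ (d - G.card) := by
  unfold H
  rw [← Finset.sum_filter_add_sum_filter_not ((W1.con S x y).filter (fun G => t ⊆ G))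
    (fun G => G ∈ S)]
  congr 1
  · refine Finset.sum_congr ?_ (fun _ _ => rfl)
    ext G
    rw [Finset.mem_filter, Finset.mem_filter, Finset.mem_filter,
      W1.CtrcAux.mem_con hE.down hxy]
    constructor
    · rintro ⟨⟨⟨h1, h2⟩, h3⟩, h4⟩
      exact ⟨h4, h3, h1⟩
    · rintro ⟨h4, h3, h1⟩
      exact ⟨⟨⟨h1, Or.inl h4⟩, h3⟩, h4⟩
  · refine Finset.sum_congr ?_ (fun _ _ => rfl)
    ext G
    rw [Finset.mem_filter, Finset.mem_filter, Finset.mem_filter, and_assoc]

private theorem conH_split (x y : V) (s : Finset V) :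
    H S d s =
      ∑ F ∈ S.filter (fun F => s ⊆ F ∧ y ∉ F), (X - 1 : ℤ[X]) ^ (d - F.card) +
      (∑ F ∈ S.filter (fun F => s ⊆ F ∧ x ∈ F ∧ y ∈ F), (X - 1) ^ (d - F.card) +
      (∑ F ∈ S.filter (fun F => s ⊆ F ∧ y ∈ F ∧ x ∉ F ∧ insert x (F.erase y) ∈ S),
        (X - 1) ^ (d - F.card) +
      ∑ F ∈ S.filter (fun F => s ⊆ F ∧ y ∈ F ∧ x ∉ F ∧ insert x (F.erase y) ∉ S),
        (X - 1) ^ (d - F.card))) := by
  unfold H
  simp only [Finset.sum_filter]
  rw [← Finset.sum_add_distrib, ← Finset.sum_add_distrib, ← Finset.sum_add_distrib]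
  refine Finset.sum_congr rfl fun F _ => ?_
  by_cases h1 : s ⊆ F
  · by_cases h2 : y ∈ F
    · by_cases h3 : x ∈ F
      · simp [h1, h2, h3]
      · by_cases h4 : insert x (F.erase y) ∈ S
        · simp [h1, h2, h3, h4]
        · simp [h1, h2, h3, h4]
    · simp [h1, h2]
  · simp [h1]

private theorem conH_gen (hE : Eul S d) {x y : V} (hxy : x ≠ y) (hS : ({x, y} : Finset V) ∈ S)
    (s : Finset V) (hx : x ∉ s) (hy : y ∉ s) :
    H S d s = H (W1.con S x y) d s +
      X * ∑ F ∈ S.filter (fun F => s ⊆ F ∧ x ∈ F ∧ y ∈ F), (X - 1) ^ (d - F.card) := by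
  rw [conH_split x y s, conH_c hE hxy s, conH_b hE hxy s hx hy, conH_a hE hxy hS s hx]
  ring

theorem H_con (h : HS k S d) {x y : V} (hxy : x ≠ y) (hS : ({x, y} : Finset V) ∈ S)
    (hq : W1.NoSq S x y) :
    H S d ∅ = H (W1.con S x y) d ∅ + X * H S d {x, y} := by
  rw [conH_gen (eul_of_hs h) hxy hS ∅ (Finset.notMem_empty _) (Finset.notMem_empty _)]
  congr 2
  unfold H
  refine Finset.sum_congr ?_ (fun _ _ => rfl)
  ext F
  rw [Finset.mem_filter, Finset.mem_filter, Finset.insert_subset_iff, Finset.singleton_subset_iff]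
  simp

/-- A vertex adjacent to both ends. -/
theorem H_con_both (h : HS k S d) {x y w : V} (hxy : x ≠ y) (hS : ({x, y} : Finset V) ∈ S)
    (hq : W1.NoSq S x y) (hwx : w ≠ x) (hwy : w ≠ y) (hw : ({w, x, y} : Finset V) ∈ S) :
    H S d {w} = H (W1.con S x y) d {w} + X * H S d {w, x, y} := by
  rw [conH_gen (eul_of_hs h) hxy hS {w} (by rw [Finset.mem_singleton]; exact hwx.symm)
    (by rw [Finset.mem_singleton]; exact hwy.symm)]
  congr 2
  unfold H
  refine Finset.sum_congr ?_ (fun _ _ => rfl)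
  ext F
  rw [Finset.mem_filter, Finset.mem_filter, Finset.insert_subset_iff, Finset.insert_subset_iff,
    Finset.singleton_subset_iff, Finset.singleton_subset_iff]

/-- A vertex not adjacent to both ends. -/
theorem H_con_one (h : HS k S d) {x y w : V} (hxy : x ≠ y) (hS : ({x, y} : Finset V) ∈ S)
    (hq : W1.NoSq S x y) (hwx : w ≠ x) (hwy : w ≠ y) (hwS : {w} ∈ S)
    (hw : ({w, x, y} : Finset V) ∉ S) : H S d {w} = H (W1.con S x y) d {w} := by
  have hE := eul_of_hs h
  rw [conH_gen hE hxy hS {w} (by rw [Finset.mem_singleton]; exact hwx.symm)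
    (by rw [Finset.mem_singleton]; exact hwy.symm)]
  have h0 : S.filter (fun F => ({w} : Finset V) ⊆ F ∧ x ∈ F ∧ y ∈ F) = ∅ := by
    rw [Finset.filter_eq_empty_iff]
    rintro F hF ⟨h1, h2, h3⟩
    apply hw
    refine hE.down F hF _ ?_
    rw [Finset.singleton_subset_iff] at h1
    intro a ha
    rw [Finset.mem_insert, Finset.mem_insert, Finset.mem_singleton] at ha
    rcases ha with rfl | rfl | rfl
    · exact h1
    · exact h2
    · exact h3
  rw [h0, Finset.sum_empty, mul_zero, add_zero]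

/-- The ends of the edge. -/
theorem H_con_end (h : HS k S d) {x y : V} (hxy : x ≠ y) (hS : ({x, y} : Finset V) ∈ S)
    (hq : W1.NoSq S x y) :
    H S d {x} + H S d {y} = H (W1.con S x y) d {x} + (1 + X) * H S d {x, y} := by
  have hE := eul_of_hs h
  have h1 := conH_a hE hxy hS ∅ (Finset.notMem_empty _)
  have h2 := conH_b hE hxy ∅ (Finset.notMem_empty _) (Finset.notMem_empty _)
  have h3 := conH_c hE hxy {x}
  have h4 : H S d {x, y} =
      ∑ F ∈ S.filter (fun F => ∅ ⊆ F ∧ x ∈ F ∧ y ∈ F), (X - 1 : ℤ[X]) ^ (d - F.card) := by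
    unfold H
    refine Finset.sum_congr ?_ (fun _ _ => rfl)
    ext F
    rw [Finset.mem_filter, Finset.mem_filter, Finset.insert_subset_iff,
      Finset.singleton_subset_iff]
    simp
  have h5 : H S d {x} =
      ∑ F ∈ S.filter (fun F => ({x} : Finset V) ⊆ F ∧ y ∉ F), (X - 1 : ℤ[X]) ^ (d - F.card) +
      H S d {x, y} := by
    rw [h4]
    unfold H
    simp only [Finset.sum_filter]
    rw [← Finset.sum_add_distrib]
    refine Finset.sum_congr rfl fun F _ => ?_
    by_cases ha : x ∈ F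
    · by_cases hb : y ∈ F
      · simp [ha, hb]
      · simp [ha, hb]
    · simp [ha]
  have h6 : H S d {y} = H S d {x, y} +
      (∑ F ∈ S.filter (fun F => ∅ ⊆ F ∧ y ∈ F ∧ x ∉ F ∧ insert x (F.erase y) ∈ S),
        (X - 1) ^ (d - F.card) +
      ∑ F ∈ S.filter (fun F => ∅ ⊆ F ∧ y ∈ F ∧ x ∉ F ∧ insert x (F.erase y) ∉ S),
        (X - 1) ^ (d - F.card)) := by
    rw [h4]
    unfold H
    simp only [Finset.sum_filter]
    rw [← Finset.sum_add_distrib, ← Finset.sum_add_distrib]
    refine Finset.sum_congr rfl fun F _ => ?_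
    by_cases hb : y ∈ F
    · by_cases ha : x ∈ F
      · simp [ha, hb]
      · by_cases hc : insert x (F.erase y) ∈ S
        · simp [ha, hb, hc]
        · simp [ha, hb, hc]
    · simp [hb]
  have h7 : (W1.con S x y).filter (fun G => ({x} : Finset V) ⊆ G ∧ G ∉ S) =
      (W1.con S x y).filter (fun G => (∅ : Finset V) ⊆ G ∧ G ∉ S) := by
    ext G
    rw [Finset.mem_filter, Finset.mem_filter, W1.CtrcAux.mem_con hE.down hxy]
    constructor
    · rintro ⟨ha, hb, hc⟩
      exact ⟨ha, Finset.empty_subset _, hc⟩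
    · rintro ⟨ha, hb, hc⟩
      refine ⟨ha, ?_, hc⟩
      rcases ha.2 with hd | hd
      · exact absurd hd hc
      · rw [Finset.singleton_subset_iff]
        exact hd.1
  rw [h7, h2] at h3
  rw [h5, h6, h3, h1, ← h4]
  ring

end Pool.Agent.MP19e880.TT
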