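import Pool.Agent.Lib.MP_19e880_co_TT.EulHS

/-!
Vertex sets of links: basic facts.
-/

set_option autoImplicit false
set_option linter.unusedSectionVars false

namespace Pool.Agent.MP19e880.TT

variable {V : Type} [Fintype V] [LinearOrder V] {k : Type} [Field k]
  {S : Finset (Finset V)} {d : ℕ}

private theorem ApiA.empty (h : HS k S d) : (∅ : Finset V) ∈ S :=
  h.flag ∅ (fun a ha => absurd ha (Finset.notMem_empty a))

private theorem ApiA.disj {σ F : Finset V} (hF : F ⊆ lv S σ) : Disjoint F σ := by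
  rw [Finset.disjoint_left]
  intro x hx
  exact ((mem_lv σ x).mp (hF hx)).1

theorem LS.top (h : HS k S d) : LS S d d (lv S ∅) :=
  ⟨∅, ApiA.empty h, by rw [Finset.card_empty, Nat.zero_add], rfl⟩

theorem LS.self (h : HS k S d) {r : ℕ} {U : Finset V} (hU : LS S d r U) {x : V} (hx : x ∈ U) :
    ({x, x} : Finset V) ∈ S := by
  obtain ⟨σ, hσ, hc, rfl⟩ := hU
  have hE := eul_of_hs h
  exact pair_mem hE _ ((mem_lv σ x).mp hx).2 x x (Finset.mem_insert_self _ _)
    (Finset.mem_insert_self _ _)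

theorem LS.nb (h : HS k S d) {r : ℕ} {U : Finset V} (hU : LS S d r U) {p : V} (hp : p ∈ U) :
    ∃ s, r = s + 1 ∧ LS S d s (nb S U p) := by
  obtain ⟨σ, hσ, hc, rfl⟩ := hU
  have hE := eul_of_hs h
  obtain ⟨hp1, hp2⟩ := (mem_lv σ p).mp hp
  have hle := h.card_le _ hp2
  rw [Finset.card_insert_of_notMem hp1] at hle
  refine ⟨r - 1, by omega, insert p σ, hp2, ?_, ?_⟩
  · rw [Finset.card_insert_of_notMem hp1]
    omega
  · ext y
    rw [mem_lv_insert h hE σ p y hp, mem_nb, Finset.pair_comm y p]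

theorem LS.face (h : HS k S d) {r : ℕ} {U F : Finset V} (hU : LS S d r U) (hF : F ⊆ U)
    (hS : F ∈ S) : F.card ≤ r := by
  obtain ⟨σ, hσ, hc, rfl⟩ := hU
  have hE := eul_of_hs h
  have h1 := lv_flag hE σ F hσ hF (fun a ha b hb => pair_mem hE F hS a b ha hb)
  have h2 := h.card_le _ h1
  rw [Finset.card_union_of_disjoint (ApiA.disj hF)] at h2
  omega

theorem LS.facet (h : HS k S d) {r : ℕ} {U F : Finset V} (hU : LS S d r U) (hF : F ⊆ U)
    (hS : F ∈ S) : ∃ G, F ⊆ G ∧ G ⊆ U ∧ G ∈ S ∧ G.card = r := by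
  obtain ⟨σ, hσ, hc, rfl⟩ := hU
  have hE := eul_of_hs h
  have h1 := lv_flag hE σ F hσ hF (fun a ha b hb => pair_mem hE F hS a b ha hb)
  obtain ⟨P, hP1, hP2, hP3⟩ := exists_facet h (F ∪ σ) h1
  rw [Finset.disjoint_union_right] at hP1
  rw [Finset.card_union_of_disjoint (ApiA.disj hF)] at hP3
  have hcard : (F ∪ P).card = F.card + P.card :=
    Finset.card_union_of_disjoint hP1.1.symm
  refine ⟨F ∪ P, Finset.subset_union_left, ?_, ?_, by omega⟩
  · refine Finset.union_subset hF ?_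
    intro y hy
    rw [mem_lv]
    refine ⟨fun h' => Finset.disjoint_left.mp hP1.2 hy h', hE.down _ hP2 _ ?_⟩
    refine Finset.insert_subset (Finset.mem_union_left _ hy) ?_
    exact Finset.subset_union_right.trans Finset.subset_union_right
  · refine hE.down _ hP2 _ ?_
    refine Finset.union_subset ?_ Finset.subset_union_left
    exact Finset.subset_union_left.trans Finset.subset_union_right

private theorem ApiA.filter_eq (h : HS k S d) {σ F : Finset V} (hσ : σ ∈ S) (hF : F ⊆ lv S σ)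
    (hS : F ∈ S) :
    (lv S σ).filter (fun v => v ∉ F ∧ insert v F ∈ S) = lv S (F ∪ σ) := by
  have hE := eul_of_hs h
  have h1 := lv_flag hE σ F hσ hF (fun a ha b hb => pair_mem hE F hS a b ha hb)
  ext v
  rw [mem_lv_union hE σ F hσ hF h1 v, Finset.mem_filter]
  constructor
  · rintro ⟨hv, hvF, hvS⟩
    exact ⟨hv, hvF, fun a ha => pair_mem hE _ hvS v a (Finset.mem_insert_self _ _)
      (Finset.mem_insert_of_mem ha)⟩
  · rintro ⟨hv, hvF, hva⟩
    refine ⟨hv, hvF, h.flag _ ?_⟩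
    have hvv : ({v, v} : Finset V) ∈ S := pair_mem hE _ ((mem_lv σ v).mp hv).2 v v
      (Finset.mem_insert_self _ _) (Finset.mem_insert_self _ _)
    intro a ha b hb
    rw [Finset.mem_insert] at ha hb
    rcases ha with rfl | ha <;> rcases hb with rfl | hb
    · exact hvv
    · exact hva b hb
    · exact pair_symm (hva a ha)
    · exact pair_mem hE F hS a b ha hb

theorem LS.two (h : HS k S d) {r : ℕ} {U F : Finset V} (hU : LS S d r U) (hF : F ⊆ U)
    (hS : F ∈ S) (hc : F.card + 1 = r) :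
    (U.filter (fun v => v ∉ F ∧ insert v F ∈ S)).card = 2 := by
  obtain ⟨σ, hσ, hc', rfl⟩ := hU
  have hE := eul_of_hs h
  have h1 := lv_flag hE σ F hσ hF (fun a ha b hb => pair_mem hE F hS a b ha hb)
  rw [ApiA.filter_eq h hσ hF hS]
  refine HS.two (S := S) (d := d) hE (F ∪ σ) h1 ?_
  rw [Finset.card_union_of_disjoint (ApiA.disj hF)]
  omega

/-- Three different extensions of a ridge are impossible. -/
theorem LS.three (h : HS k S d) {r : ℕ} {U F : Finset V} (hU : LS S d r U) (hF : F ⊆ U)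
    (hc : F.card + 1 = r) {x y z : V} (hx : x ∈ U) (hy : y ∈ U) (hz : z ∈ U) (hxF : x ∉ F)
    (hyF : y ∉ F) (hzF : z ∉ F) (hx2 : insert x F ∈ S) (hy2 : insert y F ∈ S)
    (hz2 : insert z F ∈ S) (hxy : x ≠ y) (hxz : x ≠ z) (hyz : y ≠ z) : False := by
  have hS : F ∈ S := h.down _ hx2 _ (Finset.subset_insert _ _)
  have h2 := LS.two h hU hF hS hc
  have hsub : ({x, y, z} : Finset V) ⊆ U.filter (fun v => v ∉ F ∧ insert v F ∈ S) := by
    intro v hv
    rw [Finset.mem_insert, Finset.mem_insert, Finset.mem_singleton] at hv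
    rw [Finset.mem_filter]
    rcases hv with rfl | rfl | rfl
    · exact ⟨hx, hxF, hx2⟩
    · exact ⟨hy, hyF, hy2⟩
    · exact ⟨hz, hzF, hz2⟩
  have h3 := Finset.card_le_card hsub
  have h4 : ({x, y, z} : Finset V).card = 3 := Finset.card_eq_three.mpr
    ⟨x, y, z, hxy, hxz, hyz, rfl⟩
  omega

/-- A facet can be flipped at each vertex. -/
theorem LS.flip (h : HS k S d) {r : ℕ} {U F : Finset V} (hU : LS S d r U) (hF : F ⊆ U)
    (hS : F ∈ S) (hc : F.card = r) {x : V} (hx : x ∈ F) :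
    ∃ y ∈ U, y ∉ F ∧ insert y (F.erase x) ∈ S ∧ ({y, x} : Finset V) ∉ S := by
  have hE := eul_of_hs h
  have hsubU : F.erase x ⊆ U := (Finset.erase_subset _ _).trans hF
  have hR : F.erase x ∈ S := h.down _ hS _ (Finset.erase_subset _ _)
  have hpos : 0 < F.card := Finset.card_pos.mpr ⟨x, hx⟩
  have hce : (F.erase x).card + 1 = r := by
    rw [Finset.card_erase_of_mem hx]
    omega
  have h2 := LS.two h hU hsubU hR hce
  have hxm : x ∈ U.filter (fun v => v ∉ F.erase x ∧ insert v (F.erase x) ∈ S) := by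
    rw [Finset.mem_filter, Finset.insert_erase hx]
    exact ⟨hF hx, Finset.notMem_erase _ _, hS⟩
  obtain ⟨y, hy, hyx⟩ : ∃ y ∈ U.filter (fun v => v ∉ F.erase x ∧ insert v (F.erase x) ∈ S),
      y ≠ x := by
    by_contra hcon
    push Not at hcon
    have h3 : U.filter (fun v => v ∉ F.erase x ∧ insert v (F.erase x) ∈ S) ⊆ {x} := by
      intro y hy
      rw [Finset.mem_singleton]
      exact hcon y hy
    have h4 := Finset.card_le_card h3
    rw [h2, Finset.card_singleton] at h4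
    omega
  rw [Finset.mem_filter] at hy
  obtain ⟨hyU, hyF, hyS⟩ := hy
  have hyF' : y ∉ F := fun h' => hyF (Finset.mem_erase.mpr ⟨hyx, h'⟩)
  refine ⟨y, hyU, hyF', hyS, ?_⟩
  intro hadj
  have hbig : insert y F ∈ S := by
    apply h.flag
    have key : ∀ a ∈ F, ({y, a} : Finset V) ∈ S := by
      intro a ha
      by_cases hax : a = x
      · rw [hax]; exact hadj
      · exact pair_mem hE _ hyS y a (Finset.mem_insert_self _ _)
          (Finset.mem_insert_of_mem (Finset.mem_erase.mpr ⟨hax, ha⟩))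
    intro a ha b hb
    rw [Finset.mem_insert] at ha hb
    rcases ha with rfl | ha <;> rcases hb with rfl | hb
    · exact LS.self h hU hyU
    · exact key b hb
    · exact pair_symm (key a ha)
    · exact pair_mem hE F hS a b ha hb
  have h5 := LS.face h hU (Finset.insert_subset hyU hF) hbig
  rw [Finset.card_insert_of_notMem hyF'] at h5
  omega

theorem LS.uniq (h : HS k S d) {r s : ℕ} {U : Finset V} (hU : LS S d r U) (hU' : LS S d s U) :
    r = s := by
  obtain ⟨G, -, hG1, hG2, hG3⟩ := LS.facet h hU (Finset.empty_subset U) (ApiA.empty h)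
  obtain ⟨H, -, hH1, hH2, hH3⟩ := LS.facet h hU' (Finset.empty_subset U) (ApiA.empty h)
  have h1 := LS.face h hU' hG1 hG2
  have h2 := LS.face h hU hH1 hH2
  omega

theorem LS.zero (h : HS k S d) {r : ℕ} {U : Finset V} (hU : LS S d r U) : U = ∅ ↔ r = 0 := by
  constructor
  · intro hUe
    obtain ⟨G, -, hG1, hG2, hG3⟩ := LS.facet h hU (Finset.empty_subset U) (ApiA.empty h)
    rw [hUe, Finset.subset_empty] at hG1
    rw [hG1, Finset.card_empty] at hG3
    exact hG3.symm
  · intro hr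
    rw [Finset.eq_empty_iff_forall_notMem]
    intro x hx
    have h1 : ({x} : Finset V) ∈ S := by
      have h2 := LS.self h hU hx
      rwa [Finset.pair_eq_singleton] at h2
    have h3 := LS.face h hU (Finset.singleton_subset_iff.mpr hx) h1
    rw [Finset.card_singleton] at h3
    omega

theorem LS.two_mul (h : HS k S d) {r : ℕ} {U : Finset V} (hU : LS S d r U) :
    2 * r ≤ U.card := by
  obtain ⟨σ, hσ, hc, rfl⟩ := hU
  exact lv_two_mul h r σ hσ hc

theorem LS.cld (h : HS k S d) {r : ℕ} {U W : Finset V} (hU : LS S d r U) (hW : Cld S U W) :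
    ∃ s t, s + t = r ∧ LS S d s W ∧ LS S d t (U \ W) := by
  obtain ⟨σ, hσ, hc, rfl⟩ := hU
  have hE := eul_of_hs h
  obtain ⟨P, hP1, hP2, hP3⟩ := exists_facet h σ hσ
  have hP : Fac S d σ P := ⟨hP1, hP2, hP3⟩
  have hsub := fac_sub hE hP
  obtain ⟨a1, a2, a3⟩ := split h hE hσ hP hW
  obtain ⟨b1, b2, b3⟩ := split h hE hσ hP hW.sdiff
  refine ⟨(P ∩ W).card, (P ∩ (lv S σ \ W)).card, ?_, ⟨_, a1, a3, a2⟩, ⟨_, b1, b3, b2⟩⟩
  have h1 : P ∩ (lv S σ \ W) = P \ W := by
    ext x
    rw [Finset.mem_inter, Finset.mem_sdiff, Finset.mem_sdiff]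
    constructor
    · rintro ⟨hx, -, hx2⟩
      exact ⟨hx, hx2⟩
    · rintro ⟨hx, hx2⟩
      exact ⟨hx, hsub hx, hx2⟩
  rw [h1, Finset.card_inter_add_card_sdiff]
  omega

theorem glue (h : HS k S d) {F G : Finset V} (hF : F ∈ S) (hG : G ∈ S)
    (hc : ∀ a ∈ F, ∀ b ∈ G, ({a, b} : Finset V) ∈ S) : F ∪ G ∈ S := by
  have hE := eul_of_hs h
  apply h.flag
  intro a ha b hb
  rw [Finset.mem_union] at ha hb
  rcases ha with ha | ha <;> rcases hb with hb | hb
  · exact pair_mem hE F hF a b ha hb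
  · exact hc a ha b hb
  · exact pair_symm (hc b hb a ha)
  · exact pair_mem hE G hG a b ha hb

end Pool.Agent.MP19e880.TT
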