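import Pool.Agent.Lib.MP_19e880_co_TT.ApiA

/-!
Vertex sets of links: strong connectivity and connectivity.
-/

set_option autoImplicit false
set_option linter.unusedSectionVars false

namespace Pool.Agent.MP19e880.TT

variable {V : Type} [Fintype V] [LinearOrder V] {k : Type} [Field k]
  {S : Finset (Finset V)} {d : ℕ}

/-- A set of vertices which contains a facet and is closed under flips is everything. -/
theorem LS.full (h : HS k S d) {r : ℕ} {U W : Finset V} (hU : LS S d r U) (hW : W ⊆ U)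
    {F : Finset V} (hF : F ⊆ W) (hFS : F ∈ S) (hFc : F.card = r)
    (hcl : ∀ (R : Finset V) (u u' : V), u ∉ R → u' ∉ R → u ≠ u' → insert u R ⊆ W →
      insert u R ∈ S → (insert u R).card = r → u' ∈ U → insert u' R ∈ S → u' ∈ W) : W = U := by
  obtain ⟨σ, hσ, hc, rfl⟩ := hU
  have hE := eul_of_hs h
  have hfac : ∀ G : Finset V, G ⊆ lv S σ → G ∈ S → G.card = r → Fac S d σ G := by
    intro G hG hGS hGc
    refine ⟨?_, lv_flag hE σ G hσ hG (fun a ha b hb => pair_mem hE G hGS a b ha hb), by omega⟩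
    rw [Finset.disjoint_left]
    intro x hx
    exact ((mem_lv σ x).mp (hG hx)).1
  have key := h.strong σ hσ (fun G => G ⊆ W) F (hfac F (hF.trans hW) hFS hFc) hF (by
    intro R u u' hu hu' hf hf' hR
    by_cases huu : u = u'
    · rw [← huu]
      exact hR
    · have h1 : insert u R ∈ S := h.down _ hf.2.1 _ Finset.subset_union_left
      have h2 : insert u' R ∈ S := h.down _ hf'.2.1 _ Finset.subset_union_left
      have h3 := hf.2.2
      have h4 : u' ∈ W := hcl R u u' hu hu' huu hR h1 (by omega)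
        (fac_sub hE hf' (Finset.mem_insert_self _ _)) h2
      exact Finset.insert_subset h4 ((Finset.subset_insert _ _).trans hR))
  refine Finset.Subset.antisymm hW ?_
  intro x hx
  have hU' : LS S d r (lv S σ) := ⟨σ, hσ, hc, rfl⟩
  have hxS : ({x} : Finset V) ∈ S := by
    have h1 := LS.self h hU' hx
    rwa [Finset.pair_eq_singleton] at h1
  obtain ⟨G, hG1, hG2, hG3, hG4⟩ := LS.facet h hU' (Finset.singleton_subset_iff.mpr hx) hxS
  exact key G (hfac G hG2 hG3 hG4) (hG1 (Finset.mem_singleton_self x))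

/-- The link, without one vertex `w`, is connected. -/
theorem LS.conn (h : HS k S d) {r : ℕ} {U : Finset V} (hU : LS S d r U) (hr : 2 ≤ r) (w : V)
    (X : Finset V) {x0 y0 : V} (hx0 : x0 ∈ U) (hx0w : x0 ≠ w) (hx0X : x0 ∈ X) (hy0 : y0 ∈ U)
    (hy0w : y0 ≠ w) (hy0X : y0 ∉ X) :
    ∃ x ∈ U, x ≠ w ∧ x ∈ X ∧ ∃ y ∈ U, y ≠ w ∧ y ∉ X ∧ ({x, y} : Finset V) ∈ S := by
  obtain ⟨σ, hσ, hc, rfl⟩ := hU
  have hE := eul_of_hs h
  by_cases hw : w ∈ lv S σ
  · have hw' := (mem_lv σ w).mp hw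
    have key : ∀ x ∈ lv S σ, x ≠ w → LX S σ {w} {x} := by
      intro x hx hxw
      have hx' := (mem_lv σ x).mp hx
      refine ⟨?_, ?_, ?_⟩
      · rw [Finset.disjoint_singleton_left]
        exact hx'.1
      · rw [Finset.singleton_union]
        exact hx'.2
      · rw [Finset.disjoint_singleton_left, Finset.mem_singleton]
        exact hxw
    obtain ⟨x, hx, y, hy, hxy⟩ := conn_gen (k := k) (LX S σ {w})
      (fun z hz hbz => h.acyc_v σ hσ w hw'.1 hw'.2 1 z hz hbz) X x0 y0 hx0X (key _ hx0 hx0w)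
      hy0X (key _ hy0 hy0w)
    obtain ⟨h1, h2, h3⟩ := hxy
    have key2 : ∀ u, u ∈ ({x, y} : Finset V) → u ∈ lv S σ ∧ u ≠ w := by
      intro u hu
      rw [mem_lv]
      refine ⟨⟨Finset.disjoint_left.mp h1 hu, hE.down _ h2 _ ?_⟩, ?_⟩
      · exact Finset.insert_subset (Finset.mem_union_left _ hu) Finset.subset_union_right
      · rintro rfl
        exact Finset.disjoint_left.mp h3 hu (Finset.mem_singleton_self _)
    have hx' := key2 x (Finset.mem_insert_self _ _)
    have hy' := key2 y (Finset.mem_insert_of_mem (Finset.mem_singleton_self _))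
    exact ⟨x, hx'.1, hx'.2, hx, y, hy'.1, hy'.2, hy,
      hE.down _ h2 _ Finset.subset_union_left⟩
  · obtain ⟨x, hx, y, hy, hyX, hxy⟩ := conn_lk h hE σ hσ (by omega) (X ∩ lv S σ) x0 y0
      (Finset.mem_inter.mpr ⟨hx0X, hx0⟩) hx0 (fun h' => hy0X (Finset.mem_inter.mp h').1) hy0
    rw [Finset.mem_inter] at hx
    refine ⟨x, hx.2, ?_, hx.1, y, hy, ?_, fun h' => hyX (Finset.mem_inter.mpr ⟨h', hy⟩), hxy⟩
    · rintro rfl
      exact hw hx.2
    · rintro rfl
      exact hw hy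

/-- The non-neighbours of a vertex form a connected set. -/
theorem LS.nk_conn (h : HS k S d) {r : ℕ} {U : Finset V} (hU : LS S d r U) {a : V} (ha : a ∈ U)
    (X : Finset V) {x0 y0 : V} (hx0 : x0 ∈ nk S U a) (hx0X : x0 ∈ X) (hy0 : y0 ∈ nk S U a)
    (hy0X : y0 ∉ X) :
    ∃ x ∈ nk S U a, x ∈ X ∧ ∃ y ∈ nk S U a, y ∉ X ∧ ({x, y} : Finset V) ∈ S := by
  obtain ⟨σ, hσ, hc, rfl⟩ := hU
  obtain ⟨x, hx, hx2, y, hy, hyX, hxy⟩ := conn_nn h (eul_of_hs h) σ hσ a ha X x0 y0 hx0X hx0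
    hy0X hy0
  exact ⟨x, hx2, hx, y, hy, hyX, hxy⟩

theorem LS.nk_ne (h : HS k S d) {r : ℕ} {U : Finset V} (hU : LS S d r U) {a : V} (ha : a ∈ U) :
    (nk S U a).Nonempty := by
  obtain ⟨σ, hσ, hc, rfl⟩ := hU
  exact nn_nonempty h (eul_of_hs h) σ hσ a ha

end Pool.Agent.MP19e880.TT
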