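import Pool.Agent.Lib.MP_19e880_co_TT.Root

/-!
Tight vertices: the shape of the laminar family.
-/

set_option autoImplicit false
set_option linter.unusedSectionVars false

namespace Pool.Agent.MP19e880.TT

variable {V : Type} [Fintype V] [LinearOrder V] {k : Type} [Field k]
  {S : Finset (Finset V)} {d : ℕ}

private theorem TTP.min (h : HS k S d) {r : ℕ} {U : Finset V} (hU : LS S d r U) {a : V}
    (ht : Ti S U a) (hne : (nb S U a).Nonempty) {R : Finset V} (hR : R ⊆ nk S U a)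
    (h2 : 2 ≤ R.card) :
    ∃ C ∈ cps S (nb S U a), ∃ p ∈ C, ∃ q ∈ C, (∀ w, w ∈ Mp S U a p → w ∈ Mp S U a q → False) ∧
      (∀ w ∈ R, w ∈ Mp S U a p ∨ w ∈ Mp S U a q) ∧ ¬ R ⊆ Mp S U a p ∧ ¬ R ⊆ Mp S U a q := by
  classical
  have hF : ((cps S (nb S U a)).filter (fun B => R ⊆ XX S U a {B})).Nonempty := by
    obtain ⟨B, hB, hB2⟩ := root_top h hU ht hne
    exact ⟨B, Finset.mem_filter.mpr ⟨hB, by rw [hB2]; exact hR⟩⟩
  obtain ⟨C, hC, hmin⟩ := Finset.exists_min_image _ (fun B => (XX S U a {B}).card) hF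
  obtain ⟨hC1, hC2⟩ := Finset.mem_filter.mp hC
  obtain ⟨p, hp, q, hq, hpn, hqn, hdj, hX, -⟩ := two_kinds h hU ht hC1
  have hcard : (XX S U a {C}).card = (Mp S U a p).card + (Mp S U a q).card := by
    rw [hX, Finset.card_union_of_disjoint hdj]
  have hp0 := hpn.card_pos
  have hq0 := hqn.card_pos
  have key : ∀ w ∈ C, (Mp S U a w).card < (XX S U a {C}).card → ¬ R ⊆ Mp S U a w := by
    intro w hw hlt hsub
    have h3 : 2 ≤ (Mp S U a w).card := le_trans h2 (Finset.card_le_card hsub)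
    obtain ⟨B, hB, hB2⟩ := root_p h hU ht (cps_sub hC1 hw) h3
    have h4 := hmin B (Finset.mem_filter.mpr ⟨hB, by rw [hB2]; exact hsub⟩)
    simp only [hB2] at h4
    omega
  refine ⟨C, hC1, p, hp, q, hq, ?_, ?_, key p hp (by omega), key q hq (by omega)⟩
  · intro w h3 h4
    exact Finset.disjoint_left.mp hdj h3 h4
  · intro w hw
    have h3 := hC2 hw
    rw [hX, Finset.mem_union] at h3
    exact h3

private theorem TTP.ne {U : Finset V} {a : V} (ht : Ti S U a) (h2 : 2 ≤ (nk S U a).card) :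
    (nb S U a).Nonempty := by
  by_contra hne
  rw [Finset.not_nonempty_iff_eq_empty] at hne
  have h1 := ht.2.2
  rw [hne, nc_empty] at h1
  omega

/-- Of three non-neighbours of `a`, exactly two have a common non-neighbour `q`. -/
theorem ti_three (h : HS k S d) {r : ℕ} {U : Finset V} (hU : LS S d r U) {a : V}
    (ht : Ti S U a) {x y z : V} (hx : x ∈ nk S U a) (hy : y ∈ nk S U a) (hz : z ∈ nk S U a)
    (hxy : x ≠ y) (hxz : x ≠ z) (hyz : y ≠ z) :
    ∃ q ∈ nb S U a,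
      (x ∈ Mp S U a q ∧ y ∈ Mp S U a q ∧ z ∉ Mp S U a q) ∨
      (x ∈ Mp S U a q ∧ y ∉ Mp S U a q ∧ z ∈ Mp S U a q) ∨
      (x ∉ Mp S U a q ∧ y ∈ Mp S U a q ∧ z ∈ Mp S U a q) := by
  have hsub : ({x, y, z} : Finset V) ⊆ nk S U a := by
    intro w hw
    rw [Finset.mem_insert, Finset.mem_insert, Finset.mem_singleton] at hw
    rcases hw with rfl | rfl | rfl <;> assumption
  have hc : ({x, y, z} : Finset V).card = 3 := Finset.card_eq_three.mpr
    ⟨x, y, z, hxy, hxz, hyz, rfl⟩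
  have h2 := Finset.card_le_card hsub
  obtain ⟨C, hC, p, hp, q, hq, hd, hm, hn1, hn2⟩ := TTP.min h hU ht (TTP.ne ht (by omega)) hsub
    (by omega)
  have hpN := cps_sub hC hp
  have hqN := cps_sub hC hq
  have hx1 := hm x (by simp)
  have hy1 := hm y (by simp)
  have hz1 := hm z (by simp)
  rcases hx1 with hx1 | hx1 <;> rcases hy1 with hy1 | hy1 <;> rcases hz1 with hz1 | hz1
  · exfalso
    apply hn1
    intro w hw
    rw [Finset.mem_insert, Finset.mem_insert, Finset.mem_singleton] at hw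
    rcases hw with rfl | rfl | rfl <;> assumption
  · exact ⟨p, hpN, Or.inl ⟨hx1, hy1, fun hh => hd z hh hz1⟩⟩
  · exact ⟨p, hpN, Or.inr (Or.inl ⟨hx1, fun hh => hd y hh hy1, hz1⟩)⟩
  · exact ⟨q, hqN, Or.inr (Or.inr ⟨fun hh => hd x hx1 hh, hy1, hz1⟩)⟩
  · exact ⟨p, hpN, Or.inr (Or.inr ⟨fun hh => hd x hh hx1, hy1, hz1⟩)⟩
  · exact ⟨q, hqN, Or.inr (Or.inl ⟨hx1, fun hh => hd y hy1 hh, hz1⟩)⟩
  · exact ⟨q, hqN, Or.inl ⟨hx1, hy1, fun hh => hd z hz1 hh⟩⟩
  · exfalso
    apply hn2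
    intro w hw
    rw [Finset.mem_insert, Finset.mem_insert, Finset.mem_singleton] at hw
    rcases hw with rfl | rfl | rfl <;> assumption

/-- There are twins. -/
theorem ti_cherry (h : HS k S d) {r : ℕ} {U : Finset V} (hU : LS S d r U) {a : V}
    (ht : Ti S U a) (h2 : 2 ≤ (nk S U a).card) :
    ∃ x ∈ nk S U a, ∃ y ∈ nk S U a, x ≠ y ∧
      (∀ q ∈ nb S U a, x ∈ Mp S U a q → y ∉ Mp S U a q → Mp S U a q = {x}) ∧
      (∀ q ∈ nb S U a, y ∈ Mp S U a q → x ∉ Mp S U a q → Mp S U a q = {y}) := by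
  classical
  obtain ⟨n0, hn0⟩ := TTP.ne ht h2
  obtain ⟨A, hA, hmin⟩ := Finset.exists_min_image (cps S (nb S U a))
    (fun B => (XX S U a {B}).card) ⟨_, cp_cps hn0⟩
  obtain ⟨p, hp, q, hq, hpn, hqn, hdj, hX, -⟩ := two_kinds h hU ht hA
  have hcard : (XX S U a {A}).card = (Mp S U a p).card + (Mp S U a q).card := by
    rw [hX, Finset.card_union_of_disjoint hdj]
  have hp0 := hpn.card_pos
  have hq0 := hqn.card_pos
  have key : ∀ w ∈ A, 0 < (Mp S U a w).card → (Mp S U a w).card < (XX S U a {A}).card →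
      (Mp S U a w).card = 1 := by
    intro w hw h0 hlt
    by_contra h1
    obtain ⟨B, hB, hB2⟩ := root_p h hU ht (cps_sub hA hw) (by omega)
    have h4 := hmin B hB
    simp only [hB2] at h4
    omega
  obtain ⟨x, hx⟩ := Finset.card_eq_one.mp (key p hp hp0 (by omega))
  obtain ⟨y, hy⟩ := Finset.card_eq_one.mp (key q hq hq0 (by omega))
  have hxp : x ∈ Mp S U a p := by rw [hx]; exact Finset.mem_singleton_self x
  have hyq : y ∈ Mp S U a q := by rw [hy]; exact Finset.mem_singleton_self y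
  have main : ∀ p ∈ A, ∀ q ∈ A, ∀ x y : V, Mp S U a p = {x} → y ∈ Mp S U a q →
      ∀ w ∈ nb S U a, x ∈ Mp S U a w → y ∉ Mp S U a w → Mp S U a w = {x} := by
    intro p hp q hq x y hx hyq w hw h3 h4
    have hxp : x ∈ Mp S U a p := by rw [hx]; exact Finset.mem_singleton_self x
    have hpN := cps_sub hA hp
    have ecp := cps_cp hA hp
    by_cases hwA : w ∈ A
    · rcases kinds_eq h hU ht hpN (by rw [ecp]; exact hwA) ⟨x, hxp⟩ ⟨x, h3⟩ with h5 | h5
      · rw [← h5, hx]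
      · exact absurd h3 (Finset.disjoint_left.mp h5 hxp)
    · exfalso
      have h5 := lemN h hU ht hw hpN (by rw [ecp]; exact hwA) ⟨x, hxp⟩ (by
        rw [hx]
        intro z hz
        rw [Finset.mem_singleton] at hz
        rw [hz]
        exact h3)
      rw [ecp, mem_Ip] at h5
      obtain ⟨h6, h7⟩ := mem_Mp.mp hyq
      exact h4 (mem_Mp.mpr ⟨h6, h5.2.2 q hq y h6 h7⟩)
  refine ⟨x, (mem_Mp.mp hxp).1, y, (mem_Mp.mp hyq).1, ?_, main p hp q hq x y hx hyq,
    main q hq p hp y x hy hxp⟩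
  rintro rfl
  exact Finset.disjoint_left.mp hdj hxp hyq

private theorem TTP.fac (h : HS k S d) {r : ℕ} {U : Finset V} (hU : LS S d r U) {a : V}
    (ht : Ti S U a) {x p u : V} (hp : p ∈ nb S U a) (hMp : Mp S U a p = {x})
    {C : Finset V} (hC : C ∈ cps S (nb S U a)) (hu : u ∈ C) (hMu : Mp S U a u = {x}) :
    p ∈ C := by
  by_contra hpC
  have huN := cps_sub hC hu
  have hxp : (Mp S U a p).Nonempty := by
    rw [hMp]
    exact Finset.singleton_nonempty x
  have hxu : (Mp S U a u).Nonempty := by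
    rw [hMu]
    exact Finset.singleton_nonempty x
  have h3 : u ∉ cp S (nb S U a) p := by
    intro hh
    have h4 := cp_eq hp hh
    rw [cps_cp hC hu] at h4
    rw [h4] at hpC
    exact hpC (mem_cp_self hp)
  have h5 := lemN h hU ht huN hp h3 hxp (by rw [hMp, hMu])
  have h6 := (ti_ne h hU ht huN hxu).2
  rw [hMu, Finset.card_singleton] at h6
  have h7 := Finset.card_pos.mpr ⟨_, h5⟩
  omega

private theorem TTP.four (h : HS k S d) {r : ℕ} {U : Finset V} (hU : LS S d r U) {a : V}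
    (ht : Ti S U a) {x y : V} (hxy : x ≠ y)
    (h1 : ∀ q ∈ nb S U a, x ∈ Mp S U a q → y ∉ Mp S U a q → Mp S U a q = {x})
    (h2 : ∀ q ∈ nb S U a, y ∈ Mp S U a q → x ∉ Mp S U a q → Mp S U a q = {y})
    {p q : V} (hp : p ∈ nb S U a) (hq : q ∈ nb S U a) (hpq : p ≠ q)
    (hpq2 : ({p, q} : Finset V) ∈ S) (hMp : Mp S U a p = {x}) (hMq : Mp S U a q = {y})
    {C : Finset V} (hC : C ∈ cps S (nb S U a)) {u v : V} (hu : u ∈ C) (hv : v ∈ C)
    (hxu : x ∈ Mp S U a u) (hyv : y ∈ Mp S U a v) (hyu : y ∉ Mp S U a u)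
    (hxv : x ∉ Mp S U a v) : False := by
  have hpC := TTP.fac h hU ht hp hMp hC hu (h1 u (cps_sub hC hu) hxu hyu)
  have hqC := TTP.fac h hU ht hq hMq hC hv (h2 v (cps_sub hC hv) hyv hxv)
  have h3 : q ∈ cp S (nb S U a) p := by
    rw [cps_cp hC hpC]
    exact hqC
  have h4 := ti_adj h hU ht hp h3 hpq hpq2 (by rw [hMp]; exact Finset.singleton_nonempty x)
  rw [hMp, hMq, Finset.singleton_subset_iff, Finset.mem_singleton] at h4
  exact hxy h4.symm

/-- Twins are not separated by an edge. -/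
theorem ti_four (h : HS k S d) {r : ℕ} {U : Finset V} (hU : LS S d r U) {a : V}
    (ht : Ti S U a) {x y : V} (hx : x ∈ nk S U a) (hy : y ∈ nk S U a) (hxy : x ≠ y)
    (h1 : ∀ q ∈ nb S U a, x ∈ Mp S U a q → y ∉ Mp S U a q → Mp S U a q = {x})
    (h2 : ∀ q ∈ nb S U a, y ∈ Mp S U a q → x ∉ Mp S U a q → Mp S U a q = {y})
    {p q : V} (hp : p ∈ nb S U a) (hq : q ∈ nb S U a) (hpq : p ≠ q)
    (hpq2 : ({p, q} : Finset V) ∈ S) (hMp : Mp S U a p = {x}) (hMq : Mp S U a q = {y}) :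
    False := by
  have hsub : ({x, y} : Finset V) ⊆ nk S U a := by
    intro w hw
    rw [Finset.mem_insert, Finset.mem_singleton] at hw
    rcases hw with rfl | rfl <;> assumption
  have hc : ({x, y} : Finset V).card = 2 := Finset.card_pair hxy
  have h2' := Finset.card_le_card hsub
  obtain ⟨C, hC, u, hu, v, hv, hd, hm, hn1, hn2⟩ := TTP.min h hU ht (TTP.ne ht (by omega)) hsub
    (by omega)
  have hx1 := hm x (by simp)
  have hy1 := hm y (by simp)
  rcases hx1 with hx1 | hx1 <;> rcases hy1 with hy1 | hy1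
  · apply hn1
    intro w hw
    rw [Finset.mem_insert, Finset.mem_singleton] at hw
    rcases hw with rfl | rfl <;> assumption
  · exact TTP.four h hU ht hxy h1 h2 hp hq hpq hpq2 hMp hMq hC hu hv hx1 hy1
      (fun hh => hd y hh hy1) (fun hh => hd x hx1 hh)
  · exact TTP.four h hU ht hxy h1 h2 hp hq hpq hpq2 hMp hMq hC hv hu hx1 hy1
      (fun hh => hd y hy1 hh) (fun hh => hd x hh hx1)
  · apply hn2
    intro w hw
    rw [Finset.mem_insert, Finset.mem_singleton] at hw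
    rcases hw with rfl | rfl <;> assumption

end Pool.Agent.MP19e880.TT
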