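import Pool.Agent.Lib.MP_19e880_co_TT.TTS
import Pool.Agent.Lib.MP_19e880_co_TT.TTP

/-!
A sphere without contractible edges has no tight vertex.
-/

set_option autoImplicit false
set_option linter.unusedSectionVars false

namespace Pool.Agent.MP19e880.TT

variable {V : Type} [Fintype V] [LinearOrder V] {k : Type} [Field k]
  {S : Finset (Finset V)} {d : ℕ}

theorem ci_not_ti (h : HS k S d) {r : ℕ} {U : Finset V} (hU : LS S d r U) (hr : 2 ≤ r)
    (hCI : CI S U) {a : V} (ht : Ti S U a) : False := by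
  obtain ⟨s, hs, hN⟩ := LS.nb h hU ht.1
  have hne : (nb S U a).Nonempty := by
    rw [Finset.nonempty_iff_ne_empty]
    intro h0
    have h1 := (LS.zero h hN).mp h0
    omega
  obtain ⟨w, hw⟩ := hne
  have hnc : 1 ≤ nc S (nb S U a) := by
    unfold nc
    exact Finset.card_pos.mpr ⟨cp S (nb S U a) w, mem_cps.mpr ⟨w, hw, rfl⟩⟩
  have h2 : 2 ≤ (nk S U a).card := by
    have h3 := ht.2.2
    omega
  obtain ⟨x, hx, y, hy, hxy, t1, t2⟩ := ti_cherry h hU ht h2
  have hxyS : ({x, y} : Finset V) ∈ S := ti_simplex h r U a hU ht x hx y hy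
  have hx' := mem_nk.mp hx
  have hy' := mem_nk.mp hy
  have hno := hCI x hx'.1 y hy'.1 hxy hxyS
  unfold NoSqU at hno
  push Not at hno
  obtain ⟨p, hpU, q, hqU, hxp, hyq, hpq, hyp, hxq⟩ := hno
  have hpN : p ∈ nb S U a := by
    rw [mem_nb]
    refine ⟨hpU, ?_, ?_⟩
    · intro hpa
      rw [hpa] at hxp
      exact hx'.2 hxp
    · by_contra hcon
      exact hyp (ti_simplex h r U a hU ht y hy p (mem_nk.mpr ⟨hpU, hcon⟩))
  have hqN : q ∈ nb S U a := by
    rw [mem_nb]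
    refine ⟨hqU, ?_, ?_⟩
    · intro hqa
      rw [hqa] at hyq
      exact hy'.2 hyq
    · by_contra hcon
      exact hxq (ti_simplex h r U a hU ht x hx q (mem_nk.mpr ⟨hqU, hcon⟩))
  have hMp : Mp S U a p = {y} :=
    t2 p hpN (mem_Mp.mpr ⟨hy, hyp⟩) (fun hh => (mem_Mp.mp hh).2 hxp)
  have hMq : Mp S U a q = {x} :=
    t1 q hqN (mem_Mp.mpr ⟨hx, hxq⟩) (fun hh => (mem_Mp.mp hh).2 hyq)
  have hqp : q ≠ p := by
    intro hh
    rw [hh] at hyq
    exact hyp hyq
  have hqpS : ({q, p} : Finset V) ∈ S := by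
    rw [Finset.pair_comm]
    exact hpq
  exact ti_four h hU ht hx hy hxy t1 t2 hqN hpN hqp hqpS hMq hMp

end Pool.Agent.MP19e880.TT
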