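import Pool.Agent.Lib.MP_19e880_co_TT.Defs

/-!
Join factors: basic facts.
-/

set_option autoImplicit false
set_option linter.unusedSectionVars false

namespace Pool.Agent.MP19e880.TT

variable {V : Type} [Fintype V] [LinearOrder V] {k : Type} [Field k]
  {S : Finset (Finset V)} {d : ℕ}

theorem cps_cld {U A : Finset V} (hA : A ∈ cps S U) : Cld S U A := by
  obtain ⟨x, _, rfl⟩ := mem_cps.mp hA
  exact cp_cld S U x

theorem cps_sub {U A : Finset V} (hA : A ∈ cps S U) : A ⊆ U := (cps_cld hA).1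

theorem cps_con {U A : Finset V} (hA : A ∈ cps S U) : Con S A := by
  obtain ⟨x, hx, rfl⟩ := mem_cps.mp hA
  exact cp_con hx

theorem cps_ne {U A : Finset V} (hA : A ∈ cps S U) : A.Nonempty := by
  obtain ⟨x, hx, rfl⟩ := mem_cps.mp hA
  exact ⟨x, mem_cp_self hx⟩

theorem cps_of {U A : Finset V} (h1 : Cld S U A) (h2 : Con S A) (h3 : A.Nonempty) :
    A ∈ cps S U := by
  obtain ⟨a, ha⟩ := h3
  exact mem_cps.mpr ⟨a, h1.1 ha, cp_unique h1 h2 ha⟩

theorem cp_cps {U : Finset V} {x : V} (hx : x ∈ U) : cp S U x ∈ cps S U :=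
  mem_cps.mpr ⟨x, hx, rfl⟩

theorem cps_disj {U A B : Finset V} (hA : A ∈ cps S U) (hB : B ∈ cps S U) (hAB : A ≠ B) :
    Disjoint A B := by
  obtain ⟨a, ha, rfl⟩ := mem_cps.mp hA
  obtain ⟨b, hb, rfl⟩ := mem_cps.mp hB
  by_cases h : a ∈ cp S U b
  · exact absurd (cp_eq hb h) hAB
  · exact cp_disj hb ha h

theorem cps_cp {U A : Finset V} (hA : A ∈ cps S U) {x : V} (hx : x ∈ A) : cp S U x = A := by
  obtain ⟨a, ha, rfl⟩ := mem_cps.mp hA
  exact cp_eq ha hx

theorem cps_adj {U A : Finset V} (hA : A ∈ cps S U) {a b : V} (ha : a ∈ A) (hb : b ∈ U)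
    (hbA : b ∉ A) : ({a, b} : Finset V) ∈ S :=
  (cps_cld hA).2 a ha b (Finset.mem_sdiff.mpr ⟨hb, hbA⟩)

theorem nc_empty : nc S ∅ = 0 := by
  unfold nc cps
  rw [Finset.image_empty, Finset.card_empty]

theorem nc_pos {U : Finset V} (hU : U.Nonempty) : 1 ≤ nc S U := by
  obtain ⟨x, hx⟩ := hU
  exact Finset.card_pos.mpr ⟨_, cp_cps hx⟩

theorem cps_one {U : Finset V} (hc : Con S U) (hU : U.Nonempty) : cps S U = {U} := by
  have hcl : Cld S U U := ⟨Finset.Subset.refl _, fun x _ z hz => by simp at hz⟩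
  ext A
  rw [Finset.mem_singleton]
  constructor
  · intro hA
    obtain ⟨a, ha, rfl⟩ := mem_cps.mp hA
    exact cp_unique hcl hc ha
  · rintro rfl
    exact cps_of hcl hc hU

theorem nc_one {U : Finset V} (hc : Con S U) (hU : U.Nonempty) : nc S U = 1 := by
  unfold nc
  rw [cps_one hc hU, Finset.card_singleton]

theorem con_of_nc {U : Finset V} (h1 : nc S U = 1) : Con S U := by
  obtain ⟨A, hA⟩ := Finset.card_eq_one.mp h1
  have hmem : A ∈ cps S U := by rw [hA]; exact Finset.mem_singleton_self _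
  have hUA : U = A := by
    refine Finset.Subset.antisymm ?_ (cps_sub hmem)
    intro y hy
    have h2 : cp S U y ∈ cps S U := cp_cps hy
    rw [hA, Finset.mem_singleton] at h2
    rw [← h2]
    exact mem_cp_self hy
  rw [hUA]
  exact cps_con hmem

theorem cps_union {U W : Finset V} (hW : Cld S U W) : cps S U = cps S W ∪ cps S (U \ W) := by
  ext A
  rw [Finset.mem_union, mem_cps, mem_cps, mem_cps]
  constructor
  · rintro ⟨x, hx, rfl⟩
    by_cases hxW : x ∈ W
    · exact Or.inl ⟨x, hxW, cp_restrict hW hxW⟩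
    · have h2 : x ∈ U \ W := Finset.mem_sdiff.mpr ⟨hx, hxW⟩
      exact Or.inr ⟨x, h2, cp_restrict hW.sdiff h2⟩
  · rintro (⟨x, hx, rfl⟩ | ⟨x, hx, rfl⟩)
    · exact ⟨x, hW.1 hx, (cp_restrict hW hx).symm⟩
    · exact ⟨x, (Finset.mem_sdiff.mp hx).1, (cp_restrict hW.sdiff hx).symm⟩

theorem cps_union_disj {U W : Finset V} : Disjoint (cps S W) (cps S (U \ W)) := by
  rw [Finset.disjoint_left]
  intro A h1 h2
  obtain ⟨x, hx⟩ := cps_ne h1
  exact (Finset.mem_sdiff.mp (cps_sub h2 hx)).2 (cps_sub h1 hx)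

theorem nc_cld {U W : Finset V} (hW : Cld S U W) : nc S U = nc S W + nc S (U \ W) := by
  unfold nc
  rw [cps_union hW, Finset.card_union_of_disjoint cps_union_disj]

theorem con_sub_cps {U D : Finset V} (hD : D ⊆ U) (hc : Con S D) (hne : D.Nonempty) :
    ∃ A ∈ cps S U, D ⊆ A := by
  obtain ⟨a, ha⟩ := hne
  exact ⟨cp S U a, cp_cps (hD ha), con_sub_cp hc hD ha⟩

/-- If `U` is not connected in the complement of the graph, each component is proper. -/
theorem cp_ne {U : Finset V} (hc : ¬ Con S U) {x : V} (hx : x ∈ U) : cp S U x ≠ U := by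
  intro h
  apply hc
  have h2 := cp_con (S := S) hx
  rw [h] at h2
  exact h2

end Pool.Agent.MP19e880.TT
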