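import Pool.Agent.Lib.MP_19e880_co_TT.ApiB
import Pool.Agent.Lib.MP_19e880_co_TT.CpsA

/-!
A cut set all of whose members have the same neighbours.
-/

set_option autoImplicit false
set_option linter.unusedSectionVars false

namespace Pool.Agent.MP19e880.TT

variable {V : Type} [Fintype V] [LinearOrder V] {k : Type} [Field k]
  {S : Finset (Finset V)} {d : ℕ}

/-- Each component of the complement of the cut set has a member with no neighbour in the cut
set. -/
private theorem CaseB.ex {U R : Finset V} (hc : Con S U) (hR : R ⊆ U) (hRn : R.Nonempty)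
    (hd : ∀ p ∈ U \ R, (∀ x ∈ R, ({x, p} : Finset V) ∈ S) ∨
      (∀ x ∈ R, ({x, p} : Finset V) ∉ S)) {D : Finset V} (hD : D ∈ cps S (U \ R)) :
    ∃ p ∈ D, ∀ x ∈ R, ({x, p} : Finset V) ∉ S := by
  by_contra hcon
  push Not at hcon
  have hDW := cps_sub hD
  have hall : ∀ p ∈ D, ∀ x ∈ R, ({x, p} : Finset V) ∈ S := by
    intro p hp
    rcases hd p (hDW hp) with h1 | h1
    · exact h1
    · obtain ⟨x, hx, hxp⟩ := hcon p hp
      exact absurd hxp (h1 x hx)
  obtain ⟨a, ha, b, hb, hab⟩ := hc D (hDW.trans Finset.sdiff_subset) (cps_ne hD) (by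
    intro he
    obtain ⟨x, hx⟩ := hRn
    have hxD : x ∈ D := by
      rw [he]
      exact hR hx
    exact (Finset.mem_sdiff.mp (hDW hxD)).2 hx)
  rw [Finset.mem_sdiff] at hb
  by_cases hbR : b ∈ R
  · exact hab (pair_symm (hall a ha b hbR))
  · exact hab (cps_adj hD ha (Finset.mem_sdiff.mpr ⟨hb.1, hbR⟩) hb.2)

theorem caseB (h : HS k S d) {r : ℕ} {U R : Finset V} (hU : LS S d r U) (hc : Con S U)
    (hR : R ⊆ U) (hRn : R.Nonempty) (h2 : 2 ≤ nc S (U \ R))
    (hd : ∀ p ∈ U \ R, (∀ x ∈ R, ({x, p} : Finset V) ∈ S) ∨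
      (∀ x ∈ R, ({x, p} : Finset V) ∉ S)) : False := by
  classical
  have hE := eul_of_hs h
  have hex := fun D (hD : D ∈ cps S (U \ R)) => CaseB.ex hc hR hRn hd hD
  -- a facet containing a vertex without neighbours in `R` lies in the complement of `R`
  have hout : ∀ G : Finset V, G ⊆ U → G ∈ S → ∀ p ∈ G, (∀ x ∈ R, ({x, p} : Finset V) ∉ S) →
      G ⊆ U \ R := by
    intro G hG hGS p hp hpR x hx
    rw [Finset.mem_sdiff]
    exact ⟨hG hx, fun hxR => hpR x hxR (pair_mem hE G hGS x p hx hp)⟩
  have hncs : (cps S (U \ R)).card = nc S (U \ R) := rfl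
  -- a first facet
  obtain ⟨D0, hD0⟩ : (cps S (U \ R)).Nonempty := by
    rw [← Finset.card_pos]
    omega
  obtain ⟨p0, hp0, hp0R⟩ := hex D0 hD0
  have hp0U : p0 ∈ U := (Finset.mem_sdiff.mp (cps_sub hD0 hp0)).1
  have hp0S : ({p0} : Finset V) ∈ S := by
    have h1 := LS.self h hU hp0U
    rwa [Finset.pair_eq_singleton] at h1
  obtain ⟨F0, hF1, hF2, hF3, hF4⟩ := LS.facet h hU (Finset.singleton_subset_iff.mpr hp0U) hp0S
  have hF0W := hout F0 hF2 hF3 p0 (hF1 (Finset.mem_singleton_self _)) hp0R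
  have hWU : U \ R ⊆ U := Finset.sdiff_subset
  have hfull := LS.full h hU hWU hF0W hF3 hF4 (by
    intro Q u u' huQ hu'Q huu' hQW hFS hFc hu'U hF'S
    rw [Finset.mem_sdiff]
    refine ⟨hu'U, fun hu'R => ?_⟩
    have huW : u ∈ U \ R := hQW (Finset.mem_insert_self _ _)
    have hQW' : Q ⊆ U \ R := (Finset.subset_insert _ _).trans hQW
    -- another component
    obtain ⟨D1, hD1, hD1ne⟩ : ∃ D1 ∈ cps S (U \ R), D1 ≠ cp S (U \ R) u := by
      by_contra hcon
      push Not at hcon
      have h3 : cps S (U \ R) ⊆ {cp S (U \ R) u} := by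
        intro D hD
        rw [Finset.mem_singleton]
        exact hcon D hD
      have h4 := Finset.card_le_card h3
      rw [Finset.card_singleton] at h4
      omega
    have huD1 : u ∉ D1 := by
      intro hu1
      exact hD1ne (cps_cp hD1 hu1).symm
    obtain ⟨p1, hp1, hp1R⟩ := hex D1 hD1
    have hD1W := cps_sub hD1
    have hp1U : p1 ∈ U := (Finset.mem_sdiff.mp (hD1W hp1)).1
    -- `E0`
    have hE0 : insert p1 (insert u Q \ D1) ∈ S := by
      apply h.flag
      have key : ∀ a ∈ insert u Q \ D1, ({p1, a} : Finset V) ∈ S := by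
        intro a ha
        rw [Finset.mem_sdiff] at ha
        exact cps_adj hD1 hp1 (hQW ha.1) ha.2
      intro a ha b hb
      rw [Finset.mem_insert] at ha hb
      rcases ha with rfl | ha <;> rcases hb with rfl | hb
      · exact LS.self h hU hp1U
      · exact key b hb
      · exact pair_symm (key a ha)
      · exact pair_mem hE _ hFS a b (Finset.mem_sdiff.mp ha).1 (Finset.mem_sdiff.mp hb).1
    have hE0U : insert p1 (insert u Q \ D1) ⊆ U :=
      Finset.insert_subset hp1U ((Finset.sdiff_subset.trans hQW).trans hWU)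
    obtain ⟨G, hG1, hG2, hG3, hG4⟩ := LS.facet h hU hE0U hE0
    have hp1G : p1 ∈ G := hG1 (Finset.mem_insert_self _ _)
    have hGW := hout G hG2 hG3 p1 hp1G hp1R
    -- glue
    have hglue : (G \ D1) ∪ (insert u Q ∩ D1) ∈ S := by
      apply h.flag
      have key : ∀ a ∈ G \ D1, ∀ b ∈ insert u Q ∩ D1, ({b, a} : Finset V) ∈ S := by
        intro a ha b hb
        rw [Finset.mem_sdiff] at ha
        rw [Finset.mem_inter] at hb
        exact cps_adj hD1 hb.2 (hGW ha.1) ha.2
      intro a ha b hb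
      rw [Finset.mem_union] at ha hb
      rcases ha with ha | ha <;> rcases hb with hb | hb
      · exact pair_mem hE _ hG3 a b (Finset.mem_sdiff.mp ha).1 (Finset.mem_sdiff.mp hb).1
      · exact pair_symm (key a ha b hb)
      · exact key b hb a ha
      · exact pair_mem hE _ hFS a b (Finset.mem_inter.mp ha).1 (Finset.mem_inter.mp hb).1
    have hglU : (G \ D1) ∪ (insert u Q ∩ D1) ⊆ U :=
      Finset.union_subset (Finset.sdiff_subset.trans hG2)
        ((Finset.inter_subset_left.trans hQW).trans hWU)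
    have hle := LS.face h hU hglU hglue
    have hdis : Disjoint (G \ D1) (insert u Q ∩ D1) := by
      rw [Finset.disjoint_left]
      intro x hx hx'
      exact (Finset.mem_sdiff.mp hx).2 (Finset.mem_inter.mp hx').2
    rw [Finset.card_union_of_disjoint hdis] at hle
    have hcard := Finset.card_sdiff_add_card_inter (insert u Q) D1
    have hsub : insert u Q \ D1 ⊆ G \ D1 := by
      intro x hx
      rw [Finset.mem_sdiff]
      exact ⟨hG1 (Finset.mem_insert_of_mem hx), (Finset.mem_sdiff.mp hx).2⟩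
    have heq : insert u Q \ D1 = G \ D1 := Finset.eq_of_subset_of_card_le hsub (by omega)
    have huG : u ∈ G := hG1 (Finset.mem_insert_of_mem
      (Finset.mem_sdiff.mpr ⟨Finset.mem_insert_self _ _, huD1⟩))
    obtain ⟨y, hyU, hyG, hyS, hyu⟩ := LS.flip h hU hG2 hG3 hG4 huG
    have hp1u : p1 ≠ u := by
      rintro rfl
      exact huD1 hp1
    have hyp1 : ({y, p1} : Finset V) ∈ S := pair_mem hE _ hyS y p1 (Finset.mem_insert_self _ _)
      (Finset.mem_insert_of_mem (Finset.mem_erase.mpr ⟨hp1u, hp1G⟩))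
    have hyR : y ∉ R := fun h' => hp1R y h' hyp1
    have hyW : y ∈ U \ R := Finset.mem_sdiff.mpr ⟨hyU, hyR⟩
    have hyD1 : y ∉ D1 := fun h' => hyu (cps_adj hD1 h' huW huD1)
    have hyQa : ∀ q ∈ Q, ({y, q} : Finset V) ∈ S := by
      intro q hq
      by_cases hqD : q ∈ D1
      · exact pair_symm (cps_adj hD1 hqD hyW hyD1)
      · have hqG : q ∈ G := hG1 (Finset.mem_insert_of_mem
          (Finset.mem_sdiff.mpr ⟨Finset.mem_insert_of_mem hq, hqD⟩))
        have hqu : q ≠ u := by
          rintro rfl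
          exact huQ hq
        exact pair_mem hE _ hyS y q (Finset.mem_insert_self _ _)
          (Finset.mem_insert_of_mem (Finset.mem_erase.mpr ⟨hqu, hqG⟩))
    have hyu' : y ≠ u := by
      rintro rfl
      exact hyG huG
    have hyu'' : y ≠ u' := by
      rintro rfl
      exact hyR hu'R
    have hyQ : y ∉ Q := by
      intro hq
      exact hyu (pair_symm (pair_mem hE _ hFS u y (Finset.mem_insert_self _ _)
        (Finset.mem_insert_of_mem hq)))
    have hyQS : insert y Q ∈ S := by
      apply h.flag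
      intro a ha b hb
      rw [Finset.mem_insert] at ha hb
      rcases ha with rfl | ha <;> rcases hb with rfl | hb
      · exact LS.self h hU hyU
      · exact hyQa b hb
      · exact pair_symm (hyQa a ha)
      · exact pair_mem hE _ hFS a b (Finset.mem_insert_of_mem ha) (Finset.mem_insert_of_mem hb)
    have hQc : Q.card + 1 = r := by
      rw [Finset.card_insert_of_notMem huQ] at hFc
      exact hFc
    exact LS.three h hU (hQW'.trans hWU) hQc (hWU huW) hu'U hyU huQ hu'Q hyQ hFS hF'S hyQS huu'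
      hyu'.symm hyu''.symm)
  obtain ⟨x, hx⟩ := hRn
  have hxU := hR hx
  rw [← hfull, Finset.mem_sdiff] at hxU
  exact hxU.2 hx

end Pool.Agent.MP19e880.TT
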