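import Pool.Agent.Lib.MP_19e880_co_TT.ClsA

/-!
The contraction of an edge: excess and class.
-/

set_option autoImplicit false
set_option linter.unusedSectionVars false

namespace Pool.Agent.MP19e880.TT

variable {V : Type} [Fintype V] [LinearOrder V] {k : Type} [Field k]
  {S : Finset (Finset V)} {d : ℕ}

/-- Adjacency of vertices other than `x` and `y` is not changed by the contraction. -/
private theorem ConE.pair (h : HS k S d) {x y : V} (hxy : x ≠ y) {a b : V} (hax : a ≠ x)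
    (hay : a ≠ y) (hbx : b ≠ x) (hby : b ≠ y) :
    ({a, b} : Finset V) ∈ W1.con S x y ↔ ({a, b} : Finset V) ∈ S := by
  rw [W1.CtrcAux.mem_con h.down hxy]
  have h1 : y ∉ ({a, b} : Finset V) := by
    rw [Finset.mem_insert, Finset.mem_singleton, not_or]
    exact ⟨hay.symm, hby.symm⟩
  have h2 : x ∉ ({a, b} : Finset V) := by
    rw [Finset.mem_insert, Finset.mem_singleton, not_or]
    exact ⟨hax.symm, hbx.symm⟩
  constructor
  · rintro ⟨_, h3 | ⟨h3, _⟩⟩
    · exact h3
    · exact absurd h3 h2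
  · intro h3
    exact ⟨h1, Or.inl h3⟩

/-- Members of a join factor of the contraction, other than `x`. -/
private theorem ConE.ex (h : HS k S d) {x y : V} (hxy : x ≠ y)
    (hS : ({x, y} : Finset V) ∈ S) (hq : W1.NoSq S x y) {C : Finset V}
    (hC : C ∈ cps (W1.con S x y) (lv (W1.con S x y) ∅)) : ∃ z ∈ C, z ≠ x := by
  have h' := W1.hs_con h x y hxy hS hq
  have hU' := LS.top h'
  by_contra hcon
  push Not at hcon
  obtain ⟨z, hz⟩ := cps_ne hC
  have hzx := hcon z hz
  subst hzx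
  have hzU := cps_sub hC hz
  obtain ⟨w, hw⟩ := LS.nk_ne h' hU' hzU
  rw [mem_nk] at hw
  have hwC : w ∈ C := by
    by_contra hwC
    exact hw.2 (pair_symm (cps_adj hC hz hw.1 hwC))
  have hwz := hcon w hwC
  subst hwz
  exact hw.2 (LS.self h' hU' hzU)

private theorem ConE.nc_le (h : HS k S d) {x y : V} (hxy : x ≠ y)
    (hS : ({x, y} : Finset V) ∈ S) (hq : W1.NoSq S x y) :
    nc (W1.con S x y) (lv (W1.con S x y) ∅) ≤ nc S (lv S ∅ \ {x, y}) := by
  classical
  have hlv := W1.lv_con h.down x y hxy hS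
  have hex : ∀ C : Finset V, C ∈ cps (W1.con S x y) (lv (W1.con S x y) ∅) →
      ∃ z : V, z ∈ C ∧ z ≠ x := by
    intro C hC
    obtain ⟨z, hz, hzx⟩ := ConE.ex h hxy hS hq hC
    exact ⟨z, hz, hzx⟩
  haveI : Nonempty V := ⟨x⟩
  choose! f hf using hex
  have hmem : ∀ C ∈ cps (W1.con S x y) (lv (W1.con S x y) ∅), f C ∈ lv S ∅ \ {x, y} := by
    intro C hC
    have h1 := cps_sub hC (hf C hC).1
    rw [hlv, Finset.mem_erase] at h1
    rw [Finset.mem_sdiff, Finset.mem_insert, Finset.mem_singleton, not_or]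
    exact ⟨h1.2, (hf C hC).2, h1.1⟩
  have hsub : ∀ C ∈ cps (W1.con S x y) (lv (W1.con S x y) ∅),
      cp S (lv S ∅ \ {x, y}) (f C) ⊆ C := by
    intro C hC
    have hD := cp_con (S := S) (hmem C hC)
    have hDs : cp S (lv S ∅ \ {x, y}) (f C) ⊆ lv S ∅ \ {x, y} := cp_sub
    have hfD : f C ∈ cp S (lv S ∅ \ {x, y}) (f C) := mem_cp_self (hmem C hC)
    have hDU : cp S (lv S ∅ \ {x, y}) (f C) ⊆ lv (W1.con S x y) ∅ := by
      intro z hz
      have h1 := hDs hz
      rw [Finset.mem_sdiff, Finset.mem_insert, Finset.mem_singleton, not_or] at h1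
      rw [hlv, Finset.mem_erase]
      exact ⟨h1.2.2, h1.1⟩
    have hD' : Con (W1.con S x y) (cp S (lv S ∅ \ {x, y}) (f C)) := by
      intro A hA hne hne2
      obtain ⟨a, ha, b, hb, hab⟩ := hD A hA hne hne2
      have h1 := hDs (hA ha)
      have h2 := hDs (Finset.mem_sdiff.mp hb).1
      rw [Finset.mem_sdiff, Finset.mem_insert, Finset.mem_singleton, not_or] at h1 h2
      refine ⟨a, ha, b, hb, ?_⟩
      rw [ConE.pair h hxy h1.2.1 h1.2.2 h2.2.1 h2.2.2]
      exact hab
    have h3 := con_sub_cp hD' hDU hfD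
    rwa [cps_cp hC (hf C hC).1] at h3
  unfold nc
  refine Finset.card_le_card_of_injOn (fun C => cp S (lv S ∅ \ {x, y}) (f C)) ?_ ?_
  · intro C hC
    exact cp_cps (hmem C hC)
  · intro C hC D hD hCD
    have hC' : C ∈ cps (W1.con S x y) (lv (W1.con S x y) ∅) := hC
    have hD' : D ∈ cps (W1.con S x y) (lv (W1.con S x y) ∅) := hD
    have hCD' : cp S (lv S ∅ \ {x, y}) (f C) = cp S (lv S ∅ \ {x, y}) (f D) := hCD
    by_contra hne
    have h1 : f C ∈ cp S (lv S ∅ \ {x, y}) (f C) := mem_cp_self (hmem C hC')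
    have h2 : f C ∈ D := by
      rw [hCD'] at h1
      exact hsub D hD' h1
    exact Finset.disjoint_left.mp (cps_disj hC' hD' hne) (hf C hC').1 h2

theorem con_exc (h : HS k S d) (hc : Con S (lv S ∅)) {x y : V} (hxy : x ≠ y)
    (hS : ({x, y} : Finset V) ∈ S) (hq : W1.NoSq S x y) :
    exc (W1.con S x y) d (lv (W1.con S x y) ∅) ≤ exc S d (lv S ∅) := by
  have hE := eul_of_hs h
  have hlv := W1.lv_con h.down x y hxy hS
  have hmemS : ∀ z ∈ ({x, y} : Finset V), z ∈ lv S ∅ := by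
    intro z hz
    rw [mem_lv]
    refine ⟨Finset.notMem_empty z, h.down _ hS _ ?_⟩
    intro w hw
    rw [insert_empty_eq, Finset.mem_singleton] at hw
    rw [hw]
    exact hz
  have hx : x ∈ lv S ∅ := hmemS x (Finset.mem_insert_self _ _)
  have hy : y ∈ lv S ∅ := hmemS y (Finset.mem_insert_of_mem (Finset.mem_singleton_self _))
  have h1 := ConE.nc_le h hxy hS hq
  have h2 := tough_con h (LS.top h) hc (R := {x, y}) hmemS ⟨x, Finset.mem_insert_self _ _⟩
  rw [Finset.card_pair hxy] at h2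
  have h3 := nc_one hc ⟨x, hx⟩
  have h4 : (lv (W1.con S x y) ∅).card + 1 = (lv S ∅).card := by
    rw [hlv]
    exact Finset.card_erase_add_one hy
  unfold exc
  rw [h3]
  omega

theorem noSq_of (h : HS k S d) {x y : V} (hq : NoSqU S (lv S ∅) x y) : W1.NoSq S x y := by
  intro s t hs ht hst
  have key : ∀ a b : V, ({a, b} : Finset V) ∈ S → b ∈ lv S ∅ := by
    intro a b hab
    rw [mem_lv]
    refine ⟨Finset.notMem_empty b, h.down _ hab _ ?_⟩
    intro w hw
    rw [insert_empty_eq, Finset.mem_singleton] at hw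
    rw [hw]
    exact Finset.mem_insert_of_mem (Finset.mem_singleton_self _)
  exact hq s (key x s hs) t (key y t ht) hs ht hst

theorem cls_con (h : HS k S d) {c : ℕ} (hd : 6 ≤ d) (hc : Con S (lv S ∅)) {x y : V}
    (hxy : x ≠ y) (hS : ({x, y} : Finset V) ∈ S) (hq : W1.NoSq S x y)
    (hC : Cls S d c (lv S ∅)) : Cls (W1.con S x y) d c (lv (W1.con S x y) ∅) := by
  have h1 := exc_of_cls h (LS.top h) hc hd hC
  have h2 := con_exc h hc hxy hS hq
  have h' := W1.hs_con h x y hxy hS hq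
  exact cls_of_exc h' (LS.top h') (h2.trans h1)

end Pool.Agent.MP19e880.TT
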