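import Pool.Agent.Lib.MP_19e880_co_LB.Cmp
import Pool.Agent.Lib.MP_19e880_co_LB.Sep
import Pool.Agent.Lib.MP_19e880_co.Main
import Pool.Agent.Lib.MP_19e880_co_W1.CtrC
import Pool.Agent.Lib.MP_19e880_co_W1.HsLk

/-!
Tight vertices of flag homology spheres: the definitions.

`S` is a flag homology sphere, given as a family of finite sets. Two vertices `x`, `y` are
adjacent if `{x, y} ∈ S`. The link of a face is determined by its vertex set, so the proofs work
with the vertex sets `U` of links (`LS S d r U`: `U` is the vertex set of the link of a face, and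
this link is a sphere of rank `r`, i.e. of dimension `r - 1`). The link of the vertex `p` in `U` is
`nb S U p`. The join factors of `U` are its components in the complement of the graph (`cps S U`,
their number is `nc S U`).
-/

set_option autoImplicit false
set_option linter.unusedSectionVars false

namespace Pool.Agent.MP19e880.TT

variable {V : Type} [Fintype V] [LinearOrder V]

/-- `U` is the vertex set of the link of a face, and this link has rank `r`. -/
def LS (S : Finset (Finset V)) (d r : ℕ) (U : Finset V) : Prop :=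
  ∃ σ ∈ S, σ.card + r = d ∧ lv S σ = U

/-- The neighbours of `p` in `U`. -/
def nb (S : Finset (Finset V)) (U : Finset V) (p : V) : Finset V :=
  U.filter (fun x => x ≠ p ∧ ({x, p} : Finset V) ∈ S)

/-- The non-neighbours of `p` in `U`. -/
def nk (S : Finset (Finset V)) (U : Finset V) (p : V) : Finset V :=
  U.filter (fun x => ({x, p} : Finset V) ∉ S)

/-- The join factors (vertex sets) of `U`. -/
noncomputable def cps (S : Finset (Finset V)) (U : Finset V) : Finset (Finset V) :=
  U.image (cp S U)

/-- The number of join factors of `U`. -/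
noncomputable def nc (S : Finset (Finset V)) (U : Finset V) : ℕ := (cps S U).card

/-- The excess of `U` (of rank `r`). -/
noncomputable def exc (S : Finset (Finset V)) (r : ℕ) (U : Finset V) : ℤ :=
  (U.card : ℤ) - 3 * r + nc S U

/-- The non-neighbours of `a` which have a non-neighbour in a member of `I`. -/
def XX (S : Finset (Finset V)) (U : Finset V) (a : V) (I : Finset (Finset V)) : Finset V :=
  (nk S U a).filter (fun x => ∃ A ∈ I, ∃ y ∈ A, ({x, y} : Finset V) ∉ S)

/-- The common non-neighbours of `a` and `p`. -/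
def Mp (S : Finset (Finset V)) (U : Finset V) (a p : V) : Finset V :=
  (nk S U a).filter (fun x => ({x, p} : Finset V) ∉ S)

open Classical in
/-- The join factors `A` of the link of `a`, not containing `p`, whose non-neighbours in
`nk S U a` are all non-neighbours of `p`. -/
noncomputable def Ip (S : Finset (Finset V)) (U : Finset V) (a p : V) : Finset (Finset V) :=
  (cps S (nb S U a)).filter (fun A => p ∉ A ∧ ∀ y ∈ A, ∀ x ∈ nk S U a,
    ({x, y} : Finset V) ∉ S → ({x, p} : Finset V) ∉ S)

open Classical in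
/-- The join factors of the link of `p` in the factor of `p` of the link of `a` which have a
non-neighbour in `nk S U a \ Mp S U a p`. -/
noncomputable def Jp (S : Finset (Finset V)) (U : Finset V) (a p : V) : Finset (Finset V) :=
  (cps S (nb S (cp S (nb S U a) p) p)).filter (fun D => ∃ y ∈ D, ∃ x ∈ nk S U a,
    ({x, p} : Finset V) ∈ S ∧ ({x, y} : Finset V) ∉ S)

/-- `a` is a tight vertex of the irreducible `U`. -/
def Ti (S : Finset (Finset V)) (U : Finset V) (a : V) : Prop :=
  a ∈ U ∧ Con S U ∧ (nk S U a).card = nc S (nb S U a) + 1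

/-- The edge `x y` of `U` is in no induced 4-cycle of `U`. -/
def NoSqU (S : Finset (Finset V)) (U : Finset V) (x y : V) : Prop :=
  ∀ p ∈ U, ∀ q ∈ U, ({x, p} : Finset V) ∈ S → ({y, q} : Finset V) ∈ S →
    ({p, q} : Finset V) ∈ S → ({y, p} : Finset V) ∈ S ∨ ({x, q} : Finset V) ∈ S

/-- `U` has no contractible edge. -/
def CI (S : Finset (Finset V)) (U : Finset V) : Prop :=
  ∀ x ∈ U, ∀ y ∈ U, x ≠ y → ({x, y} : Finset V) ∈ S → ¬ NoSqU S U x y

/-- The class of spheres: every join factor has rank at most `5`, or excess at most `c`. -/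
def Cls (S : Finset (Finset V)) (d c : ℕ) (U : Finset V) : Prop :=
  ∀ A ∈ cps S U, ∀ ρ : ℕ, LS S d ρ A → ρ ≤ 5 ∨ A.card + 1 ≤ 3 * ρ + c

theorem mem_nb {S : Finset (Finset V)} {U : Finset V} {p x : V} :
    x ∈ nb S U p ↔ x ∈ U ∧ x ≠ p ∧ ({x, p} : Finset V) ∈ S := by
  unfold nb
  rw [Finset.mem_filter]

theorem mem_nk {S : Finset (Finset V)} {U : Finset V} {p x : V} :
    x ∈ nk S U p ↔ x ∈ U ∧ ({x, p} : Finset V) ∉ S := by
  unfold nk
  rw [Finset.mem_filter]

theorem mem_cps {S : Finset (Finset V)} {U A : Finset V} :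
    A ∈ cps S U ↔ ∃ x ∈ U, cp S U x = A := by
  unfold cps
  rw [Finset.mem_image]

theorem mem_XX {S : Finset (Finset V)} {U : Finset V} {a x : V} {I : Finset (Finset V)} :
    x ∈ XX S U a I ↔ x ∈ nk S U a ∧ ∃ A ∈ I, ∃ y ∈ A, ({x, y} : Finset V) ∉ S := by
  unfold XX
  rw [Finset.mem_filter]

theorem mem_Mp {S : Finset (Finset V)} {U : Finset V} {a p x : V} :
    x ∈ Mp S U a p ↔ x ∈ nk S U a ∧ ({x, p} : Finset V) ∉ S := by
  unfold Mp
  rw [Finset.mem_filter]

theorem mem_Ip {S : Finset (Finset V)} {U A : Finset V} {a p : V} :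
    A ∈ Ip S U a p ↔ A ∈ cps S (nb S U a) ∧ p ∉ A ∧ ∀ y ∈ A, ∀ x ∈ nk S U a,
      ({x, y} : Finset V) ∉ S → ({x, p} : Finset V) ∉ S := by
  classical
  unfold Ip
  rw [Finset.mem_filter]

theorem mem_Jp {S : Finset (Finset V)} {U D : Finset V} {a p : V} :
    D ∈ Jp S U a p ↔ D ∈ cps S (nb S (cp S (nb S U a) p) p) ∧ ∃ y ∈ D, ∃ x ∈ nk S U a,
      ({x, p} : Finset V) ∈ S ∧ ({x, y} : Finset V) ∉ S := by
  classical
  unfold Jp
  rw [Finset.mem_filter]

end Pool.Agent.MP19e880.TT
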