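import Pool.Agent.Lib.MP_19e880_co_TT.Exc

/-!
The factor of `a` in the link of `p`.
-/

set_option autoImplicit false
set_option linter.unusedSectionVars false

namespace Pool.Agent.MP19e880.TT

variable {V : Type} [Fintype V] [LinearOrder V] {k : Type} [Field k]
  {S : Finset (Finset V)} {d : ℕ}

private theorem da_aP {U : Finset V} {a p : V} (ha : a ∈ U) (hp : p ∈ nb S U a) :
    a ∈ nb S U p := by
  rw [mem_nb] at hp ⊢
  exact ⟨ha, hp.2.1.symm, pair_symm hp.2.2⟩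

/-- The factor of `a` in the link of `p`. -/
theorem phi_LS (h : HS k S d) {r : ℕ} {U : Finset V} (hU : LS S d r U) {a p : V} (ha : a ∈ U)
    (hp : p ∈ nb S U a) : a ∈ nb S U p ∧ a ∈ cp S (nb S U p) a ∧ Con S (cp S (nb S U p) a) ∧
      cp S (nb S U p) a ⊆ U ∧ ∃ t, t < r ∧ LS S d t (cp S (nb S U p) a) := by
  have haP := da_aP ha hp
  refine ⟨haP, mem_cp_self haP, cp_con haP, ?_, ?_⟩
  · intro x hx
    exact (mem_nb.mp (cp_sub hx)).1
  · obtain ⟨s, hs, hP⟩ := LS.nb h hU (mem_nb.mp hp).1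
    obtain ⟨s', t', hst, h1, -⟩ := LS.cld h hP (cp_cld S (nb S U p) a)
    exact ⟨s', by omega, h1⟩

private theorem da_mem {U : Finset V} {a p : V} (ha : a ∈ U) (hp : p ∈ nb S U a) {x : V}
    (hx : x ∈ nk S U a) (hxp : ({x, p} : Finset V) ∈ S) : x ∈ cp S (nb S U p) a := by
  have haP := da_aP ha hp
  rw [mem_nk] at hx
  have hxP : x ∈ nb S U p := by
    rw [mem_nb]
    refine ⟨hx.1, ?_, hxp⟩
    rintro rfl
    exact hx.2 (mem_nb.mp hp).2.2
  by_contra hc
  exact hx.2 (pair_symm ((cp_cld S (nb S U p) a).2 a (mem_cp_self haP) x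
    (Finset.mem_sdiff.mpr ⟨hxP, hc⟩)))

theorem phi_nk (h : HS k S d) {r : ℕ} {U : Finset V} (hU : LS S d r U) {a p : V} (ha : a ∈ U)
    (hp : p ∈ nb S U a) {x : V} :
    x ∈ nk S (cp S (nb S U p) a) a ↔ x ∈ nk S U a ∧ ({x, p} : Finset V) ∈ S := by
  constructor
  · intro hx
    rw [mem_nk] at hx
    have h1 := mem_nb.mp (cp_sub hx.1)
    exact ⟨mem_nk.mpr ⟨h1.1, hx.2⟩, h1.2.2⟩
  · rintro ⟨h1, h2⟩
    exact mem_nk.mpr ⟨da_mem ha hp h1 h2, (mem_nk.mp h1).2⟩

private theorem da_nb {U : Finset V} {a p q : V} (hq : q ∈ nb S (cp S (nb S U p) a) a) :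
    q ∈ nb S U a ∧ q ≠ p ∧ ({q, p} : Finset V) ∈ S := by
  rw [mem_nb] at hq
  have h1 := mem_nb.mp (cp_sub hq.1)
  exact ⟨mem_nb.mpr ⟨h1.1, hq.2.1, hq.2.2⟩, h1.2.1, h1.2.2⟩

theorem phi_nb (h : HS k S d) {r : ℕ} {U : Finset V} (hU : LS S d r U) {a p : V} (ha : a ∈ U)
    (hp : p ∈ nb S U a) {q : V} (hq : q ∈ nb S (cp S (nb S U p) a) a) :
    q ∈ nb S U a ∧ q ≠ p ∧ ({q, p} : Finset V) ∈ S := da_nb hq

/-- A connected subset of the link of `a` and of the link of `p`, which meets the factor of `a`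
in the link of `p`, is contained in it. -/
private theorem da_sub {U A : Finset V} {a p y : V} (ha : a ∈ U) (hp : p ∈ nb S U a)
    (hAc : Con S A) (hAN : A ⊆ nb S U a) (hAp : ∀ z ∈ A, z ≠ p ∧ ({z, p} : Finset V) ∈ S)
    (hy : y ∈ A) (hyP : y ∈ cp S (nb S U p) a) : A ⊆ nb S (cp S (nb S U p) a) a := by
  have haP := da_aP ha hp
  have hAP : A ⊆ nb S U p := by
    intro z hz
    rw [mem_nb]
    exact ⟨(mem_nb.mp (hAN hz)).1, (hAp z hz).1, (hAp z hz).2⟩
  have h1 : A ⊆ cp S (nb S U p) y := con_sub_cp hAc hAP hy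
  rw [cp_eq haP hyP] at h1
  intro z hz
  rw [mem_nb]
  have h2 := mem_nb.mp (hAN hz)
  exact ⟨h1 hz, h2.2.1, h2.2.2⟩

/-- The factors of the link of `a` which stay in the factor of `a` in the link of `p`. -/
theorem phi_cps (h : HS k S d) {r : ℕ} {U : Finset V} (hU : LS S d r U) {a p : V} (ha : a ∈ U)
    (hp : p ∈ nb S U a) {A : Finset V} (hA : A ∈ cps S (nb S U a)) (hpA : p ∉ A)
    (hAI : A ∉ Ip S U a p) : A ∈ cps S (nb S (cp S (nb S U p) a) a) := by
  have haP := da_aP ha hp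
  rw [mem_Ip] at hAI
  push Not at hAI
  obtain ⟨y, hy, x, hx, hxy, hxp⟩ := hAI hA hpA
  have hxF := da_mem ha hp hx hxp
  have hAp : ∀ z ∈ A, z ≠ p ∧ ({z, p} : Finset V) ∈ S := by
    intro z hz
    refine ⟨?_, cps_adj hA hz hp hpA⟩
    rintro rfl
    exact hpA hz
  have hyP : y ∈ nb S U p := by
    rw [mem_nb]
    exact ⟨(mem_nb.mp (cps_sub hA hy)).1, (hAp y hy).1, (hAp y hy).2⟩
  have hyF : y ∈ cp S (nb S U p) a := by
    by_contra hc
    exact hxy ((cp_cld S (nb S U p) a).2 x hxF y (Finset.mem_sdiff.mpr ⟨hyP, hc⟩))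
  have hsub := da_sub ha hp (cps_con hA) (cps_sub hA) hAp hy hyF
  refine cps_of ⟨hsub, ?_⟩ (cps_con hA) (cps_ne hA)
  intro u hu b hb
  rw [Finset.mem_sdiff] at hb
  exact (cps_cld hA).2 u hu b (Finset.mem_sdiff.mpr ⟨(da_nb hb.1).1, hb.2⟩)

/-- The factors of the link of `p` in the factor of `p` of the link of `a`. -/
private theorem da_jp {U : Finset V} {a p : V} (ha : a ∈ U) (hp : p ∈ nb S U a) {D : Finset V}
    (hD : D ∈ Jp S U a p) : D ∈ cps S (nb S (cp S (nb S U p) a) a) := by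
  rw [mem_Jp] at hD
  obtain ⟨hD, y, hy, x, hx, hxp, hxy⟩ := hD
  have hDs := cps_sub hD
  have hDN : D ⊆ nb S U a := fun z hz => cp_sub (mem_nb.mp (hDs hz)).1
  have hDp : ∀ z ∈ D, z ≠ p ∧ ({z, p} : Finset V) ∈ S := fun z hz =>
    ⟨(mem_nb.mp (hDs hz)).2.1, (mem_nb.mp (hDs hz)).2.2⟩
  have hxF := da_mem ha hp hx hxp
  have hyP : y ∈ nb S U p := by
    rw [mem_nb]
    exact ⟨(mem_nb.mp (hDN hy)).1, (hDp y hy).1, (hDp y hy).2⟩
  have hyF : y ∈ cp S (nb S U p) a := by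
    by_contra hc
    exact hxy ((cp_cld S (nb S U p) a).2 x hxF y (Finset.mem_sdiff.mpr ⟨hyP, hc⟩))
  have hsub := da_sub ha hp (cps_con hD) hDN hDp hy hyF
  refine cps_of ⟨hsub, ?_⟩ (cps_con hD) (cps_ne hD)
  intro c hc b hb
  rw [Finset.mem_sdiff] at hb
  obtain ⟨hbN, hbp, hbS⟩ := da_nb hb.1
  by_cases hbA : b ∈ cp S (nb S U a) p
  · exact (cps_cld hD).2 c hc b (Finset.mem_sdiff.mpr ⟨mem_nb.mpr ⟨hbA, hbp, hbS⟩, hb.2⟩)
  · exact (cp_cld S (nb S U a) p).2 c (mem_nb.mp (hDs hc)).1 b (Finset.mem_sdiff.mpr ⟨hbN, hbA⟩)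

/-- A subset of the link of `a` which is closed in the link of `p` does not meet the factor of
`a`. -/
private theorem da_contra {U D : Finset V} {a p c : V} (ha : a ∈ U) (hp : p ∈ nb S U a)
    (hDN : D ⊆ nb S U a) (hDp : ∀ z ∈ D, z ≠ p ∧ ({z, p} : Finset V) ∈ S) (hc : c ∈ D)
    (hcF : c ∈ cp S (nb S U p) a)
    (h1 : ∀ u ∈ D, ∀ b ∈ nb S U a, b ∉ D → b ≠ p → ({b, p} : Finset V) ∈ S →
      ({u, b} : Finset V) ∈ S)
    (h2 : ∀ y ∈ D, ∀ x ∈ nk S U a, ({x, p} : Finset V) ∈ S → ({x, y} : Finset V) ∈ S) :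
    False := by
  have haP := da_aP ha hp
  have hcl : Cld S (nb S U p) D := by
    refine ⟨?_, ?_⟩
    · intro z hz
      rw [mem_nb]
      exact ⟨(mem_nb.mp (hDN hz)).1, (hDp z hz).1, (hDp z hz).2⟩
    · intro u hu b hb
      rw [Finset.mem_sdiff, mem_nb] at hb
      by_cases hba : b = a
      · rw [hba]
        exact (mem_nb.mp (hDN hu)).2.2
      · by_cases hbS : ({b, a} : Finset V) ∈ S
        · exact h1 u hu b (mem_nb.mpr ⟨hb.1.1, hba, hbS⟩) hb.2 hb.1.2.1 hb.1.2.2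
        · exact pair_symm (h2 u hu b (mem_nk.mpr ⟨hb.1.1, hbS⟩) hb.1.2.2)
  have h3 := cp_min hcl hc
  rw [cp_eq haP hcF] at h3
  have h4 := hDN (h3 (mem_cp_self haP))
  exact (mem_nb.mp h4).2.1 rfl

private theorem da_conv {U : Finset V} {a p : V} (ha : a ∈ U) (hp : p ∈ nb S U a)
    {D : Finset V} (hD : D ∈ cps S (nb S (cp S (nb S U p) a) a)) :
    (D ∈ cps S (nb S U a) ∧ p ∉ D ∧ D ∉ Ip S U a p) ∨ D ∈ Jp S U a p := by
  have haP := da_aP ha hp
  obtain ⟨c, hc⟩ := cps_ne hD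
  have hDs := cps_sub hD
  have hDN : D ⊆ nb S U a := fun z hz => (da_nb (hDs hz)).1
  have hDp : ∀ z ∈ D, z ≠ p ∧ ({z, p} : Finset V) ∈ S := fun z hz => (da_nb (hDs hz)).2
  have hcF : c ∈ cp S (nb S U p) a := (mem_nb.mp (hDs hc)).1
  have hcN := hDN hc
  by_cases hcA : c ∈ cp S (nb S U a) p
  · right
    have hcD' : c ∈ nb S (cp S (nb S U a) p) p := mem_nb.mpr ⟨hcA, (hDp c hc).1, (hDp c hc).2⟩
    have hDA : D ⊆ cp S (nb S U a) p := by
      have h1 : D ⊆ cp S (nb S U a) c := con_sub_cp (cps_con hD) hDN hc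
      rwa [cp_eq hp hcA] at h1
    have hDnb : D ⊆ nb S (cp S (nb S U a) p) p := fun z hz =>
      mem_nb.mpr ⟨hDA hz, (hDp z hz).1, (hDp z hz).2⟩
    have h1 : D ⊆ cp S (nb S (cp S (nb S U a) p) p) c := con_sub_cp (cps_con hD) hDnb hc
    have h2 : cp S (nb S (cp S (nb S U a) p) p) c ⊆ D := by
      have h3 : cp S (nb S (cp S (nb S U a) p) p) c ⊆ nb S (cp S (nb S U p) a) a := by
        apply da_sub ha hp (cp_con hcD') (y := c)
        · intro z hz
          exact cp_sub (mem_nb.mp (cp_sub hz)).1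
        · intro z hz
          exact (mem_nb.mp (cp_sub hz)).2
        · exact mem_cp_self hcD'
        · exact hcF
      have h4 := con_sub_cp (cp_con hcD') h3 (mem_cp_self hcD')
      rwa [cps_cp hD hc] at h4
    have h5 : cp S (nb S (cp S (nb S U a) p) p) c = D := Finset.Subset.antisymm h2 h1
    have h6 : D ∈ cps S (nb S (cp S (nb S U a) p) p) := by
      rw [← h5]
      exact cp_cps hcD'
    rw [mem_Jp]
    refine ⟨h6, ?_⟩
    by_contra hcon
    push Not at hcon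
    apply da_contra ha hp hDN hDp hc hcF
    · intro u hu b hbN hbD hbp hbS
      by_cases hbA : b ∈ cp S (nb S U a) p
      · exact (cps_cld h6).2 u hu b (Finset.mem_sdiff.mpr ⟨mem_nb.mpr ⟨hbA, hbp, hbS⟩, hbD⟩)
      · exact (cp_cld S (nb S U a) p).2 u (hDA hu) b (Finset.mem_sdiff.mpr ⟨hbN, hbA⟩)
    · intro y hy x hx hxp
      exact hcon y hy x hx hxp
  · left
    have hAc : cp S (nb S U a) c ∈ cps S (nb S U a) := cp_cps hcN
    have hpA : p ∉ cp S (nb S U a) c := by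
      intro h1
      apply hcA
      rw [cps_cp hAc h1]
      exact mem_cp_self hcN
    have h1 : cp S (nb S U a) c ⊆ nb S (cp S (nb S U p) a) a := by
      apply da_sub ha hp (cp_con hcN) cp_sub (y := c)
      · intro z hz
        refine ⟨?_, cps_adj hAc hz hp hpA⟩
        rintro rfl
        exact hpA hz
      · exact mem_cp_self hcN
      · exact hcF
    have h2 : cp S (nb S U a) c ⊆ D := by
      have h3 := con_sub_cp (cp_con hcN) h1 (mem_cp_self hcN)
      rwa [cps_cp hD hc] at h3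
    have h3 : D ⊆ cp S (nb S U a) c := con_sub_cp (cps_con hD) hDN hc
    have h4 : cp S (nb S U a) c = D := Finset.Subset.antisymm h2 h3
    rw [h4] at hAc hpA
    refine ⟨hAc, hpA, ?_⟩
    intro hI
    rw [mem_Ip] at hI
    apply da_contra ha hp hDN hDp hc hcF
    · intro u hu b hbN hbD _ _
      exact cps_adj hAc hu hbN hbD
    · intro y hy x hx hxp
      by_contra hcon
      exact hI.2.2 y hy x hx hcon hxp

theorem phi_nc (h : HS k S d) {r : ℕ} {U : Finset V} (hU : LS S d r U) {a p : V} (ha : a ∈ U)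
    (hp : p ∈ nb S U a) :
    nc S (nb S (cp S (nb S U p) a) a) + 1 + (Ip S U a p).card =
      nc S (nb S U a) + (Jp S U a p).card := by
  classical
  set AA := (cps S (nb S U a)).filter (fun A => p ∉ A ∧ A ∉ Ip S U a p) with hAA
  have hAp : cp S (nb S U a) p ∈ cps S (nb S U a) := cp_cps hp
  have e1 : cps S (nb S (cp S (nb S U p) a) a) = AA ∪ Jp S U a p := by
    ext D
    rw [Finset.mem_union, hAA, Finset.mem_filter]
    constructor
    · intro hD
      exact da_conv ha hp hD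
    · rintro (⟨h1, h2, h3⟩ | h1)
      · exact phi_cps h hU ha hp h1 h2 h3
      · exact da_jp ha hp h1
  have e2 : Disjoint AA (Jp S U a p) := by
    rw [Finset.disjoint_left]
    intro D h1 h2
    rw [hAA, Finset.mem_filter] at h1
    rw [mem_Jp] at h2
    obtain ⟨c, hc⟩ := cps_ne h2.1
    have hcA : c ∈ cp S (nb S U a) p := (mem_nb.mp (cps_sub h2.1 hc)).1
    have h3 := cps_cp h1.1 hc
    rw [cp_eq hp hcA] at h3
    apply h1.2.1
    rw [← h3]
    exact mem_cp_self hp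
  have e3 : cps S (nb S U a) = insert (cp S (nb S U a) p) (AA ∪ Ip S U a p) := by
    ext D
    rw [Finset.mem_insert, Finset.mem_union, hAA, Finset.mem_filter]
    constructor
    · intro hD
      by_cases hpD : p ∈ D
      · left
        exact (cps_cp hD hpD).symm
      · right
        by_cases hI : D ∈ Ip S U a p
        · right
          exact hI
        · left
          exact ⟨hD, hpD, hI⟩
    · rintro (h1 | h1 | h1)
      · rw [h1]
        exact hAp
      · exact h1.1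
      · exact (mem_Ip.mp h1).1
  have e4 : cp S (nb S U a) p ∉ AA ∪ Ip S U a p := by
    rw [Finset.mem_union, hAA, Finset.mem_filter]
    rintro (h1 | h1)
    · exact h1.2.1 (mem_cp_self hp)
    · exact (mem_Ip.mp h1).2.1 (mem_cp_self hp)
  have e5 : Disjoint AA (Ip S U a p) := by
    rw [Finset.disjoint_left]
    intro D h1 h2
    rw [hAA, Finset.mem_filter] at h1
    exact h1.2.2 h2
  unfold nc
  rw [e1, Finset.card_union_of_disjoint e2]
  have e6 : (cps S (nb S U a)).card = AA.card + (Ip S U a p).card + 1 := by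
    rw [e3, Finset.card_insert_of_notMem e4, Finset.card_union_of_disjoint e5]
  rw [e6]
  omega

theorem phi_Mp (h : HS k S d) {r : ℕ} {U : Finset V} (hU : LS S d r U) {a p : V} (ha : a ∈ U)
    (hp : p ∈ nb S U a) (q : V) :
    Mp S (cp S (nb S U p) a) a q = Mp S U a q \ Mp S U a p := by
  ext x
  rw [mem_Mp, Finset.mem_sdiff, mem_Mp, mem_Mp, phi_nk h hU ha hp]
  tauto

end Pool.Agent.MP19e880.TT
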