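import Pool.Agent.Lib.MP_19e880_co_TT.ApiB
import Pool.Agent.Lib.MP_19e880_co_TT.CpsA

/-!
A vertex adjacent to all non-neighbours of `a`.
-/

set_option autoImplicit false
set_option linter.unusedSectionVars false

namespace Pool.Agent.MP19e880.TT

variable {V : Type} [Fintype V] [LinearOrder V] {k : Type} [Field k]
  {S : Finset (Finset V)} {d : ℕ}

theorem lemZ (h : HS k S d) {r : ℕ} {U : Finset V} (hU : LS S d r U) {a : V} (ha : a ∈ U)
    {A : Finset V} (hA : A ∈ cps S (nb S U a)) {p : V} (hp : p ∈ A)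
    (hadj : ∃ y ∈ A, ∃ x ∈ nk S U a, ({x, y} : Finset V) ∉ S)
    (hM : ∀ x ∈ nk S U a, ({x, p} : Finset V) ∈ S) :
    ∃ q ∈ A, q ≠ p ∧ ({q, p} : Finset V) ∈ S ∧ ∃ x ∈ nk S U a, ({x, q} : Finset V) ∉ S := by
  by_contra hcon
  have hH : ∀ q ∈ A, q ≠ p → ({q, p} : Finset V) ∈ S → ∀ x ∈ nk S U a,
      ({x, q} : Finset V) ∈ S := by
    intro q hq hqp hqpS x hx
    by_contra hxq
    exact hcon ⟨q, hq, hqp, hqpS, x, hx, hxq⟩
  have hE := eul_of_hs h
  obtain ⟨s, hs, hN⟩ := LS.nb h hU ha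
  obtain ⟨ρ, t, hρt, hAρ, -⟩ := LS.cld h hN (cps_cld hA)
  have hAN : A ⊆ nb S U a := cps_sub hA
  have hNU : ∀ y ∈ A, y ∈ U := fun y hy => (mem_nb.mp (hAN hy)).1
  have hsing : ∀ y ∈ U, ({y} : Finset V) ∈ S := by
    intro y hy
    have h2 := LS.self h hU hy
    rwa [Finset.pair_eq_singleton] at h2
  classical
  set W : Finset V := A.filter (fun y => ∀ x ∈ nk S U a, ({x, y} : Finset V) ∈ S) with hWdef
  have hWA : W ⊆ A := Finset.filter_subset _ _
  obtain ⟨G, hG1, hG2, hG3, hG4⟩ := LS.facet h hAρ (Finset.singleton_subset_iff.mpr hp)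
    (hsing p (hNU p hp))
  have hpG : p ∈ G := hG1 (Finset.mem_singleton_self p)
  have hGW : G ⊆ W := by
    intro y hy
    rw [hWdef, Finset.mem_filter]
    refine ⟨hG2 hy, ?_⟩
    by_cases hyp : y = p
    · rw [hyp]
      exact hM
    · exact hH y (hG2 hy) hyp (pair_mem hE G hG3 y p hy hpG)
  have hfull : W = A := by
    refine LS.full h hAρ hWA hGW hG3 hG4 ?_
    intro Q u u' huQ hu'Q huu' hFW hFS hFc hu'A hu'S
    rw [hWdef, Finset.mem_filter]
    refine ⟨hu'A, ?_⟩
    intro x hx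
    by_contra hxu'
    have hxU : x ∈ U := (mem_nk.mp hx).1
    have hxa : ({x, a} : Finset V) ∉ S := (mem_nk.mp hx).2
    have hFall : ∀ b ∈ insert u Q, ({x, b} : Finset V) ∈ S := by
      intro b hb
      have hbW := hFW hb
      rw [hWdef, Finset.mem_filter] at hbW
      exact hbW.2 x hx
    have hbig : insert x (insert u Q) ∈ S := by
      have h1 := glue h (hsing x hxU) hFS (fun c hc b hb => by
        rw [Finset.mem_singleton] at hc
        rw [hc]
        exact hFall b hb)
      rwa [← Finset.insert_eq] at h1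
    have hbigU : insert x (insert u Q) ⊆ U := by
      refine Finset.insert_subset hxU ?_
      intro b hb
      exact hNU b (hWA (hFW hb))
    obtain ⟨Y, hY1, hY2, hY3, hY4⟩ := LS.facet h hU hbigU hbig
    have huF : u ∈ insert u Q := Finset.mem_insert_self _ _
    have huY : u ∈ Y := hY1 (Finset.mem_insert_of_mem huF)
    have huA : u ∈ A := hWA (hFW huF)
    have hua : ({u, a} : Finset V) ∈ S := (mem_nb.mp (hAN huA)).2.2
    obtain ⟨y, hyU, hyY, hyS, hyu⟩ := LS.flip h hU hY2 hY3 hY4 huY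
    have hya : y ≠ a := by
      rintro rfl
      exact hyu (pair_symm hua)
    have hyaS : ({y, a} : Finset V) ∈ S := by
      by_contra hc
      have hyk : y ∈ nk S U a := mem_nk.mpr ⟨hyU, hc⟩
      have huW := hFW huF
      rw [hWdef, Finset.mem_filter] at huW
      exact hyu (huW.2 y hyk)
    have hyN : y ∈ nb S U a := mem_nb.mpr ⟨hyU, hya, hyaS⟩
    have hyA : y ∈ A := by
      by_contra hc
      exact hyu (pair_symm (cps_adj hA huA hyN hc))
    have hQY : Q ⊆ Y.erase u := by
      intro b hb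
      refine Finset.mem_erase.mpr ⟨?_, hY1 (Finset.mem_insert_of_mem (Finset.mem_insert_of_mem hb))⟩
      rintro rfl
      exact huQ hb
    have hyQS : insert y Q ∈ S := h.down _ hyS _ (Finset.insert_subset_insert _ hQY)
    have hyQ : y ∉ Q := fun hc => hyY ((Finset.erase_subset _ _) (hQY hc))
    have hyu' : y ≠ u := by
      rintro rfl
      exact hyY huY
    have hxY : x ∈ Y.erase u := by
      refine Finset.mem_erase.mpr ⟨?_, hY1 (Finset.mem_insert_self _ _)⟩
      rintro rfl
      exact hxa hua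
    have hyx : ({y, x} : Finset V) ∈ S := pair_mem hE _ hyS y x (Finset.mem_insert_self _ _)
      (Finset.mem_insert_of_mem hxY)
    have hyu'' : y ≠ u' := by
      rintro rfl
      exact hxu' (pair_symm hyx)
    have hQA : Q ⊆ A := fun b hb => hWA (hFW (Finset.mem_insert_of_mem hb))
    have hQc : Q.card + 1 = ρ := by
      rw [← hFc, Finset.card_insert_of_notMem huQ]
    exact LS.three h hAρ hQA hQc huA hu'A hyA huQ hu'Q hyQ hFS hu'S hyQS huu' hyu'.symm
      hyu''.symm
  obtain ⟨y, hy, x, hx, hxy⟩ := hadj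
  rw [← hfull, hWdef, Finset.mem_filter] at hy
  exact hxy (hy.2 x hx)

end Pool.Agent.MP19e880.TT
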