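import Pool.Agent.Lib.MP_19e880_co_TT.DropA
import Pool.Agent.Lib.MP_19e880_co_TT.LemZ

/-!
Tight vertices: the counts.
-/

set_option autoImplicit false
set_option linter.unusedSectionVars false

namespace Pool.Agent.MP19e880.TT

variable {V : Type} [Fintype V] [LinearOrder V] {k : Type} [Field k]
  {S : Finset (Finset V)} {d : ℕ}

private theorem DropB_nk_eq (h : HS k S d) {r : ℕ} {U : Finset V} (hU : LS S d r U) {a p : V}
    (ha : a ∈ U) (hp : p ∈ nb S U a) :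
    nk S (cp S (nb S U p) a) a = nk S U a \ Mp S U a p := by
  ext x
  rw [phi_nk h hU ha hp, Finset.mem_sdiff, mem_Mp]
  constructor
  · rintro ⟨h1, h2⟩
    exact ⟨h1, fun h3 => h3.2 h2⟩
  · rintro ⟨h1, h2⟩
    refine ⟨h1, ?_⟩
    by_contra h3
    exact h2 ⟨h1, h3⟩

private theorem DropB_Mp_sub {U : Finset V} {a p : V} : Mp S U a p ⊆ nk S U a := by
  intro x hx
  exact (mem_Mp.mp hx).1

private theorem DropB_nk_card (h : HS k S d) {r : ℕ} {U : Finset V} (hU : LS S d r U) {a p : V}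
    (ha : a ∈ U) (hp : p ∈ nb S U a) :
    (nk S (cp S (nb S U p) a) a).card + (Mp S U a p).card = (nk S U a).card := by
  rw [DropB_nk_eq h hU ha hp]
  exact Finset.card_sdiff_add_card_eq_card DropB_Mp_sub

/-- The inequality `|Mp| + |Jp| ≤ |Ip| + 1`. -/
private theorem DropB_star (h : HS k S d) {r : ℕ} {U : Finset V} (hU : LS S d r U) {a p : V}
    (ht : Ti S U a) (hp : p ∈ nb S U a) :
    (Mp S U a p).card + (Jp S U a p).card ≤ (Ip S U a p).card + 1 := by
  obtain ⟨ha, hc, hk⟩ := ht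
  obtain ⟨-, h2, h3, -, t, -, h4⟩ := phi_LS h hU ha hp
  have h5 := nk_ge h h4 h3 h2
  have h6 := phi_nc h hU ha hp
  have h7 := DropB_nk_card h hU ha hp
  omega

private theorem DropB_Ip_sub {U : Finset V} {a p : V} : Ip S U a p ⊆ cps S (nb S U a) := by
  intro A hA
  exact (mem_Ip.mp hA).1

private theorem DropB_XX_Ip {U : Finset V} {a p : V} : XX S U a (Ip S U a p) ⊆ Mp S U a p := by
  intro x hx
  obtain ⟨h1, A, hA, y, hy, hxy⟩ := mem_XX.mp hx
  exact mem_Mp.mpr ⟨h1, (mem_Ip.mp hA).2.2 y hy x h1 hxy⟩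

/-- The case of nonempty `Ip`. -/
private theorem DropB_two (h : HS k S d) {r : ℕ} {U : Finset V} (hU : LS S d r U) {a p : V}
    (ht : Ti S U a) (hp : p ∈ nb S U a) (hI : (Ip S U a p).Nonempty) :
    Jp S U a p = ∅ ∧ (Mp S U a p).card = (Ip S U a p).card + 1 ∧
      XX S U a (Ip S U a p) = Mp S U a p := by
  have h1 := DropB_star h hU ht hp
  have h2 := XX_bound h hU ht.2.1 ht.1 (DropB_Ip_sub (S := S) (U := U) (a := a) (p := p)) hI
  have h3 := Finset.card_le_card (DropB_XX_Ip (S := S) (U := U) (a := a) (p := p))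
  refine ⟨?_, ?_, ?_⟩
  · apply Finset.card_eq_zero.mp
    omega
  · omega
  · apply Finset.eq_of_subset_of_card_le DropB_XX_Ip
    omega

theorem ti_ne (h : HS k S d) {r : ℕ} {U : Finset V} (hU : LS S d r U) {a p : V}
    (ht : Ti S U a) (hp : p ∈ nb S U a) (hM : (Mp S U a p).Nonempty) :
    Jp S U a p = ∅ ∧ (Mp S U a p).card = (Ip S U a p).card + 1 := by
  rcases (Ip S U a p).eq_empty_or_nonempty with hI | hI
  · have h1 := DropB_star h hU ht hp
    have h2 := hM.card_pos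
    rw [hI, Finset.card_empty] at h1 ⊢
    refine ⟨?_, ?_⟩
    · apply Finset.card_eq_zero.mp
      omega
    · omega
  · exact ⟨(DropB_two h hU ht hp hI).1, (DropB_two h hU ht hp hI).2.1⟩

theorem ti_XX (h : HS k S d) {r : ℕ} {U : Finset V} (hU : LS S d r U) {a p : V}
    (ht : Ti S U a) (hp : p ∈ nb S U a) (hI : (Ip S U a p).Nonempty) :
    XX S U a (Ip S U a p) = Mp S U a p := (DropB_two h hU ht hp hI).2.2

/-- Each join factor of the link of `a` has a non-neighbour in `nk S U a`. -/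
private theorem DropB_out {U : Finset V} {a : V}
    (ht : Ti S U a) {A : Finset V} (hA : A ∈ cps S (nb S U a)) :
    ∃ y ∈ A, ∃ x ∈ nk S U a, ({x, y} : Finset V) ∉ S := by
  have hAN := cps_sub hA
  have hNU : nb S U a ⊆ U := fun x hx => (mem_nb.mp hx).1
  have haA : a ∉ A := fun h' => (mem_nb.mp (hAN h')).2.1 rfl
  obtain ⟨y, hy, b, hb, hyb⟩ := ht.2.1 A (hAN.trans hNU) (cps_ne hA)
    (fun h' => haA (h' ▸ ht.1))
  rw [Finset.mem_sdiff] at hb
  have hbN : b ∉ nb S U a := fun h' => hyb (cps_adj hA hy h' hb.2)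
  have hba : b ≠ a := by
    rintro rfl
    exact hyb (mem_nb.mp (hAN hy)).2.2
  refine ⟨y, hy, b, mem_nk.mpr ⟨hb.1, ?_⟩, ?_⟩
  · intro h'
    exact hbN (mem_nb.mpr ⟨hb.1, hba, h'⟩)
  · intro h'
    exact hyb (pair_symm h')

theorem ti_empty (h : HS k S d) {r : ℕ} {U : Finset V} (hU : LS S d r U) {a p : V}
    (ht : Ti S U a) (hp : p ∈ nb S U a) (hM : Mp S U a p = ∅) :
    Ip S U a p = ∅ ∧ (Jp S U a p).card = 1 := by
  have hI : Ip S U a p = ∅ := by
    rcases (Ip S U a p).eq_empty_or_nonempty with hI | hI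
    · exact hI
    · exfalso
      have h1 := (DropB_two h hU ht hp hI).2.1
      rw [hM, Finset.card_empty] at h1
      omega
  refine ⟨hI, ?_⟩
  have h1 := DropB_star h hU ht hp
  rw [hM, hI, Finset.card_empty, Finset.card_empty] at h1
  have hA : cp S (nb S U a) p ∈ cps S (nb S U a) := cp_cps hp
  have hall : ∀ x ∈ nk S U a, ({x, p} : Finset V) ∈ S := by
    intro x hx
    by_contra h'
    have : x ∈ Mp S U a p := mem_Mp.mpr ⟨hx, h'⟩
    rw [hM] at this
    exact absurd this (Finset.notMem_empty x)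
  obtain ⟨q, hq, hqp, hqp2, x, hx, hxq⟩ := lemZ h hU ht.1 hA (mem_cp_self hp)
    (DropB_out ht hA) hall
  have hqn : q ∈ nb S (cp S (nb S U a) p) p := mem_nb.mpr ⟨hq, hqp, hqp2⟩
  have hD : cp S (nb S (cp S (nb S U a) p) p) q ∈ Jp S U a p :=
    mem_Jp.mpr ⟨cp_cps hqn, q, mem_cp_self hqn, x, hx, hall x hx, hxq⟩
  have h2 := Finset.card_pos.mpr ⟨_, hD⟩
  omega

/-- Tightness passes to links. -/
theorem ti_phi (h : HS k S d) {r : ℕ} {U : Finset V} (hU : LS S d r U) {a p : V}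
    (ht : Ti S U a) (hp : p ∈ nb S U a) : Ti S (cp S (nb S U p) a) a := by
  obtain ⟨-, h2, h3, -, -⟩ := phi_LS h hU ht.1 hp
  refine ⟨h2, h3, ?_⟩
  have h4 := phi_nc h hU ht.1 hp
  have h5 := DropB_nk_card h hU ht.1 hp
  have h6 := ht.2.2
  rcases (Mp S U a p).eq_empty_or_nonempty with hM | hM
  · obtain ⟨h7, h8⟩ := ti_empty h hU ht hp hM
    rw [hM, Finset.card_empty] at h5
    rw [h7, Finset.card_empty] at h4
    omega
  · obtain ⟨h7, h8⟩ := ti_ne h hU ht hp hM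
    rw [h7, Finset.card_empty] at h4
    omega

theorem ti_adj (h : HS k S d) {r : ℕ} {U : Finset V} (hU : LS S d r U) {a p q : V}
    (ht : Ti S U a) (hp : p ∈ nb S U a) (hq : q ∈ cp S (nb S U a) p) (hpq : p ≠ q)
    (hpq2 : ({p, q} : Finset V) ∈ S) (hM : (Mp S U a p).Nonempty) :
    Mp S U a q ⊆ Mp S U a p := by
  intro x hx
  obtain ⟨h1, h2⟩ := mem_Mp.mp hx
  by_contra h3
  have h4 : ({x, p} : Finset V) ∈ S := by
    by_contra h'
    exact h3 (mem_Mp.mpr ⟨h1, h'⟩)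
  have hqn : q ∈ nb S (cp S (nb S U a) p) p := mem_nb.mpr ⟨hq, hpq.symm, pair_symm hpq2⟩
  have hD : cp S (nb S (cp S (nb S U a) p) p) q ∈ Jp S U a p :=
    mem_Jp.mpr ⟨cp_cps hqn, q, mem_cp_self hqn, x, h1, h4, h2⟩
  rw [(ti_ne h hU ht hp hM).1] at hD
  exact absurd hD (Finset.notMem_empty _)

theorem ti_XA (h : HS k S d) {r : ℕ} {U : Finset V} (hU : LS S d r U) {a p : V}
    (ht : Ti S U a) (hp : p ∈ nb S U a) :
    ∃ y ∈ cp S (nb S U a) p, ∃ x ∈ nk S U a, ({x, p} : Finset V) ∈ S ∧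
      ({x, y} : Finset V) ∉ S := by
  rcases (Mp S U a p).eq_empty_or_nonempty with hM | hM
  · obtain ⟨-, h2⟩ := ti_empty h hU ht hp hM
    obtain ⟨D, hD⟩ := Finset.card_pos.mp (by omega : 0 < (Jp S U a p).card)
    obtain ⟨h3, y, hy, x, hx, hxp, hxy⟩ := mem_Jp.mp hD
    exact ⟨y, (mem_nb.mp (cps_sub h3 hy)).1, x, hx, hxp, hxy⟩
  · by_contra hcon
    have hcon2 : ∀ y ∈ cp S (nb S U a) p, ∀ x ∈ nk S U a, ({x, y} : Finset V) ∉ S →
        ({x, p} : Finset V) ∉ S := by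
      intro y hy x hx hxy hxp
      exact hcon ⟨y, hy, x, hx, hxp, hxy⟩
    have hA : cp S (nb S U a) p ∈ cps S (nb S U a) := cp_cps hp
    have hAI : cp S (nb S U a) p ∉ Ip S U a p := fun h' => (mem_Ip.mp h').2.1 (mem_cp_self hp)
    have hsub : insert (cp S (nb S U a) p) (Ip S U a p) ⊆ cps S (nb S U a) := by
      intro B hB
      rcases Finset.mem_insert.mp hB with rfl | hB
      · exact hA
      · exact DropB_Ip_sub hB
    have h1 := XX_bound h hU ht.2.1 ht.1 hsub (Finset.insert_nonempty _ _)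
    have h2 : XX S U a (insert (cp S (nb S U a) p) (Ip S U a p)) ⊆ Mp S U a p := by
      intro x hx
      obtain ⟨h1, B, hB, y, hy, hxy⟩ := mem_XX.mp hx
      refine mem_Mp.mpr ⟨h1, ?_⟩
      rcases Finset.mem_insert.mp hB with rfl | hB
      · exact hcon2 y hy x h1 hxy
      · exact (mem_Ip.mp hB).2.2 y hy x h1 hxy
    have h3 := Finset.card_le_card h2
    rw [Finset.card_insert_of_notMem hAI] at h1
    have h4 := (ti_ne h hU ht hp hM).2
    omega

theorem ti_tough (h : HS k S d) {r : ℕ} {U : Finset V} (hU : LS S d r U) {a p : V}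
    (ht : Ti S U a) (hp : p ∈ nb S U a) {I : Finset (Finset V)} (hI : I ⊆ cps S (nb S U a))
    (hIn : I.Nonempty) (hIp : ∀ A ∈ I, p ∉ A) (hId : Disjoint I (Ip S U a p)) :
    I.card + 1 ≤ (XX S U a I \ Mp S U a p).card := by
  obtain ⟨-, h2, h3, -, t, -, h4⟩ := phi_LS h hU ht.1 hp
  have hsub : I ⊆ cps S (nb S (cp S (nb S U p) a) a) := by
    intro A hA
    exact phi_cps h hU ht.1 hp (hI hA) (hIp A hA) (Finset.disjoint_left.mp hId hA)
  refine (XX_bound h h4 h3 h2 hsub hIn).trans (Finset.card_le_card ?_)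
  intro x hx
  obtain ⟨h5, B, hB, y, hy, hxy⟩ := mem_XX.mp hx
  rw [DropB_nk_eq h hU ht.1 hp, Finset.mem_sdiff] at h5
  rw [Finset.mem_sdiff]
  exact ⟨mem_XX.mpr ⟨h5.1, B, hB, y, hy, hxy⟩, h5.2⟩

end Pool.Agent.MP19e880.TT
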