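import Pool.Agent.Lib.MP_19e880_co_TT.Tough

/-!
The excess.
-/

set_option autoImplicit false
set_option linter.unusedSectionVars false

namespace Pool.Agent.MP19e880.TT

variable {V : Type} [Fintype V] [LinearOrder V] {k : Type} [Field k]
  {S : Finset (Finset V)} {d : ℕ}

theorem XX_bound (h : HS k S d) {r : ℕ} {U : Finset V} (hU : LS S d r U) (hc : Con S U) {a : V}
    (ha : a ∈ U) {I : Finset (Finset V)} (hI : I ⊆ cps S (nb S U a)) (hIn : I.Nonempty) :
    I.card + 1 ≤ (XX S U a I).card := by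
  have hsub : XX S U a I ⊆ U := fun x hx => (mem_nk.mp (mem_XX.mp hx).1).1
  have haR : a ∉ XX S U a I := fun hx => (mem_nk.mp (mem_XX.mp hx).1).2 (LS.self h hU ha)
  have hAU : ∀ A ∈ I, A ⊆ nb S U a := fun A hA => cps_sub (hI hA)
  have hRn : (XX S U a I).Nonempty := by
    obtain ⟨A, hA⟩ := hIn
    have hAn := cps_ne (hI hA)
    have hA1 : A ⊆ U := fun x hx => (mem_nb.mp (hAU A hA hx)).1
    have haA : a ∉ A := fun hx => (mem_nb.mp (hAU A hA hx)).2.1 rfl
    obtain ⟨y, hy, b, hb, hyb⟩ := hc A hA1 hAn (fun h' => haA (h' ▸ ha))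
    rw [Finset.mem_sdiff] at hb
    have hyn := mem_nb.mp (hAU A hA hy)
    have hba : b ≠ a := by
      rintro rfl
      exact hyb hyn.2.2
    have hbn : b ∉ nb S U a := fun hb' => hyb (cps_adj (hI hA) hy hb' hb.2)
    have hbk : b ∈ nk S U a := by
      rw [mem_nk]
      exact ⟨hb.1, fun h' => hbn (mem_nb.mpr ⟨hb.1, hba, h'⟩)⟩
    exact ⟨b, mem_XX.mpr ⟨hbk, A, hA, y, hy, fun h' => hyb (pair_symm h')⟩⟩
  have ht := tough_con h hU hc hsub hRn
  have haU : a ∈ U \ XX S U a I := Finset.mem_sdiff.mpr ⟨ha, haR⟩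
  have hsubs : insert (cp S (U \ XX S U a I) a) I ⊆ cps S (U \ XX S U a I) := by
    refine Finset.insert_subset (cp_cps haU) ?_
    intro A hA
    apply cps_of
    · refine ⟨?_, ?_⟩
      · intro x hx
        rw [Finset.mem_sdiff]
        have hx' := mem_nb.mp (hAU A hA hx)
        exact ⟨hx'.1, fun h' => (mem_nk.mp (mem_XX.mp h').1).2 hx'.2.2⟩
      · intro y hy b hb
        rw [Finset.mem_sdiff, Finset.mem_sdiff] at hb
        obtain ⟨⟨hbU, hbR⟩, hbA⟩ := hb
        have hyn := mem_nb.mp (hAU A hA hy)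
        by_cases hba : b = a
        · rw [hba]
          exact hyn.2.2
        · by_cases hbn : ({b, a} : Finset V) ∈ S
          · exact cps_adj (hI hA) hy (mem_nb.mpr ⟨hbU, hba, hbn⟩) hbA
          · by_contra hyb
            exact hbR (mem_XX.mpr ⟨mem_nk.mpr ⟨hbU, hbn⟩, A, hA, y, hy,
              fun h' => hyb (pair_symm h')⟩)
    · exact cps_con (hI hA)
    · exact cps_ne (hI hA)
  have hnot : cp S (U \ XX S U a I) a ∉ I := by
    intro h'
    exact (mem_nb.mp (hAU _ h' (mem_cp_self haU))).2.1 rfl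
  have hcard := Finset.card_le_card hsubs
  rw [Finset.card_insert_of_notMem hnot] at hcard
  unfold nc at ht
  omega

theorem nk_ge (h : HS k S d) {r : ℕ} {U : Finset V} (hU : LS S d r U) (hc : Con S U) {a : V}
    (ha : a ∈ U) : nc S (nb S U a) + 1 ≤ (nk S U a).card := by
  by_cases h0 : (cps S (nb S U a)).Nonempty
  · have h1 := XX_bound h hU hc ha (Finset.Subset.refl _) h0
    have h2 : (XX S U a (cps S (nb S U a))).card ≤ (nk S U a).card :=
      Finset.card_le_card (fun x hx => (mem_XX.mp hx).1)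
    unfold nc
    omega
  · rw [Finset.not_nonempty_iff_eq_empty] at h0
    have h1 := Finset.card_pos.mpr (LS.nk_ne h hU ha)
    unfold nc
    rw [h0, Finset.card_empty]
    omega

theorem card_split (h : HS k S d) {r : ℕ} {U : Finset V} (hU : LS S d r U) {a : V}
    (ha : a ∈ U) : U.card = (nb S U a).card + 1 + (nk S U a).card := by
  have haa := LS.self h hU ha
  have h1 : U = (insert a (nb S U a)) ∪ nk S U a := by
    ext x
    rw [Finset.mem_union, Finset.mem_insert, mem_nb, mem_nk]
    constructor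
    · intro hx
      by_cases hxa : x = a
      · exact Or.inl (Or.inl hxa)
      · by_cases hxS : ({x, a} : Finset V) ∈ S
        · exact Or.inl (Or.inr ⟨hx, hxa, hxS⟩)
        · exact Or.inr ⟨hx, hxS⟩
    · rintro ((rfl | hx) | hx)
      · exact ha
      · exact hx.1
      · exact hx.1
  have h2 : Disjoint (insert a (nb S U a)) (nk S U a) := by
    rw [Finset.disjoint_left]
    intro x hx hx2
    rw [Finset.mem_insert, mem_nb] at hx
    rw [mem_nk] at hx2
    rcases hx with rfl | hx
    · exact hx2.2 haa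
    · exact hx2.2 hx.2.2
  have h3 : a ∉ nb S U a := fun h' => (mem_nb.mp h').2.1 rfl
  calc U.card = ((insert a (nb S U a)) ∪ nk S U a).card := congrArg Finset.card h1
    _ = (nb S U a).card + 1 + (nk S U a).card := by
        rw [Finset.card_union_of_disjoint h2, Finset.card_insert_of_notMem h3]

theorem exc_con (h : HS k S d) {r : ℕ} {U : Finset V} (hU : LS S d (r + 1) U) (hc : Con S U)
    {a : V} (ha : a ∈ U) :
    exc S (r + 1) U = exc S r (nb S U a) + (nk S U a).card - 1 - nc S (nb S U a) := by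
  have h1 := card_split h hU ha
  have h2 : nc S U = 1 := nc_one hc ⟨a, ha⟩
  unfold exc
  rw [h2, h1]
  push_cast
  ring

theorem exc_cld {s t : ℕ} {U W : Finset V} (hW : Cld S U W) :
    exc S (s + t) U = exc S s W + exc S t (U \ W) := by
  have h1 := nc_cld hW
  have h2 : U.card = W.card + (U \ W).card := by
    rw [Finset.card_sdiff_of_subset hW.1]
    have := Finset.card_le_card hW.1
    omega
  unfold exc
  rw [h1, h2]
  push_cast
  ring

/-- The link of `a`: only the factor of `a` changes. -/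
theorem nb_cp (h : HS k S d) {r : ℕ} {U : Finset V} (hU : LS S d r U) {a : V} (ha : a ∈ U) :
    nk S U a = nk S (cp S U a) a ∧ Cld S (nb S U a) (nb S (cp S U a) a) ∧
      nb S U a \ nb S (cp S U a) a = U \ cp S U a := by
  have hC := cp_cps (S := S) ha
  have haC : a ∈ cp S U a := mem_cp_self ha
  have hsub : cp S U a ⊆ U := cp_sub
  refine ⟨?_, ⟨?_, ?_⟩, ?_⟩
  · ext x
    rw [mem_nk, mem_nk]
    constructor
    · rintro ⟨hx, hxa⟩
      refine ⟨?_, hxa⟩
      by_contra hxC
      exact hxa (pair_symm (cps_adj hC haC hx hxC))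
    · rintro ⟨hx, hxa⟩
      exact ⟨hsub hx, hxa⟩
  · intro x hx
    rw [mem_nb] at hx ⊢
    exact ⟨hsub hx.1, hx.2⟩
  · intro x hx z hz
    rw [Finset.mem_sdiff, mem_nb, mem_nb] at hz
    rw [mem_nb] at hx
    exact cps_adj hC hx.1 hz.1.1 (fun h' => hz.2 ⟨h', hz.1.2⟩)
  · ext x
    rw [Finset.mem_sdiff, Finset.mem_sdiff, mem_nb, mem_nb]
    constructor
    · rintro ⟨hx1, hx2⟩
      exact ⟨hx1.1, fun h' => hx2 ⟨h', hx1.2⟩⟩
    · rintro ⟨hx1, hx2⟩
      refine ⟨⟨hx1, ?_, pair_symm (cps_adj hC haC hx1 hx2)⟩, fun h' => hx2 h'.1⟩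
      rintro rfl
      exact hx2 haC

theorem exc_mono (h : HS k S d) {r : ℕ} {U : Finset V} (hU : LS S d (r + 1) U) {a : V}
    (ha : a ∈ U) : exc S r (nb S U a) ≤ exc S (r + 1) U := by
  have hC := cp_cps (S := S) ha
  have haC : a ∈ cp S U a := mem_cp_self ha
  obtain ⟨s', t, hst, hs, ht⟩ := LS.cld h hU (cps_cld hC)
  obtain ⟨-, h2, h3⟩ := nb_cp h hU ha
  match s', hst, hs with
  | 0, _, hs =>
    exfalso
    have := (LS.zero h hs).mpr rfl
    rw [this] at haC
    exact Finset.notMem_empty _ haC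
  | (s + 1), hst, hs =>
    have hr : r = s + t := by omega
    have e1 : exc S (r + 1) U = exc S (s + 1) (cp S U a) + exc S t (U \ cp S U a) := by
      rw [← hst]
      exact exc_cld (cps_cld hC)
    have e2 : exc S r (nb S U a) =
        exc S s (nb S (cp S U a) a) + exc S t (U \ cp S U a) := by
      rw [hr, ← h3]
      exact exc_cld h2
    have e3 := exc_con h hs (cps_con hC) haC
    have e4 := nk_ge h hs (cps_con hC) haC
    have e5 : (nc S (nb S (cp S U a) a) : ℤ) + 1 ≤ ((nk S (cp S U a) a).card : ℤ) := by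
      exact_mod_cast e4
    rw [e1, e2, e3]
    linarith

theorem exc_nonneg (h : HS k S d) {r : ℕ} {U : Finset V} (hU : LS S d r U) :
    0 ≤ exc S r U := by
  induction r generalizing U with
  | zero =>
    have h0 := (LS.zero h hU).mpr rfl
    unfold exc
    rw [h0, nc_empty]
    simp
  | succ r ih =>
    have hne : U.Nonempty := by
      rw [Finset.nonempty_iff_ne_empty]
      intro h0
      have := (LS.zero h hU).mp h0
      omega
    obtain ⟨a, ha⟩ := hne
    obtain ⟨s, hs, hs2⟩ := LS.nb h hU ha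
    have hsr : s = r := by omega
    rw [hsr] at hs2
    exact (ih hs2).trans (exc_mono h hU ha)

theorem exc_cps (h : HS k S d) {r ρ : ℕ} {U A : Finset V} (hU : LS S d r U)
    (hA : A ∈ cps S U) (hρ : LS S d ρ A) : exc S ρ A ≤ exc S r U := by
  obtain ⟨s, t, hst, hs, ht⟩ := LS.cld h hU (cps_cld hA)
  have hsρ := LS.uniq h hs hρ
  have e1 : exc S r U = exc S s A + exc S t (U \ A) := by
    rw [← hst]
    exact exc_cld (cps_cld hA)
  have e2 := exc_nonneg h ht
  rw [e1, hsρ]
  linarith

/-- A vertex of a sphere of excess zero is a tight vertex of its factor. -/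
theorem ti_of_zero (h : HS k S d) {r : ℕ} {U : Finset V} (hU : LS S d r U)
    (h0 : exc S r U = 0) {a : V} (ha : a ∈ U) : Ti S (cp S U a) a := by
  have hC := cp_cps (S := S) ha
  have haC : a ∈ cp S U a := mem_cp_self ha
  obtain ⟨s', t, hst, hs, ht⟩ := LS.cld h hU (cps_cld hC)
  refine ⟨haC, cps_con hC, ?_⟩
  match s', hst, hs with
  | 0, _, hs =>
    exfalso
    have := (LS.zero h hs).mpr rfl
    rw [this] at haC
    exact Finset.notMem_empty _ haC
  | (s + 1), hst, hs =>
    have e1 := exc_cps h hU hC hs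
    have e2 := exc_nonneg h hs
    have e3 := exc_con h hs (cps_con hC) haC
    have e4 := nk_ge h hs (cps_con hC) haC
    have e5 : (nc S (nb S (cp S U a) a) : ℤ) + 1 ≤ ((nk S (cp S U a) a).card : ℤ) := by
      exact_mod_cast e4
    obtain ⟨s2, hs2, hs3⟩ := LS.nb h hs haC
    have hss : s2 = s := by omega
    rw [hss] at hs3
    have e6 := exc_nonneg h hs3
    have e7 : ((nk S (cp S U a) a).card : ℤ) = (nc S (nb S (cp S U a) a) : ℤ) + 1 := by
      linarith
    exact_mod_cast e7

end Pool.Agent.MP19e880.TT
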