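import Pool.Agent.Lib.MP_19e880_co_TT.MainG
import Pool.Agent.Lib.MP_19e880_co.Few

/-!
The class of spheres, from the hypotheses of the final statement.
-/

set_option autoImplicit false
set_option linter.unusedSectionVars false

namespace Pool.Agent.MP19e880.TT

variable {V : Type} [Fintype V] [LinearOrder V] {k : Type} [Field k]
  {S : Finset (Finset V)} {d : ℕ}

theorem mem_lv_empty {x : V} : x ∈ lv S ∅ ↔ ({x} : Finset V) ∈ S := by
  rw [mem_lv, insert_empty_eq]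
  simp

/-- Spheres with few vertices are in the class. -/
theorem cls_few (h : HS k S d) (hn : (lv S ∅).card ≤ 2 * d + 7) : Cls S d 2 (lv S ∅) := by
  intro A hA ρ hρ
  obtain ⟨s, t, hst, hs, ht⟩ := LS.cld h (LS.top h) (cps_cld hA)
  have h1 := LS.uniq h hρ hs
  have h2 := LS.two_mul h ht
  have h3 := Finset.card_sdiff_of_subset (cps_sub hA)
  have h4 := Finset.card_le_card (cps_sub hA)
  by_cases h5 : ρ ≤ 5
  · exact Or.inl h5
  · right
    omega

/-- The class in terms of the faces of the factors. -/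
theorem cls_fac (h : HS k S d)
    (hf : ∀ A : Finset V, A.Nonempty → (∀ a ∈ A, ({a} : Finset V) ∈ S) →
      (∀ a ∈ A, ∀ b : V, ({b} : Finset V) ∈ S → b ∉ A → ({a, b} : Finset V) ∈ S) →
      (∀ B : Finset V, B ⊆ A → B.Nonempty → B ≠ A →
        ∃ a ∈ B, ∃ b ∈ A \ B, ({a, b} : Finset V) ∉ S) →
      (∀ F ∈ S, F ⊆ A → F.card ≤ 5) ∨ (∃ F ∈ S, F ⊆ A ∧ A.card ≤ 3 * F.card + 1)) :
    Cls S d 2 (lv S ∅) := by
  intro A hA ρ hρ
  have hsub := cps_sub hA
  rcases hf A (cps_ne hA) (fun a ha => mem_lv_empty.mp (hsub ha))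
    (fun a ha b hb hbA => cps_adj hA ha (mem_lv_empty.mpr hb) hbA)
    (fun B hB hBn hBA => cps_con hA B hB hBn hBA) with h1 | ⟨F, hF, hFA, hc⟩
  · left
    have h0 : (∅ : Finset V) ∈ S := h.flag ∅ (by simp)
    obtain ⟨G, _, hGA, hG, hGc⟩ := LS.facet h hρ (Finset.empty_subset A) h0
    rw [← hGc]
    exact h1 G hG hGA
  · right
    have h2 := LS.face h hρ hFA hF
    omega

/-- The final form. -/
theorem final (h : HS k S d)
    (hf : (lv S ∅).card ≤ 2 * d + 7 ∨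
      ∀ A : Finset V, A.Nonempty → (∀ a ∈ A, ({a} : Finset V) ∈ S) →
      (∀ a ∈ A, ∀ b : V, ({b} : Finset V) ∈ S → b ∉ A → ({a, b} : Finset V) ∈ S) →
      (∀ B : Finset V, B ⊆ A → B.Nonempty → B ≠ A →
        ∃ a ∈ B, ∃ b ∈ A \ B, ({a, b} : Finset V) ∉ S) →
      (∀ F ∈ S, F ⊆ A → F.card ≤ 5) ∨ (∃ F ∈ S, F ⊆ A ∧ A.card ≤ 3 * F.card + 1)) :
    Cone d (H S d ∅) := by
  refine main_G (lv S ∅).card d S h le_rfl ?_
  rcases hf with hf | hf
  · exact cls_few h hf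
  · exact cls_fac h hf

end Pool.Agent.MP19e880.TT
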