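import Pool.Agent.Lib.MP_19e880_co_TT.ApiA
import Pool.Agent.Lib.MP_19e880_co_TT.CpsA

/-!
Joins.
-/

set_option autoImplicit false
set_option linter.unusedSectionVars false

namespace Pool.Agent.MP19e880.TT

open Polynomial

variable {V : Type} [Fintype V] [LinearOrder V] {k : Type} [Field k]
  {S : Finset (Finset V)} {d : ℕ}

/-- A reducible sphere is a join, one factor being the component of `v`. -/
theorem join_G (h : HS k S d) (hc : ¬ Con S (lv S ∅)) {v : V} (hv : v ∈ lv S ∅) :
    ∃ ρ ∈ S, ∃ τ ∈ S, lv S ρ = cp S (lv S ∅) v ∧ lv S τ = lv S ∅ \ cp S (lv S ∅) v ∧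
      ρ.card + τ.card = d ∧ H S d ∅ = H S d ρ * H S d τ ∧
      H S d {v} = H S d (insert v ρ) * H S d τ := by
  have hE := eul_of_hs h
  have hA : Cld S (lv S ∅) (cp S (lv S ∅) v) := cp_cld S _ v
  have hvA : v ∈ cp S (lv S ∅) v := mem_cp_self hv
  generalize cp S (lv S ∅) v = A at hA hvA
  have hv2 : ({v} : Finset V) ∈ S := by
    have h1 := ((mem_lv ∅ v).mp hv).2
    rwa [insert_empty_eq] at h1
  have h0 : (∅ : Finset V) ∈ S := h.down _ hv2 _ (Finset.empty_subset _)
  obtain ⟨G, hG1, hG2, hG3, hG4⟩ :=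
    LS.facet h (LS.top h) (Finset.singleton_subset_iff.mpr hv) hv2
  have hvG : v ∈ G := Finset.singleton_subset_iff.mp hG1
  have hP : Fac S d ∅ G := ⟨Finset.disjoint_empty_right _, by rwa [Finset.union_empty],
    by rw [Finset.card_empty]; omega⟩
  obtain ⟨a1, a2, a3⟩ := split h hE h0 hP hA
  obtain ⟨b1, b2, b3⟩ := split h hE h0 hP hA.sdiff
  rw [Finset.union_empty] at a1 a2 a3 b1 b2
  have hGA : G \ (lv S ∅ \ A) = G ∩ A := by
    ext x
    rw [Finset.mem_sdiff, Finset.mem_sdiff, Finset.mem_inter]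
    constructor
    · rintro ⟨hx, hx2⟩
      refine ⟨hx, ?_⟩
      by_contra hxA
      exact hx2 ⟨hG2 hx, hxA⟩
    · rintro ⟨hx, hx2⟩
      exact ⟨hx, fun h' => h'.2 hx2⟩
  rw [hGA] at b1 b2
  have hdis : Disjoint (G ∩ A) (G \ A) := by
    rw [Finset.disjoint_left]
    intro x hx hx2
    exact (Finset.mem_sdiff.mp hx2).2 (Finset.mem_inter.mp hx).2
  have huni : (G ∩ A) ∪ (G \ A) = G := by
    rw [Finset.union_comm]
    exact Finset.sdiff_union_inter G A
  have hvI : v ∈ G ∩ A := Finset.mem_inter.mpr ⟨hvG, hvA⟩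
  -- adjacency of the two parts
  have hadj : ∀ x ∈ lv S ∅, x ∉ A → ∀ y ∈ A, ({x, y} : Finset V) ∈ S := by
    intro x hx hxA y hy
    exact pair_symm (hA.2 y hy x (Finset.mem_sdiff.mpr ⟨hx, hxA⟩))
  refine ⟨G \ A, a1, G ∩ A, b1, a2, b2, ?_, ?_, ?_⟩
  · omega
  · have key := H_join hE ∅ (G \ A) (Finset.empty_subset _) a1 ?_ (G ∩ A) hdis
      (by rw [huni]; exact hG3) (by omega)
    · rw [Finset.union_empty] at key
      exact key
    · intro x y hx0 hx1 hx2 hy1 hy2
      have hxU : x ∈ lv S ∅ := (mem_lv ∅ x).mpr ⟨hx0, hx1⟩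
      have hyA : y ∈ A := by
        rw [← a2]
        exact (mem_lv _ y).mpr ⟨hy1, hy2⟩
      refine hadj x hxU ?_ y hyA
      intro hxA
      rw [← a2, mem_lv] at hxA
      rcases hx2 with hx2 | hx2
      · exact hx2 hxA.2
      · exact hxA.1 hx2
  · have hvn : v ∉ G \ A := fun h' => (Finset.mem_sdiff.mp h').2 hvA
    have hins : insert v (G \ A) ∈ S := hE.down _ hG3 _
      (Finset.insert_subset hvG Finset.sdiff_subset)
    have hcard : ((G ∩ A).erase v).card + (insert v (G \ A)).card = d := by
      rw [Finset.card_erase_of_mem hvI, Finset.card_insert_of_notMem hvn]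
      have : 0 < (G ∩ A).card := Finset.card_pos.mpr ⟨v, hvI⟩
      omega
    have hdis2 : Disjoint ((G ∩ A).erase v) (insert v (G \ A)) := by
      rw [Finset.disjoint_insert_right]
      exact ⟨Finset.notMem_erase _ _,
        Finset.disjoint_of_subset_left (Finset.erase_subset _ _) hdis⟩
    have huni2 : (G ∩ A).erase v ∪ insert v (G \ A) = G := by
      rw [Finset.union_insert, ← Finset.insert_union, Finset.insert_erase hvI, huni]
    have huni3 : (G ∩ A).erase v ∪ {v} = G ∩ A := by
      rw [Finset.union_comm, ← Finset.insert_eq, Finset.insert_erase hvI]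
    have key := H_join hE {v} (insert v (G \ A))
      (Finset.singleton_subset_iff.mpr (Finset.mem_insert_self _ _)) hins ?_
      ((G ∩ A).erase v) hdis2 (by rw [huni2]; exact hG3) hcard
    · rw [huni3] at key
      exact key
    · intro x y hx0 hx1 hx2 hy1 hy2
      have hxv : x ≠ v := fun h' => hx0 (Finset.mem_singleton.mpr h')
      have hxU : x ∈ lv S ∅ := by
        refine (mem_lv ∅ x).mpr ⟨Finset.notMem_empty _, hE.down _ hx1 _ ?_⟩
        exact Finset.insert_subset_insert _ (Finset.empty_subset _)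
      rw [Finset.mem_insert, not_or] at hy1
      have hyA : y ∈ A := by
        rw [← a2]
        refine (mem_lv _ y).mpr ⟨hy1.2, hE.down _ hy2 _ ?_⟩
        exact Finset.insert_subset_insert _ (Finset.subset_insert _ _)
      refine hadj x hxU ?_ y hyA
      intro hxA
      have hxl : x ∈ lv S (G \ A) := by rw [a2]; exact hxA
      have hvl : v ∈ lv S (G \ A) := by rw [a2]; exact hvA
      rcases hx2 with hx2 | hx2
      · apply hx2
        have hpair : ({x, v} : Finset V) ∈ S := hx1
        have h1 : insert x (insert v (G \ A)) ∈ S := by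
          have h2 := lv_flag hE (G \ A) {x, v} a1 (by
            intro z hz
            rw [Finset.mem_insert, Finset.mem_singleton] at hz
            rcases hz with rfl | rfl
            · exact hxl
            · exact hvl) (fun a ha b hb => pair_mem hE _ hpair a b ha hb)
          rw [Finset.insert_union, ← Finset.insert_eq] at h2
          exact h2
        exact h1
      · rw [Finset.mem_insert] at hx2
        rcases hx2 with hx2 | hx2
        · exact hxv hx2
        · exact ((mem_lv _ x).mp hxl).1 hx2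

end Pool.Agent.MP19e880.TT
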