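import Pool.Agent.Lib.MP_19e880_co_TT.Lam

/-!
Tight vertices: every factor has exactly two kinds.
-/

set_option autoImplicit false
set_option linter.unusedSectionVars false

namespace Pool.Agent.MP19e880.TT

variable {V : Type} [Fintype V] [LinearOrder V] {k : Type} [Field k]
  {S : Finset (Finset V)} {d : ℕ}

/-- A member of a factor contributes to `XX`. -/
theorem Mp_sub_XX {U : Finset V} {a p : V} (hp : p ∈ nb S U a) :
    Mp S U a p ⊆ XX S U a {cp S (nb S U a) p} := by
  intro x hx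
  rw [mem_Mp] at hx
  rw [mem_XX]
  exact ⟨hx.1, _, Finset.mem_singleton_self _, p, mem_cp_self hp, hx.2⟩

private theorem Kinds_mono {U : Finset V} {a : V} {I J : Finset (Finset V)} (hIJ : I ⊆ J) :
    XX S U a I ⊆ XX S U a J := by
  intro x hx
  rw [mem_XX] at hx ⊢
  obtain ⟨h1, A, h2, h3⟩ := hx
  exact ⟨h1, A, hIJ h2, h3⟩

private theorem Kinds_union {U : Finset V} {a : V} {I J : Finset (Finset V)} :
    XX S U a (I ∪ J) = XX S U a I ∪ XX S U a J := by
  ext x
  rw [Finset.mem_union, mem_XX, mem_XX, mem_XX]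
  constructor
  · rintro ⟨h1, A, h2, h3⟩
    rcases Finset.mem_union.mp h2 with h2 | h2
    · exact Or.inl ⟨h1, A, h2, h3⟩
    · exact Or.inr ⟨h1, A, h2, h3⟩
  · rintro (⟨h1, A, h2, h3⟩ | ⟨h1, A, h2, h3⟩)
    · exact ⟨h1, A, Finset.mem_union_left _ h2, h3⟩
    · exact ⟨h1, A, Finset.mem_union_right _ h2, h3⟩

private theorem Kinds_Ip {U : Finset V} {a y : V} : XX S U a (Ip S U a y) ⊆ Mp S U a y := by
  intro x hx
  rw [mem_XX] at hx
  obtain ⟨h1, B, h2, z, h3, h4⟩ := hx
  rw [mem_Ip] at h2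
  rw [mem_Mp]
  exact ⟨h1, h2.2.2 z h3 x h1 h4⟩

private theorem Kinds_Mp {U A : Finset V} {a y : V} (hy : y ∈ A) :
    Mp S U a y ⊆ XX S U a {A} := by
  intro x hx
  rw [mem_Mp] at hx
  rw [mem_XX]
  exact ⟨hx.1, A, Finset.mem_singleton_self _, y, hy, hx.2⟩

theorem two_kinds (h : HS k S d) {r : ℕ} {U : Finset V} (hU : LS S d r U) {a : V}
    (ht : Ti S U a) {A : Finset V} (hA : A ∈ cps S (nb S U a)) :
    ∃ p ∈ A, ∃ q ∈ A, (Mp S U a p).Nonempty ∧ (Mp S U a q).Nonempty ∧
      Disjoint (Mp S U a p) (Mp S U a q) ∧ XX S U a {A} = Mp S U a p ∪ Mp S U a q ∧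
      XX S U a (insert A (Ip S U a p ∪ Ip S U a q)) = XX S U a {A} := by
  classical
  have hsubN : ∀ B ∈ cps S (nb S U a), ∀ y ∈ B, y ∈ nb S U a := fun B hB y hy => cps_sub hB hy
  have hbound : ∀ I : Finset (Finset V), I ⊆ cps S (nb S U a) → I.Nonempty →
      I.card + 1 ≤ (XX S U a I).card := fun I hI hIn => XX_bound h hU ht.2.1 ht.1 hI hIn
  have hIpsub : ∀ y, Ip S U a y ⊆ cps S (nb S U a) := fun y B hB => (mem_Ip.mp hB).1
  -- (1) the members `p`, `q`
  have h1 : (XX S U a {A}).Nonempty := by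
    rw [← Finset.card_pos]
    have := hbound {A} (Finset.singleton_subset_iff.mpr hA) (Finset.singleton_nonempty _)
    omega
  obtain ⟨x, hx⟩ := h1
  have hx' := mem_XX.mp hx
  obtain ⟨hxK, A', hA', p, hpA', hxp⟩ := hx'
  rw [Finset.mem_singleton] at hA'
  rw [hA'] at hpA'
  have hpN := hsubN A hA p hpA'
  have hcpp : cp S (nb S U a) p = A := cps_cp hA hpA'
  obtain ⟨q, hqA, x', hx'K, hx'p, hx'q⟩ := ti_XA h hU ht hpN
  rw [hcpp] at hqA
  have hqN := hsubN A hA q hqA
  have hMp : (Mp S U a p).Nonempty := ⟨x, mem_Mp.mpr ⟨hxK, hxp⟩⟩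
  have hMq : (Mp S U a q).Nonempty := ⟨x', mem_Mp.mpr ⟨hx'K, hx'q⟩⟩
  have hke : ∀ y z, y ∈ A → z ∈ A → (Mp S U a y).Nonempty → (Mp S U a z).Nonempty →
      Mp S U a y = Mp S U a z ∨ Disjoint (Mp S U a y) (Mp S U a z) := by
    intro y z hy hz hMy hMz
    refine kinds_eq h hU ht (hsubN A hA y hy) ?_ hMy hMz
    rw [cps_cp hA hy]
    exact hz
  have hdis : Disjoint (Mp S U a p) (Mp S U a q) := by
    rcases hke p q hpA' hqA hMp hMq with h2 | h2
    · exfalso
      have h3 : x' ∈ Mp S U a p := by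
        rw [h2]
        exact mem_Mp.mpr ⟨hx'K, hx'q⟩
      exact (mem_Mp.mp h3).2 hx'p
    · exact h2
  refine ⟨p, hpA', q, hqA, hMp, hMq, hdis, ?_, ?_⟩
  swap
  · -- the last claim
    refine Finset.Subset.antisymm ?_ ?_
    · rw [Finset.insert_eq, Kinds_union, Kinds_union]
      refine Finset.union_subset (Finset.Subset.refl _) (Finset.union_subset ?_ ?_)
      · exact Kinds_Ip.trans (Kinds_Mp hpA')
      · exact Kinds_Ip.trans (Kinds_Mp hqA)
    · exact Kinds_mono (Finset.singleton_subset_iff.mpr (Finset.mem_insert_self _ _))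
  -- (2) the minimal tight family
  set CC := cps S (nb S U a) with hCC
  set TT := CC.powerset.filter (fun T => A ∈ T ∧ (XX S U a T).card = T.card + 1) with hTT
  have hCCin : CC ∈ TT := by
    rw [hTT, Finset.mem_filter, Finset.mem_powerset]
    refine ⟨Finset.Subset.refl _, hA, ?_⟩
    have h2 := hbound CC (Finset.Subset.refl _) ⟨A, hA⟩
    have h3 : (XX S U a CC).card ≤ (nk S U a).card := by
      refine Finset.card_le_card ?_
      intro y hy
      exact (mem_XX.mp hy).1
    have h4 := ht.2.2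
    unfold nc at h4
    rw [← hCC] at h4
    omega
  obtain ⟨T, hT, hTmin⟩ := Finset.exists_min_image TT (fun T => T.card) ⟨CC, hCCin⟩
  rw [hTT, Finset.mem_filter, Finset.mem_powerset] at hT
  obtain ⟨hTC, hAT, hTc⟩ := hT
  -- (3)
  have hXA : XX S U a {A} ⊆ XX S U a T := Kinds_mono (Finset.singleton_subset_iff.mpr hAT)
  have hIT : ∀ y ∈ A, Ip S U a y ⊆ T := by
    intro y hy
    have h2 : XX S U a (Ip S U a y ∪ T) = XX S U a T := by
      rw [Kinds_union]
      exact Finset.union_eq_right.mpr ((Kinds_Ip.trans (Kinds_Mp hy)).trans hXA)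
    have h3 := hbound (Ip S U a y ∪ T) (Finset.union_subset (hIpsub y) hTC)
      ⟨A, Finset.mem_union_right _ hAT⟩
    rw [h2, hTc] at h3
    have h4 : Ip S U a y ∪ T = T :=
      (Finset.eq_of_subset_of_card_le Finset.subset_union_right (by omega)).symm
    exact Finset.union_eq_right.mp h4
  -- (4)
  set T0 := insert A (T.filter (fun C => ∃ y ∈ A, C ∈ Ip S U a y)) with hT0
  have hT0T : T0 ⊆ T := by
    rw [hT0]
    exact Finset.insert_subset hAT (Finset.filter_subset _ _)
  have hXT0 : XX S U a T0 = XX S U a {A} := by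
    refine Finset.Subset.antisymm ?_
      (Kinds_mono (Finset.singleton_subset_iff.mpr (Finset.mem_insert_self _ _)))
    intro y hy
    obtain ⟨h2, C, h3, z, h4, h5⟩ := mem_XX.mp hy
    rw [hT0, Finset.mem_insert, Finset.mem_filter] at h3
    rcases h3 with h3 | ⟨-, u, h6, h7⟩
    · rw [h3] at h4
      exact mem_XX.mpr ⟨h2, A, Finset.mem_singleton_self _, z, h4, h5⟩
    · exact Kinds_Mp h6 (Kinds_Ip (mem_XX.mpr ⟨h2, C, h7, z, h4, h5⟩))
  have hR : ∀ C ∈ T \ T0, Disjoint (XX S U a {C}) (XX S U a {A}) := by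
    intro C hC
    rw [Finset.mem_sdiff] at hC
    have hCC' : C ∈ cps S (nb S U a) := hTC hC.1
    have hCA : C ≠ A := by
      intro h2
      exact hC.2 (by rw [hT0, h2]; exact Finset.mem_insert_self _ _)
    have hCAd := cps_disj hCC' hA hCA
    rw [Finset.disjoint_left]
    intro x hxC hxA
    obtain ⟨h2, C', h3, c, h4, h5⟩ := mem_XX.mp hxC
    rw [Finset.mem_singleton] at h3
    rw [h3] at h4
    obtain ⟨-, A', h6, y, h7, h8⟩ := mem_XX.mp hxA
    rw [Finset.mem_singleton] at h6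
    rw [h6] at h7
    have hcN := hsubN C hCC' c h4
    have hyN := hsubN A hA y h7
    have hyC : y ∉ cp S (nb S U a) c := by
      rw [cps_cp hCC' h4]
      exact fun h9 => Finset.disjoint_left.mp hCAd h9 h7
    have hcA : c ∉ cp S (nb S U a) y := by
      rw [cps_cp hA h7]
      exact fun h9 => Finset.disjoint_left.mp hCAd h4 h9
    have hxMc : x ∈ Mp S U a c := mem_Mp.mpr ⟨h2, h5⟩
    have hxMy : x ∈ Mp S U a y := mem_Mp.mpr ⟨h2, h8⟩
    rcases lam h hU ht hcN hyN with h9 | h9 | h9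
    · have h10 := lemN h hU ht hyN hcN hyC ⟨x, hxMc⟩ h9
      rw [cps_cp hCC' h4] at h10
      refine hC.2 ?_
      rw [hT0, Finset.mem_insert, Finset.mem_filter]
      exact Or.inr ⟨hC.1, y, h7, h10⟩
    · have h10 := lemN h hU ht hcN hyN hcA ⟨x, hxMy⟩ h9
      rw [cps_cp hA h7] at h10
      have h11 := ti_XX h hU ht hcN ⟨A, h10⟩
      have h12 := (ti_ne h hU ht hcN ⟨x, hxMc⟩).2
      have hATc : A ∈ T ∩ Ip S U a c := Finset.mem_inter.mpr ⟨hAT, h10⟩
      have h13 := hbound (T ∩ Ip S U a c) (Finset.inter_subset_left.trans hTC) ⟨A, hATc⟩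
      have h14 := hbound (T ∪ Ip S U a c) (Finset.union_subset hTC (hIpsub c))
        ⟨A, Finset.mem_union_left _ hAT⟩
      have h15 : (XX S U a (T ∩ Ip S U a c)).card ≤
          (XX S U a T ∩ XX S U a (Ip S U a c)).card := by
        refine Finset.card_le_card (Finset.subset_inter ?_ ?_)
        · exact Kinds_mono Finset.inter_subset_left
        · exact Kinds_mono Finset.inter_subset_right
      have h16 := Finset.card_union_add_card_inter (XX S U a T) (XX S U a (Ip S U a c))
      have h17 := Finset.card_union_add_card_inter T (Ip S U a c)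
      rw [← Kinds_union, h11, hTc, h12] at h16
      rw [h11] at h15
      have h18 : T ∩ Ip S U a c ∈ TT := by
        rw [hTT, Finset.mem_filter, Finset.mem_powerset]
        exact ⟨Finset.inter_subset_left.trans hTC, hATc, by omega⟩
      have h19 := hTmin _ h18
      have h20 : T ∩ Ip S U a c = T :=
        Finset.eq_of_subset_of_card_le Finset.inter_subset_left h19
      have h21 : C ∈ Ip S U a c := (Finset.inter_eq_left.mp h20) hC.1
      exact (mem_Ip.mp h21).2.1 h4
    · exact Finset.disjoint_left.mp h9 hxMc hxMy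
  have hTT0 : T = T0 := by
    by_contra hne
    have hRn : (T \ T0).Nonempty := by
      rw [Finset.sdiff_nonempty]
      exact fun h2 => hne (Finset.Subset.antisymm h2 hT0T)
    have h2 := hbound (T \ T0) (Finset.sdiff_subset.trans hTC) hRn
    have h3 := hbound T0 (hT0T.trans hTC) ⟨A, Finset.mem_insert_self _ _⟩
    have h4 : Disjoint (XX S U a (T \ T0)) (XX S U a T0) := by
      rw [hXT0, Finset.disjoint_left]
      intro y hy hy'
      obtain ⟨h5, C, h6, z, h7, h8⟩ := mem_XX.mp hy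
      exact Finset.disjoint_left.mp (hR C h6)
        (mem_XX.mpr ⟨h5, C, Finset.mem_singleton_self _, z, h7, h8⟩) hy'
    have h5 := Finset.card_union_of_disjoint h4
    have h6 : (XX S U a (T \ T0) ∪ XX S U a T0).card ≤ (XX S U a T).card :=
      Finset.card_le_card (Finset.union_subset (Kinds_mono Finset.sdiff_subset)
        (Kinds_mono hT0T))
    have h7 := Finset.card_sdiff_add_card_eq_card hT0T
    omega
  have hXTA : XX S U a T = XX S U a {A} := by
    rw [hTT0]
    exact hXT0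
  -- (5)
  refine Finset.Subset.antisymm ?_ (Finset.union_subset (Kinds_Mp hpA') (Kinds_Mp hqA))
  by_contra hnsub
  have hZn : (XX S U a {A} \ (Mp S U a p ∪ Mp S U a q)).Nonempty :=
    Finset.sdiff_nonempty.mpr hnsub
  have hAp : A ∉ Ip S U a p := fun h2 => (mem_Ip.mp h2).2.1 hpA'
  have hAq : A ∉ Ip S U a q := fun h2 => (mem_Ip.mp h2).2.1 hqA
  have hIdis : Disjoint (Ip S U a p) (Ip S U a q) := by
    rw [Finset.disjoint_left]
    intro C h2 h3
    have h4 := hbound {C} (Finset.singleton_subset_iff.mpr (hIpsub p h2))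
      (Finset.singleton_nonempty _)
    have h5 : (XX S U a {C}).Nonempty := by
      rw [← Finset.card_pos]
      omega
    obtain ⟨y, hy⟩ := h5
    exact Finset.disjoint_left.mp hdis
      (Kinds_Ip (Kinds_mono (Finset.singleton_subset_iff.mpr h2) hy))
      (Kinds_Ip (Kinds_mono (Finset.singleton_subset_iff.mpr h3) hy))
  have hins : insert A (Ip S U a p ∪ Ip S U a q) ⊆ T :=
    Finset.insert_subset hAT (Finset.union_subset (hIT p hpA') (hIT q hqA))
  have hc1 : (insert A (Ip S U a p ∪ Ip S U a q)).card =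
      (Ip S U a p).card + (Ip S U a q).card + 1 := by
    rw [Finset.card_insert_of_notMem (fun h2 => (Finset.mem_union.mp h2).elim hAp hAq),
      Finset.card_union_of_disjoint hIdis]
  have hc2 := Finset.card_sdiff_add_card_eq_card hins
  have hc3 := (ti_ne h hU ht hpN hMp).2
  have hc4 := (ti_ne h hU ht hqN hMq).2
  have hc5 := Finset.card_sdiff_add_card_eq_card
    (Finset.union_subset (Kinds_Mp (S := S) (U := U) (a := a) hpA') (Kinds_Mp hqA))
  rw [Finset.card_union_of_disjoint hdis, ← hXTA, hTc, hXTA] at hc5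
  have hnot : ∀ C ∈ T \ insert A (Ip S U a p ∪ Ip S U a q), ∀ y ∈ A, C ∈ Ip S U a y →
      ∀ z ∈ A, (Mp S U a z).Nonempty → C ∉ Ip S U a z → ∀ x ∈ Mp S U a y, x ∉ Mp S U a z := by
    intro C hC y hy hCy z hz hMz hCz x hxy hxz
    rw [Finset.mem_sdiff, Finset.mem_insert, not_or] at hC
    rcases hke z y hz hy hMz ⟨x, hxy⟩ with h2 | h2
    · refine hCz (mem_Ip.mpr ⟨hTC hC.1, ?_, ?_⟩)
      · exact fun h3 => Finset.disjoint_left.mp (cps_disj (hTC hC.1) hA hC.2.1) h3 hz
      · intro u hu v hv huv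
        have h3 : v ∈ Mp S U a y := Kinds_Ip (mem_XX.mpr ⟨hv, C, hCy, u, hu, huv⟩)
        rw [← h2] at h3
        exact (mem_Mp.mp h3).2
    · exact Finset.disjoint_left.mp h2 hxz hxy
  by_cases hIr : (T \ insert A (Ip S U a p ∪ Ip S U a q)).Nonempty
  · have h2 := hbound _ (Finset.sdiff_subset.trans hTC) hIr
    have h3 : XX S U a (T \ insert A (Ip S U a p ∪ Ip S U a q)) ⊆
        XX S U a {A} \ (Mp S U a p ∪ Mp S U a q) := by
      intro x hx
      obtain ⟨h4, C, h5, z, h6, h7⟩ := mem_XX.mp hx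
      have h5' := Finset.mem_sdiff.mp h5
      have h8 : C ∈ T0 := by
        rw [← hTT0]
        exact h5'.1
      have h9 : C ∉ insert A (Ip S U a p ∪ Ip S U a q) := h5'.2
      rw [Finset.mem_insert, Finset.mem_union, not_or, not_or] at h9
      rw [hT0, Finset.mem_insert, Finset.mem_filter] at h8
      rcases h8 with h8 | ⟨-, y, h10, h11⟩
      · exact absurd h8 h9.1
      · have h12 : x ∈ Mp S U a y := Kinds_Ip (mem_XX.mpr ⟨h4, C, h11, z, h6, h7⟩)
        rw [Finset.mem_sdiff, Finset.mem_union, not_or]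
        exact ⟨Kinds_Mp h10 h12, hnot C h5 y h10 h11 p hpA' hMp h9.2.1 x h12,
          hnot C h5 y h10 h11 q hqA hMq h9.2.2 x h12⟩
    have h4 := Finset.card_le_card h3
    omega
  · rw [Finset.not_nonempty_iff_eq_empty] at hIr
    rw [hIr, Finset.card_empty] at hc2
    have h2 := Finset.card_pos.mpr hZn
    omega

end Pool.Agent.MP19e880.TT
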