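import Pool.Agent.Lib.MP_19e880_co_TT.DropB

/-!
Tight vertices: the sets `Mp` form a laminar family.
-/

set_option autoImplicit false
set_option linter.unusedSectionVars false

namespace Pool.Agent.MP19e880.TT

variable {V : Type} [Fintype V] [LinearOrder V] {k : Type} [Field k]
  {S : Finset (Finset V)} {d : ℕ}

private theorem lam_XX_mono {U : Finset V} {a : V} {I J : Finset (Finset V)} (hIJ : I ⊆ J) :
    XX S U a I ⊆ XX S U a J := by
  intro x hx
  obtain ⟨h1, A, hA, y, hy, hxy⟩ := mem_XX.mp hx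
  exact mem_XX.mpr ⟨h1, A, hIJ hA, y, hy, hxy⟩

private theorem lam_Ip_sub {U : Finset V} {a p : V} : Ip S U a p ⊆ cps S (nb S U a) :=
  fun _ hA => (mem_Ip.mp hA).1

/-- The common claim. -/
private theorem lam_c (h : HS k S d) {r : ℕ} {U : Finset V} (hU : LS S d r U) {a p q : V}
    (ht : Ti S U a) (hp : p ∈ nb S U a) (hq : q ∈ nb S U a) (hMq : (Mp S U a q).Nonempty)
    (hn : ∀ A ∈ Ip S U a q, p ∉ A) :
    Ip S U a q ⊆ Ip S U a p ∨ Disjoint (Mp S U a p) (Mp S U a q) := by
  classical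
  by_cases hsub : Ip S U a q ⊆ Ip S U a p
  · exact Or.inl hsub
  right
  have hJn : (Ip S U a q \ Ip S U a p).Nonempty := by
    rw [Finset.sdiff_nonempty]
    exact hsub
  have hIq : (Ip S U a q).Nonempty := hJn.mono Finset.sdiff_subset
  have h1 := ti_tough h hU ht hp (I := Ip S U a q \ Ip S U a p)
    (fun A hA => lam_Ip_sub (Finset.mem_sdiff.mp hA).1) hJn
    (fun A hA => hn A (Finset.mem_sdiff.mp hA).1) Finset.sdiff_disjoint
  have hXq := ti_XX h hU ht hq hIq
  have h2 : XX S U a (Ip S U a q \ Ip S U a p) \ Mp S U a p ⊆ Mp S U a q \ Mp S U a p := by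
    apply Finset.sdiff_subset_sdiff _ (Finset.Subset.refl _)
    rw [← hXq]
    exact lam_XX_mono Finset.sdiff_subset
  have h3 := Finset.card_le_card h2
  have h4 := (ti_ne h hU ht hq hMq).2
  have h5 := Finset.card_sdiff_add_card_inter (Mp S U a q) (Mp S U a p)
  have h6 := Finset.card_sdiff_add_card_inter (Ip S U a q) (Ip S U a p)
  by_cases hI : (Ip S U a q ∩ Ip S U a p).Nonempty
  · exfalso
    have h7 := XX_bound h hU ht.2.1 ht.1 (I := Ip S U a q ∩ Ip S U a p)
      (fun A hA => lam_Ip_sub (Finset.mem_inter.mp hA).1) hI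
    have hIp : (Ip S U a p).Nonempty := hI.mono Finset.inter_subset_right
    have h8 : XX S U a (Ip S U a q ∩ Ip S U a p) ⊆ Mp S U a q ∩ Mp S U a p := by
      apply Finset.subset_inter
      · rw [← hXq]
        exact lam_XX_mono Finset.inter_subset_left
      · rw [← ti_XX h hU ht hp hIp]
        exact lam_XX_mono Finset.inter_subset_right
    have h9 := Finset.card_le_card h8
    omega
  · rw [Finset.not_nonempty_iff_eq_empty] at hI
    have h7 : (Ip S U a q ∩ Ip S U a p).card = 0 := by rw [hI]; rfl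
    have h8 : (Mp S U a q ∩ Mp S U a p).card = 0 := by omega
    rw [Finset.card_eq_zero] at h8
    rw [disjoint_comm, Finset.disjoint_iff_inter_eq_empty]
    exact h8

/-- Two sets `Mp` of members of the same factor are equal or disjoint. -/
theorem kinds_eq (h : HS k S d) {r : ℕ} {U : Finset V} (hU : LS S d r U) {a p q : V}
    (ht : Ti S U a) (hp : p ∈ nb S U a) (hq : q ∈ cp S (nb S U a) p)
    (hMp : (Mp S U a p).Nonempty) (hMq : (Mp S U a q).Nonempty) :
    Mp S U a p = Mp S U a q ∨ Disjoint (Mp S U a p) (Mp S U a q) := by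
  classical
  have hqN : q ∈ nb S U a := cp_sub hq
  have hA : cp S (nb S U a) p ∈ cps S (nb S U a) := cp_cps hp
  have hpA : p ∈ cp S (nb S U a) p := mem_cp_self hp
  have key : ∀ u v : V, u ∈ cp S (nb S U a) p → v ∈ cp S (nb S U a) p →
      ∀ B ∈ Ip S U a v, u ∉ B := by
    intro u v hu hv B hB huB
    have hB1 := mem_Ip.mp hB
    have e1 := cps_cp hB1.1 huB
    have e2 := cps_cp hA hu
    exact hB1.2.1 (by rw [← e1, e2]; exact hv)
  rcases lam_c h hU ht hp hqN hMq (key p q hpA hq) with h1 | h1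
  · rcases lam_c h hU ht hqN hp hMp (key q p hq hpA) with h2 | h2
    · have e : Ip S U a p = Ip S U a q := Finset.Subset.antisymm h2 h1
      by_cases hI : (Ip S U a p).Nonempty
      · left
        rw [← ti_XX h hU ht hp hI, ← ti_XX h hU ht hqN (e ▸ hI), e]
      · rw [Finset.not_nonempty_iff_eq_empty] at hI
        have c1 := (ti_ne h hU ht hp hMp).2
        have c2 := (ti_ne h hU ht hqN hMq).2
        rw [← e] at c2
        rw [hI, Finset.card_empty] at c1 c2
        obtain ⟨x, hx⟩ := Finset.card_eq_one.mp c1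
        obtain ⟨y, hy⟩ := Finset.card_eq_one.mp c2
        rw [hx, hy]
        by_cases hxy : x = y
        · left; rw [hxy]
        · right
          exact Finset.disjoint_singleton.mpr hxy
    · exact Or.inr h2.symm
  · exact Or.inr h1

theorem lemN (h : HS k S d) {r : ℕ} {U : Finset V} (hU : LS S d r U) {a p q : V}
    (ht : Ti S U a) (hp : p ∈ nb S U a) (hq : q ∈ nb S U a) (hpq : p ∉ cp S (nb S U a) q)
    (hMq : (Mp S U a q).Nonempty) (hsub : Mp S U a q ⊆ Mp S U a p) :
    cp S (nb S U a) q ∈ Ip S U a p := by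
  classical
  by_contra hB
  have hBc : cp S (nb S U a) q ∈ cps S (nb S U a) := cp_cps hq
  have hqB : q ∈ cp S (nb S U a) q := mem_cp_self hq
  have h1 := phi_cps h hU ht.1 hp hBc hpq hB
  have ht' := ti_phi h hU ht hp
  obtain ⟨t, _, hΦ⟩ := (phi_LS h hU ht.1 hp).2.2.2.2
  have hqΦ : q ∈ nb S (cp S (nb S U p) a) a := cps_sub h1 hqB
  have hcp : cp S (nb S (cp S (nb S U p) a) a) q = cp S (nb S U a) q := cps_cp h1 hqB
  have hM : Mp S (cp S (nb S U p) a) a q = ∅ := by
    rw [phi_Mp h hU ht.1 hp q, Finset.sdiff_eq_empty_iff_subset]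
    exact hsub
  have hJ := (ti_empty h hΦ ht' hqΦ hM).2
  obtain ⟨D, hD⟩ := Finset.card_pos.mp (show 0 < (Jp S (cp S (nb S U p) a) a q).card by omega)
  obtain ⟨hD1, y, hy, x, hx, hxq, hxy⟩ := mem_Jp.mp hD
  rw [hcp] at hD1
  have hD2 : D ∈ Jp S U a q :=
    mem_Jp.mpr ⟨hD1, y, hy, x, ((phi_nk h hU ht.1 hp).mp hx).1, hxq, hxy⟩
  rw [(ti_ne h hU ht hq hMq).1] at hD2
  exact absurd hD2 (Finset.notMem_empty D)

theorem lam (h : HS k S d) {r : ℕ} {U : Finset V} (hU : LS S d r U) {a p q : V}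
    (ht : Ti S U a) (hp : p ∈ nb S U a) (hq : q ∈ nb S U a) :
    Mp S U a p ⊆ Mp S U a q ∨ Mp S U a q ⊆ Mp S U a p ∨ Disjoint (Mp S U a p) (Mp S U a q) := by
  classical
  by_cases hMp : (Mp S U a p).Nonempty
  swap
  · rw [Finset.not_nonempty_iff_eq_empty] at hMp
    left; rw [hMp]; exact Finset.empty_subset _
  by_cases hMq : (Mp S U a q).Nonempty
  swap
  · rw [Finset.not_nonempty_iff_eq_empty] at hMq
    right; left; rw [hMq]; exact Finset.empty_subset _
  by_cases hqA : q ∈ cp S (nb S U a) p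
  · rcases kinds_eq h hU ht hp hqA hMp hMq with e | e
    · left; rw [e]
    · exact Or.inr (Or.inr e)
  have hA : cp S (nb S U a) p ∈ cps S (nb S U a) := cp_cps hp
  have hpA : p ∈ cp S (nb S U a) p := mem_cp_self hp
  have hB : cp S (nb S U a) q ∈ cps S (nb S U a) := cp_cps hq
  have hqB : q ∈ cp S (nb S U a) q := mem_cp_self hq
  have key : ∀ u v : V, u ∈ nb S U a → v ∈ nb S U a → (Mp S U a u).Nonempty →
      (Mp S U a v).Nonempty → cp S (nb S U a) u ∉ Ip S U a v →
      Mp S U a v ⊆ Mp S U a u ∨ Disjoint (Mp S U a u) (Mp S U a v) := by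
    intro u v hu hv hMu hMv hn
    have hn' : ∀ B ∈ Ip S U a v, u ∉ B := by
      intro B hB' huB
      have e1 := cps_cp (mem_Ip.mp hB').1 huB
      rw [← e1] at hB'
      exact hn hB'
    rcases lam_c h hU ht hu hv hMv hn' with h1 | h1
    · by_cases hI : (Ip S U a v).Nonempty
      · left
        rw [← ti_XX h hU ht hv hI, ← ti_XX h hU ht hu (hI.mono h1)]
        exact lam_XX_mono h1
      · rw [Finset.not_nonempty_iff_eq_empty] at hI
        have c1 := (ti_ne h hU ht hv hMv).2
        rw [hI, Finset.card_empty] at c1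
        obtain ⟨x, hx⟩ := Finset.card_eq_one.mp c1
        rw [hx]
        by_cases hxu : x ∈ Mp S U a u
        · left
          exact Finset.singleton_subset_iff.mpr hxu
        · right
          exact Finset.disjoint_singleton_right.mpr hxu
    · exact Or.inr h1
  by_cases hAI : cp S (nb S U a) p ∈ Ip S U a q
  swap
  · rcases key p q hp hq hMp hMq hAI with e | e
    · exact Or.inr (Or.inl e)
    · exact Or.inr (Or.inr e)
  by_cases hBI : cp S (nb S U a) q ∈ Ip S U a p
  swap
  · rcases key q p hq hp hMq hMp hBI with e | e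
    · exact Or.inl e
    · exact Or.inr (Or.inr e.symm)
  exfalso
  obtain ⟨y, hy, x, hx, hxp, hxy⟩ := ti_XA h hU ht hp
  have h1 : ({x, q} : Finset V) ∉ S := (mem_Ip.mp hAI).2.2 y hy x hx hxy
  have h2 : ({x, p} : Finset V) ∉ S := (mem_Ip.mp hBI).2.2 q hqB x hx h1
  exact h2 hxp

end Pool.Agent.MP19e880.TT
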