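import Pool.Agent.Lib.MP_19e880_co_TT.Exc

/-!
Vertices with irreducible link.
-/

set_option autoImplicit false
set_option linter.unusedSectionVars false

namespace Pool.Agent.MP19e880.TT

variable {V : Type} [Fintype V] [LinearOrder V] {k : Type} [Field k]
  {S : Finset (Finset V)} {d : ℕ}

private theorem lemB_pair (h : HS k S d) {F : Finset V} (hF : F ∈ S) {a b : V} (ha : a ∈ F)
    (hb : b ∈ F) : ({a, b} : Finset V) ∈ S :=
  h.down F hF _ (by
    intro x hx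
    rw [Finset.mem_insert, Finset.mem_singleton] at hx
    rcases hx with rfl | rfl <;> assumption)

theorem lemB_star (h : HS k S d) {r : ℕ} {U : Finset V} (hU : LS S d r U) (hc : Con S U) {p : V}
    (hp : p ∈ U) {Φ : Finset V} (hΦ : Φ ∈ cps S (nb S U p)) (hne : Φ ≠ nb S U p) :
    ∃ p' ∈ U, Φ ∈ cps S (nb S U p') ∧ ∃ q ∈ nb S U p', q ∉ Φ ∧ Φ ∉ cps S (nb S U q) := by
  classical
  by_contra hcon
  push Not at hcon
  obtain ⟨s, hrs, hnb⟩ := LS.nb h hU hp
  obtain ⟨ρ, t, hρt, hLΦ, hLt⟩ := LS.cld h hnb (cps_cld hΦ)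
  have ht : t ≠ 0 := by
    intro h0
    have h1 := (LS.zero h hLt).mpr h0
    rw [Finset.sdiff_eq_empty_iff_subset] at h1
    exact hne (Finset.Subset.antisymm (cps_sub hΦ) h1)
  let PP : Finset V := U.filter (fun p' => Φ ∈ cps S (nb S U p'))
  have hPP : ∀ p', p' ∈ PP ↔ p' ∈ U ∧ Φ ∈ cps S (nb S U p') := by
    intro p'
    simp only [PP, Finset.mem_filter]
  have hsub : ∀ p' ∈ PP, nb S U p' ⊆ Φ ∪ PP := by
    intro p' hp' q hq
    rw [Finset.mem_union]
    by_cases hqΦ : q ∈ Φ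
    · exact Or.inl hqΦ
    · right
      rw [hPP] at hp' ⊢
      exact ⟨(mem_nb.mp hq).1, hcon p' hp'.1 hp'.2 q hq hqΦ⟩
  have hΦU : Φ ⊆ U := fun x hx => (mem_nb.mp (cps_sub hΦ hx)).1
  have hWU : Φ ∪ PP ⊆ U := by
    apply Finset.union_subset hΦU
    intro x hx
    exact ((hPP x).mp hx).1
  have hpp : p ∈ PP := (hPP p).mpr ⟨hp, hΦ⟩
  have hpS : ({p} : Finset V) ∈ S := by
    have h1 := LS.self h hU hp
    rwa [Finset.pair_eq_singleton] at h1
  obtain ⟨G, hpG, hGU, hGS, hGc⟩ := LS.facet h hU (Finset.singleton_subset_iff.mpr hp) hpS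
  have hpG' : p ∈ G := hpG (Finset.mem_singleton_self p)
  have hGW : G ⊆ Φ ∪ PP := by
    intro x hx
    by_cases hxp : x = p
    · rw [hxp]
      exact Finset.mem_union_right _ hpp
    · exact hsub p hpp (mem_nb.mpr ⟨hGU hx, hxp, lemB_pair h hGS hx hpG'⟩)
  have hWeq : Φ ∪ PP = U := by
    refine LS.full h hU hWU hGW hGS hGc ?_
    intro R u u' hu hu' _ hsubW hS hcard hu'U hu'S
    by_cases hRP : ∃ p' ∈ R, p' ∈ PP
    · obtain ⟨p', hp'R, hp'P⟩ := hRP
      refine hsub p' hp'P (mem_nb.mpr ⟨hu'U, ?_, lemB_pair h hu'S (Finset.mem_insert_self _ _)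
        (Finset.mem_insert_of_mem hp'R)⟩)
      rintro rfl
      exact hu' hp'R
    · exfalso
      push Not at hRP
      have hRΦ : R ⊆ Φ := by
        intro x hx
        have h1 := hsubW (Finset.mem_insert_of_mem hx)
        rw [Finset.mem_union] at h1
        rcases h1 with h1 | h1
        · exact h1
        · exact absurd h1 (hRP x hx)
      have h2 := LS.face h hLΦ hRΦ (h.down _ hS _ (Finset.subset_insert _ _))
      rw [Finset.card_insert_of_notMem hu] at hcard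
      omega
  have hpΦ : p ∉ Φ := fun h1 => (mem_nb.mp (cps_sub hΦ h1)).2.1 rfl
  obtain ⟨a, ha, b, hb, hab⟩ := hc Φ hΦU (cps_ne hΦ) (by
    intro h1
    rw [h1] at hpΦ
    exact hpΦ hp)
  rw [Finset.mem_sdiff] at hb
  have hbW : b ∈ Φ ∪ PP := by
    rw [hWeq]
    exact hb.1
  rw [Finset.mem_union] at hbW
  rcases hbW with h1 | h1
  · exact hb.2 h1
  · exact hab (mem_nb.mp (cps_sub ((hPP b).mp h1).2 ha)).2.2

theorem irr_vertex (h : HS k S d) {r : ℕ} {U : Finset V} (hU : LS S d r U) (hc : Con S U)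
    (hr : 2 ≤ r) : ∃ a ∈ U, Con S (nb S U a) := by
  obtain ⟨σ, hσ, hcard, rfl⟩ := hU
  have hE := eul_of_hs h
  have hirr : Irr S σ := by
    unfold Irr
    exact hc
  obtain ⟨x, hx, hx2⟩ := exists_irr h hE σ hσ (by omega) hirr
  refine ⟨x, hx, ?_⟩
  have h1 : nb S (lv S σ) x = lv S (insert x σ) := by
    ext y
    rw [mem_nb, mem_lv_insert h hE σ x y hx, Finset.pair_comm]
  rw [h1]
  exact hx2

private theorem lemB_factor (h : HS k S d) : ∀ (n r : ℕ) (W : Finset V), W.card ≤ n →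
    LS S d r W → 1 ≤ exc S r W → ∃ A ∈ cps S W, ∃ ρ, LS S d ρ A ∧ 1 ≤ exc S ρ A := by
  intro n
  have hempty : ∀ r : ℕ, ¬ 1 ≤ exc S r (∅ : Finset V) := by
    intro r h1
    unfold exc at h1
    rw [nc_empty, Finset.card_empty] at h1
    push_cast at h1
    omega
  induction n with
  | zero =>
    intro r W hW _ hexc
    exfalso
    rw [Nat.le_zero, Finset.card_eq_zero] at hW
    rw [hW] at hexc
    exact hempty r hexc
  | succ n ih =>
    intro r W hW hLS hexc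
    have hne : W.Nonempty := by
      rw [Finset.nonempty_iff_ne_empty]
      rintro rfl
      exact hempty r hexc
    by_cases hcon : Con S W
    · refine ⟨W, ?_, r, hLS, hexc⟩
      rw [cps_one hcon hne]
      exact Finset.mem_singleton_self _
    · obtain ⟨x, hx⟩ := hne
      obtain ⟨s, t, hst, h1, h2⟩ := LS.cld h hLS (cp_cld S W x)
      have h3 := exc_cld (s := s) (t := t) (cp_cld S W x)
      rw [hst] at h3
      have h4 : (cp S W x).card < W.card := Finset.card_lt_card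
        (Finset.ssubset_iff_subset_ne.mpr ⟨cp_sub, cp_ne hcon hx⟩)
      have h5 : (W \ cp S W x).card < W.card := by
        refine Finset.card_lt_card (Finset.ssubset_iff_subset_ne.mpr ⟨Finset.sdiff_subset, ?_⟩)
        intro h6
        have h7 := hx
        rw [← h6, Finset.mem_sdiff] at h7
        exact h7.2 (mem_cp_self hx)
      by_cases h6 : 1 ≤ exc S s (cp S W x)
      · obtain ⟨A, hA, hA2⟩ := ih s (cp S W x) (by omega) h1 h6
        refine ⟨A, ?_, hA2⟩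
        rw [cps_union (cp_cld S W x)]
        exact Finset.mem_union_left _ hA
      · obtain ⟨A, hA, hA2⟩ := ih t (W \ cp S W x) (by omega) h2 (by omega)
        refine ⟨A, ?_, hA2⟩
        rw [cps_union (cp_cld S W x)]
        exact Finset.mem_union_right _ hA

theorem irr_vertex_exc (h : HS k S d) {r : ℕ} {U : Finset V} (hU : LS S d (r + 1) U)
    (hc : Con S U) {p : V} (hp : p ∈ U) (hp1 : 1 ≤ exc S r (nb S U p)) :
    ∃ a ∈ U, Con S (nb S U a) ∧ 1 ≤ exc S r (nb S U a) := by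
  classical
  have hLnb : ∀ q ∈ U, LS S d r (nb S U q) := by
    intro q hq
    obtain ⟨s, hs, hs2⟩ := LS.nb h hU hq
    have : s = r := by omega
    rwa [this] at hs2
  let T : Finset (V × Finset V) := Finset.univ.filter (fun z => z.1 ∈ U ∧
    z.2 ∈ cps S (nb S U z.1) ∧ ∃ ρ, LS S d ρ z.2 ∧ 1 ≤ exc S ρ z.2)
  have hT : ∀ z, z ∈ T ↔ z.1 ∈ U ∧ z.2 ∈ cps S (nb S U z.1) ∧
      ∃ ρ, LS S d ρ z.2 ∧ 1 ≤ exc S ρ z.2 := by
    intro z
    simp only [T, Finset.mem_filter, Finset.mem_univ, true_and]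
  have hTne : T.Nonempty := by
    obtain ⟨A, hA, hA2⟩ := lemB_factor h _ r (nb S U p) le_rfl (hLnb p hp) hp1
    exact ⟨(p, A), (hT _).mpr ⟨hp, hA, hA2⟩⟩
  obtain ⟨⟨p0, Φ⟩, hz, hmax⟩ := Finset.exists_max_image T (fun z => z.2.card) hTne
  obtain ⟨hp0, hΦ, ρ, hLρ, hexρ⟩ := (hT _).mp hz
  dsimp only at hp0 hΦ hLρ hexρ hmax
  by_cases hΦeq : Φ = nb S U p0
  · refine ⟨p0, hp0, ?_, ?_⟩
    · rw [← hΦeq]
      exact cps_con hΦ
    · rw [hΦeq] at hLρ hexρ
      have h1 := LS.uniq h hLρ (hLnb p0 hp0)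
      rwa [h1] at hexρ
  · exfalso
    obtain ⟨p', hp', hΦp', q, hq, hqΦ, hΦq⟩ := lemB_star h hU hc hp0 hΦ hΦeq
    have hq' := mem_nb.mp hq
    have hΦne := cps_ne hΦp'
    have hsub : Φ ⊆ nb S U q := by
      intro x hx
      refine mem_nb.mpr ⟨(mem_nb.mp (cps_sub hΦp' hx)).1, ?_, cps_adj hΦp' hx hq hqΦ⟩
      rintro rfl
      exact hqΦ hx
    obtain ⟨Φ', hΦ', hΦΦ'⟩ := con_sub_cps hsub (cps_con hΦp') hΦne
    have hneq : Φ ≠ Φ' := by
      intro h1
      rw [← h1] at hΦ'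
      exact hΦq hΦ'
    have hlt : Φ.card < Φ'.card :=
      Finset.card_lt_card (Finset.ssubset_iff_subset_ne.mpr ⟨hΦΦ', hneq⟩)
    have hp'q : p' ∈ nb S U q := mem_nb.mpr ⟨hp', fun h1 => hq'.2.1 h1.symm, by
      rw [Finset.pair_comm]
      exact hq'.2.2⟩
    have hΦ'U : Φ' ⊆ U := fun x hx => (mem_nb.mp (cps_sub hΦ' hx)).1
    have hp'Φ' : p' ∈ Φ' := by
      by_contra hnp
      have h1 : Φ' ⊆ nb S U p' := by
        intro x hx
        refine mem_nb.mpr ⟨hΦ'U hx, ?_, cps_adj hΦ' hx hp'q hnp⟩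
        rintro rfl
        exact hnp hx
      obtain ⟨a, ha⟩ := hΦne
      have h2 := con_sub_cp (cps_con hΦ') h1 (hΦΦ' ha)
      rw [cps_cp hΦp' ha] at h2
      exact hneq (Finset.Subset.antisymm hΦΦ' h2)
    obtain ⟨ρ', t', _, hLΦ', _⟩ := LS.cld h (hLnb q hq'.1) (cps_cld hΦ')
    obtain ⟨s, hs, hLs⟩ := LS.nb h hLΦ' hp'Φ'
    subst hs
    have hmem : Φ ∈ cps S (nb S Φ' p') := by
      refine cps_of ⟨?_, ?_⟩ (cps_con hΦp') hΦne
      · intro x hx
        have h1 := mem_nb.mp (cps_sub hΦp' hx)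
        exact mem_nb.mpr ⟨hΦΦ' hx, h1.2.1, h1.2.2⟩
      · intro x hx z hz
        rw [Finset.mem_sdiff, mem_nb] at hz
        exact (cps_cld hΦp').2 x hx z (Finset.mem_sdiff.mpr
          ⟨mem_nb.mpr ⟨hΦ'U hz.1.1, hz.1.2.1, hz.1.2.2⟩, hz.2⟩)
    have h3 := exc_cps h hLs hmem hLρ
    have h4 := exc_mono h hLΦ' hp'Φ'
    have h5 := hmax (q, Φ') ((hT _).mpr ⟨hq'.1, hΦ', s + 1, hLΦ', by
      dsimp only
      omega⟩)
    dsimp only at h5
    omega

end Pool.Agent.MP19e880.TT
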