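import Pool.Agent.Lib.MP_19e880_co_TT.Exc

/-!
Common neighbours of an induced 4-cycle; pairwise non-adjacent triples.
-/

set_option autoImplicit false
set_option linter.unusedSectionVars false

namespace Pool.Agent.MP19e880.TT

variable {V : Type} [Fintype V] [LinearOrder V] {k : Type} [Field k]
  {S : Finset (Finset V)} {d : ℕ}

private theorem LemF_two (h : HS k S d) {r : ℕ} {U : Finset V} (hU : LS S d r U) {x y : V}
    (hx : x ∈ U) (hy : y ∈ U) (hxy : x ≠ y) (hxy2 : ({x, y} : Finset V) ∈ S) :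
    ∃ s, r = s + 2 ∧ 2 * s ≤ (nb S (nb S U x) y).card := by
  obtain ⟨s, hs, h1⟩ := LS.nb h hU hx
  have hy2 : y ∈ nb S U x := mem_nb.2 ⟨hy, hxy.symm, by rwa [Finset.pair_comm]⟩
  obtain ⟨t, ht, h2⟩ := LS.nb h h1 hy2
  exact ⟨t, by omega, LS.two_mul h h2⟩

/-- The edges `x y` and `p q` (with `y, p` and `x, q` not adjacent) have a common neighbour. -/
theorem lemF (h : HS k S d) {r : ℕ} {U : Finset V} (hU : LS S d r U) {x y p q : V} (hx : x ∈ U)
    (hy : y ∈ U) (hp : p ∈ U) (hq : q ∈ U) (hxy : x ≠ y) (hpq : p ≠ q)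
    (hxy2 : ({x, y} : Finset V) ∈ S) (hpq2 : ({p, q} : Finset V) ∈ S)
    (hyp : ({y, p} : Finset V) ∉ S) (hxq : ({x, q} : Finset V) ∉ S)
    (hn : U.card + 5 ≤ 4 * r) :
    ∃ b ∈ U, b ≠ x ∧ b ≠ y ∧ b ≠ p ∧ b ≠ q ∧ ({b, x} : Finset V) ∈ S ∧
      ({b, y} : Finset V) ∈ S ∧ ({b, p} : Finset V) ∈ S ∧ ({b, q} : Finset V) ∈ S := by
  obtain ⟨s, hs, h1⟩ := LemF_two h hU hx hy hxy hxy2
  obtain ⟨t, ht, h2⟩ := LemF_two h hU hp hq hpq hpq2
  have hsx := LS.self h hU hx
  have hsy := LS.self h hU hy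
  have hxp : x ≠ p := by
    rintro rfl
    exact hyp (by rwa [Finset.pair_comm])
  have hxq' : x ≠ q := by
    rintro rfl
    exact hxq hsx
  have hyp' : y ≠ p := by
    rintro rfl
    exact hyp hsy
  have hyq : y ≠ q := by
    rintro rfl
    exact hxq hxy2
  have hN : (nb S (nb S U x) y ∪ nb S (nb S U p) q) ⊆
      (((U.erase x).erase y).erase p).erase q := by
    intro b hb
    rw [Finset.mem_union] at hb
    simp only [Finset.mem_erase]
    rcases hb with hb | hb
    · rw [mem_nb, mem_nb] at hb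
      obtain ⟨⟨hbU, hbx, hbx2⟩, hby, hby2⟩ := hb
      refine ⟨?_, ?_, hby, hbx, hbU⟩
      · rintro rfl
        exact hxq (by rwa [Finset.pair_comm])
      · rintro rfl
        exact hyp (by rwa [Finset.pair_comm])
    · rw [mem_nb, mem_nb] at hb
      obtain ⟨⟨hbU, hbp, hbp2⟩, hbq, hbq2⟩ := hb
      refine ⟨hbq, hbp, ?_, ?_, hbU⟩
      · rintro rfl
        exact hyp hbp2
      · rintro rfl
        exact hxq hbq2
  have hc : ((((U.erase x).erase y).erase p).erase q).card + 4 = U.card := by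
    have e1 := Finset.card_erase_add_one hx
    have e2 : ((U.erase x).erase y).card + 1 = (U.erase x).card :=
      Finset.card_erase_add_one (Finset.mem_erase.2 ⟨hxy.symm, hy⟩)
    have e3 : (((U.erase x).erase y).erase p).card + 1 = ((U.erase x).erase y).card :=
      Finset.card_erase_add_one (Finset.mem_erase.2 ⟨hyp'.symm,
        Finset.mem_erase.2 ⟨hxp.symm, hp⟩⟩)
    have e4 : ((((U.erase x).erase y).erase p).erase q).card + 1 =
        (((U.erase x).erase y).erase p).card :=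
      Finset.card_erase_add_one (Finset.mem_erase.2 ⟨hpq.symm, Finset.mem_erase.2
        ⟨hyq.symm, Finset.mem_erase.2 ⟨hxq'.symm, hq⟩⟩⟩)
    omega
  have hne : (nb S (nb S U x) y ∩ nb S (nb S U p) q).Nonempty := by
    by_contra hcon
    rw [Finset.not_nonempty_iff_eq_empty, ← Finset.disjoint_iff_inter_eq_empty] at hcon
    have e1 := Finset.card_union_of_disjoint hcon
    have e2 := Finset.card_le_card hN
    omega
  obtain ⟨b, hb⟩ := hne
  rw [Finset.mem_inter, mem_nb, mem_nb, mem_nb, mem_nb] at hb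
  obtain ⟨⟨⟨hbU, hbx, hbx2⟩, hby, hby2⟩, ⟨_, hbp, hbp2⟩, hbq, hbq2⟩ := hb
  exact ⟨b, hbU, hbx, hby, hbp, hbq, hbx2, hby2, hbp2, hbq2⟩

/-- Three pairwise non-adjacent vertices have a common neighbour if their links are large. -/
theorem common_nb (h : HS k S d) {r : ℕ} {U : Finset V} (hU : LS S d r U) {x y z : V}
    (hx : x ∈ U) (hy : y ∈ U) (hz : z ∈ U) (hxy : ({x, y} : Finset V) ∉ S)
    (hxz : ({x, z} : Finset V) ∉ S) (hyz : ({y, z} : Finset V) ∉ S)
    (hn : (nk S U x).card + (nk S U y).card + (nk S U z).card < U.card + 3) :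
    ∃ b ∈ U, b ≠ x ∧ b ≠ y ∧ b ≠ z ∧ ({b, x} : Finset V) ∈ S ∧
      ({b, y} : Finset V) ∈ S ∧ ({b, z} : Finset V) ∈ S := by
  by_contra hcon
  push Not at hcon
  have hsx := LS.self h hU hx
  have hsy := LS.self h hU hy
  have hsz := LS.self h hU hz
  have nxy : x ≠ y := by
    rintro rfl
    exact hxy hsx
  have nxz : x ≠ z := by
    rintro rfl
    exact hxz hsx
  have nyz : y ≠ z := by
    rintro rfl
    exact hyz hsy
  have hyx : ({y, x} : Finset V) ∉ S := by rwa [Finset.pair_comm]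
  have hzx : ({z, x} : Finset V) ∉ S := by rwa [Finset.pair_comm]
  have hzy : ({z, y} : Finset V) ∉ S := by rwa [Finset.pair_comm]
  have hsub : U ⊆ nk S U x ∪ nk S U y ∪ nk S U z := by
    intro b hb
    by_contra hb2
    simp only [Finset.mem_union, mem_nk, not_or, not_and, not_not] at hb2
    obtain ⟨⟨h1, h2⟩, h3⟩ := hb2
    have hbx : b ≠ x := by
      rintro rfl
      exact hxy (h2 hb)
    have hby : b ≠ y := by
      rintro rfl
      exact hyx (h1 hb)
    have hbz : b ≠ z := by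
      rintro rfl
      exact hzx (h1 hb)
    exact hcon b hb hbx hby hbz (h1 hb) (h2 hb) (h3 hb)
  have e1 := Finset.card_le_card hsub
  have e2 := Finset.card_union_add_card_inter (nk S U x) (nk S U y)
  have e3 := Finset.card_union_add_card_inter (nk S U x ∪ nk S U y) (nk S U z)
  have e4 : 1 ≤ (nk S U x ∩ nk S U y).card := by
    apply Finset.card_pos.2
    exact ⟨z, Finset.mem_inter.2 ⟨mem_nk.2 ⟨hz, hzx⟩, mem_nk.2 ⟨hz, hzy⟩⟩⟩
  have e5 : 2 ≤ ((nk S U x ∪ nk S U y) ∩ nk S U z).card := by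
    have h1 : ({x, y} : Finset V) ⊆ (nk S U x ∪ nk S U y) ∩ nk S U z := by
      intro b hb
      rw [Finset.mem_insert, Finset.mem_singleton] at hb
      rcases hb with rfl | rfl
      · exact Finset.mem_inter.2 ⟨Finset.mem_union_right _ (mem_nk.2 ⟨hx, hxy⟩),
          mem_nk.2 ⟨hx, hxz⟩⟩
      · exact Finset.mem_inter.2 ⟨Finset.mem_union_left _ (mem_nk.2 ⟨hy, hyx⟩),
          mem_nk.2 ⟨hy, hyz⟩⟩
    have h2 := Finset.card_le_card h1
    rwa [Finset.card_pair nxy] at h2
  omega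

end Pool.Agent.MP19e880.TT
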