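import Pool.Agent.Lib.MP_19e880_co_TT.EulHS
import Pool.Agent.Lib.MP_19e880_co_G2.Final
import Pool.Agent.Lib.MP_19e880_co_G3.Exp
import Pool.Agent.Lib.MP_19e880_co_G3.Small
import Pool.Agent.Lib.MP_19e880_co_G2.Inst

/-!
Rank at most five.
-/

set_option autoImplicit false
set_option linter.unusedSectionVars false

namespace Pool.Agent.MP19e880.TT

open Polynomial

variable {V : Type} [Fintype V] [LinearOrder V] {k : Type} [Field k]
  {S : Finset (Finset V)} {d : ℕ}

/-- The expansion of the h-polynomial of a link by its face numbers. -/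
private theorem lowR_sum (hE : Eul S d) {g : Finset V → ℕ → ℤ} (hg : G3.GV S d g)
    (σ : Finset V) (hσ : σ ∈ S) (e : ℕ) (he : σ.card + e = d) :
    ∑ j ∈ Finset.range (e + 1), C ((fun j => (fn S σ j : ℤ)) j) * X ^ j * (1 - X) ^ (e - j) =
      ∑ i ∈ Finset.range (e / 2 + 1), C (g σ i) * X ^ i * (1 + X : ℤ[X]) ^ (e - 2 * i) := by
  have h1 := (hg σ hσ).2
  rw [hE.H_sum' σ hσ e he, show d - σ.card = e by omega] at h1
  rw [← h1]
  refine Finset.sum_congr rfl fun j _ => ?_
  rw [mul_assoc]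

private theorem lowR_zero (hE : Eul S d) {g : Finset V → ℕ → ℤ} (hg : G3.GV S d g)
    (σ : Finset V) (hσ : σ ∈ S) (e : ℕ) (he : σ.card + e = d) : g σ 0 = 1 := by
  refine G2.gamma_zero e (fun j => (fn S σ j : ℤ)) (g σ) ?_ (lowR_sum hE hg σ hσ e he)
  rw [fn_zero S σ hσ]
  rfl

private theorem lowR_one (hE : Eul S d) {g : Finset V → ℕ → ℤ} (hg : G3.GV S d g)
    (σ : Finset V) (hσ : σ ∈ S) (e : ℕ) (he : σ.card + e = d) (he2 : 2 ≤ e) :
    g σ 1 = ((lv S σ).card : ℤ) - 2 * e := by
  have h1 := G2.gamma_one e he2 (fun j => (fn S σ j : ℤ)) (g σ) (by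
    rw [fn_zero S σ hσ]
    rfl) (lowR_sum hE hg σ hσ e he)
  rw [h1, fn_one S hE.down]

private theorem lowR_nonneg (h : HS k S d) (hE : Eul S d) {g : Finset V → ℕ → ℤ}
    (hg : G3.GV S d g) (h0 : (∅ : Finset V) ∈ S) (hd : d ≤ 5) (i : ℕ) (hi : i ≤ d / 2) :
    0 ≤ g ∅ i := by
  have hL := G2.lemmaL (fam h hE)
  have hi' : i = 0 ∨ i = 1 ∨ i = 2 := by omega
  rcases hi' with rfl | rfl | rfl
  · rw [lowR_zero hE hg ∅ h0 d (by simp)]
    norm_num
  · rw [lowR_one hE hg ∅ h0 d (by simp) (by omega)]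
    have h2 := lv_two_mul h d ∅ h0 (by simp)
    have h3 : (2 * d : ℤ) ≤ (lv S ∅).card := by exact_mod_cast h2
    linarith
  · exact G3.nonneg h hE hL hg ∅ h0 d (by simp) (by omega)

theorem low_G (h : HS k S d) (hd : d ≤ 5) : Cone d (H S d ∅) := by
  have hE := eul_of_hs h
  have h0 : (∅ : Finset V) ∈ S := h.flag ∅ (fun a ha => absurd ha (Finset.notMem_empty a))
  obtain ⟨g, hg⟩ := G3.gammas hE
  have hg' : G3.GV S d g := hg
  refine ⟨fun i => if i ≤ d / 2 then g ∅ i else 0, ?_, ?_⟩
  · intro i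
    dsimp only
    split_ifs with hi
    · exact lowR_nonneg h hE hg' h0 hd i hi
    · exact le_refl _
  · have h1 := (hg ∅ h0).2
    rw [Finset.card_empty, Nat.sub_zero] at h1
    rw [h1]
    refine Finset.sum_congr rfl fun i hi => ?_
    rw [Finset.mem_range] at hi
    dsimp only
    rw [if_pos (by omega)]

theorem low_M (h : HS k S d) (hd : d ≤ 5) {v : V} (hv : v ∈ lv S ∅) :
    Cone d (H S d ∅ - (1 + X) * H S d {v}) := by
  have hE := eul_of_hs h
  have h0 : (∅ : Finset V) ∈ S := h.flag ∅ (fun a ha => absurd ha (Finset.notMem_empty a))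
  have hL := G2.lemmaL (fam h hE)
  obtain ⟨g, hg⟩ := G3.gammas hE
  have hg' : G3.GV S d g := hg
  have hv1 : insert v ∅ ∈ S := ((mem_lv ∅ v).mp hv).2
  have hvS : ({v} : Finset V) ∈ S := hv1
  have hd1 : 1 ≤ d := by
    have := hE.le _ hvS
    rwa [Finset.card_singleton] at this
  obtain ⟨hv0, hvH⟩ := hg {v} hvS
  rw [Finset.card_singleton] at hv0 hvH
  -- the link of `v`, raised to the centre of symmetry of the whole sphere
  have h2 : (1 + X) * H S d {v} = ∑ i ∈ Finset.range (d / 2 + 1),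
      C (g {v} i) * X ^ i * (1 + X : ℤ[X]) ^ (d - 2 * i) := by
    have hsub : Finset.range ((d - 1) / 2 + 1) ⊆ Finset.range (d / 2 + 1) := by
      intro i hi
      rw [Finset.mem_range] at hi ⊢
      omega
    rw [hvH, ← Finset.sum_subset hsub, Finset.mul_sum]
    · refine Finset.sum_congr rfl fun i hi => ?_
      rw [Finset.mem_range] at hi
      have e1 : d - 2 * i = (d - 1 - 2 * i) + 1 := by omega
      rw [e1, pow_succ]
      ring
    · intro i _ hi
      rw [Finset.mem_range] at hi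
      rw [hv0 i (by omega)]
      simp
  have h1 := (hg ∅ h0).2
  rw [Finset.card_empty, Nat.sub_zero] at h1
  refine ⟨fun i => if i ≤ d / 2 then g ∅ i - g {v} i else 0, ?_, ?_⟩
  · intro i
    dsimp only
    split_ifs with hi
    · have hi' : i = 0 ∨ i = 1 ∨ i = 2 := by omega
      rcases hi' with rfl | rfl | rfl
      · rw [lowR_zero hE hg' ∅ h0 d (by simp), lowR_zero hE hg' {v} hvS (d - 1) (by
          rw [Finset.card_singleton]; omega)]
        norm_num
      · rcases Nat.lt_or_ge d 3 with h3 | h3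
        · rw [hv0 1 (by omega), sub_zero]
          exact lowR_nonneg h hE hg' h0 hd 1 hi
        · rw [lowR_one hE hg' ∅ h0 d (by simp) (by omega), lowR_one hE hg' {v} hvS (d - 1) (by
            rw [Finset.card_singleton]; omega) (by omega)]
          have h4 := lv_card h hE ∅ v hv
          rw [insert_empty_eq] at h4
          have h5 := Finset.card_pos.mpr (nn_nonempty h hE ∅ h0 v hv)
          have h6 : ((d - 1 : ℕ) : ℤ) = (d : ℤ) - 1 := by omega
          rw [h6, h4]
          push_cast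
          omega
      · rcases Nat.lt_or_ge d 5 with h3 | h3
        · rw [hv0 2 (by omega), sub_zero]
          exact lowR_nonneg h hE hg' h0 hd 2 hi
        · have h4 := G3.mono h hE hL hg' ∅ h0 d (by simp) h3 v hv
          rw [insert_empty_eq] at h4
          linarith
    · exact le_refl _
  · rw [h1, h2, ← Finset.sum_sub_distrib]
    refine Finset.sum_congr rfl fun i hi => ?_
    rw [Finset.mem_range] at hi
    dsimp only
    rw [if_pos (by omega), C_sub]
    ring

end Pool.Agent.MP19e880.TT
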