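import Pool.Agent.Lib.MP_19e880_co_TT.MainM

/-!
The class of excess two: Gal conjecture.
-/

set_option autoImplicit false
set_option linter.unusedSectionVars false

namespace Pool.Agent.MP19e880.TT

open Polynomial

variable {V : Type} [Fintype V] [LinearOrder V] {k : Type} [Field k]

namespace MainGAux

variable {S : Finset (Finset V)} {d : ℕ}

theorem ls_lv (h : HS k S d) {σ : Finset V} (hσ : σ ∈ S) : LS S d (d - σ.card) (lv S σ) :=
  ⟨σ, hσ, by have := h.card_le σ hσ; omega, rfl⟩

theorem lv_sub (h : HS k S d) (σ : Finset V) : lv S σ ⊆ lv S ∅ := by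
  intro x hx
  rw [W1.HslkAux.mem_lv'] at hx ⊢
  exact ⟨Finset.notMem_empty _, h.down _ hx.2 _ (by simp)⟩

theorem lv_lt (h : HS k S d) {σ : Finset V} (hσ : σ ∈ S) (hne : σ.Nonempty) :
    (lv S σ).card < (lv S ∅).card := by
  refine Finset.card_lt_card ((Finset.ssubset_iff_of_subset (lv_sub h σ)).mpr ?_)
  obtain ⟨x, hx⟩ := hne
  refine ⟨x, ?_, ?_⟩
  · rw [W1.HslkAux.mem_lv']
    exact ⟨Finset.notMem_empty _, h.down σ hσ _ (by simpa using hx)⟩
  · rw [W1.HslkAux.mem_lv']
    exact fun h' => h'.1 hx

theorem cls_lv (h : HS k S d) {c : ℕ} (hC : Cls S d c (lv S ∅)) (σ : Finset V) :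
    σ ∈ S → Cls S d c (lv S σ) := by
  induction σ using Finset.induction_on with
  | empty => exact fun _ => hC
  | insert x σ hx ih =>
    intro hσ
    have hσ' : σ ∈ S := h.down _ hσ _ (Finset.subset_insert _ _)
    have hx' : x ∈ lv S σ := (W1.HslkAux.mem_lv' S σ x).mpr ⟨hx, hσ⟩
    rw [← nb_lv h hx']
    exact cls_nb h (ls_lv h hσ') (ih hσ') hx'

end MainGAux

open MainGAux

theorem main_G : ∀ (n d : ℕ) (S : Finset (Finset V)), HS k S d → (lv S ∅).card ≤ n →
    Cls S d 2 (lv S ∅) → Cone d (H S d ∅) := by
  intro n
  induction n using Nat.strong_induction_on with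
  | _ n ih =>
    intro d S h hn hC
    have hE := eul_of_hs h
    have htop := LS.top h
    have h0 : (∅ : Finset V) ∈ S := W1.HslkAux.empty_mem h
    -- the links of the nonempty faces
    have hlink : ∀ σ ∈ S, σ.Nonempty → Cone (d - σ.card) (H S d σ) := by
      intro σ hσ hne
      have h1 := ih (lv S σ).card (lt_of_lt_of_le (lv_lt h hσ hne) hn) (d - σ.card) (lkF S σ)
        (W1.hs_lk h σ hσ) (by rw [W1.lv_lkF h σ hσ]) (cls_lkF h hσ (cls_lv h hC σ hσ))
      rw [H_lkF h hσ (Finset.disjoint_empty_left _) (by rwa [Finset.empty_union]),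
        Finset.empty_union] at h1
      exact h1
    rcases (lv S ∅).eq_empty_or_nonempty with hU | ⟨v, hv⟩
    · have hd := (LS.zero h htop).mp hU
      rw [H_facet hE ∅ h0 (by rw [Finset.card_empty, hd]), hd]
      exact Cone.one
    by_cases hc : Con S (lv S ∅)
    swap
    · -- a join
      obtain ⟨ρ, hρ, τ, hτ, hρv, hτv, hcard, hH, -⟩ := join_G h hc hv
      have hρn : ρ.Nonempty := by
        rw [Finset.nonempty_iff_ne_empty]
        rintro rfl
        exact cp_ne hc hv hρv.symm
      have hτn : τ.Nonempty := by
        rw [Finset.nonempty_iff_ne_empty]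
        rintro rfl
        have h1 := hv
        rw [hτv, Finset.mem_sdiff] at h1
        exact h1.2 (mem_cp_self hv)
      have h1 := (hlink ρ hρ hρn).mul (hlink τ hτ hτn)
      have h2 : (d - ρ.card) + (d - τ.card) = d := by
        have := h.card_le ρ hρ
        have := h.card_le τ hτ
        omega
      rw [hH]
      rwa [h2] at h1
    by_cases hd : d ≤ 5
    · exact low_G h hd
    by_cases hCI : CI S (lv S ∅)
    swap
    · -- a contractible edge
      unfold CI at hCI
      push Not at hCI
      obtain ⟨x, hx, y, hy, hxy, hxyS, hns⟩ := hCI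
      have hq := noSq_of h hns
      have h1 : Cone d (H (W1.con S x y) d ∅) := by
        refine ih ((lv S ∅).erase y).card ?_ d (W1.con S x y) (W1.hs_con h x y hxy hxyS hq) ?_
          (cls_con h (by omega) hc hxy hxyS hq hC)
        · exact lt_of_lt_of_le (Finset.card_erase_lt_of_mem hy) hn
        · rw [W1.lv_con h.down x y hxy hxyS]
      have h2 := (hlink {x, y} hxyS ⟨x, Finset.mem_insert_self _ _⟩).mulX
      rw [Finset.card_pair hxy, show d - 2 + 2 = d by omega] at h2
      rw [H_con h hxy hxyS hq]
      exact h1.add h2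
    · -- no contractible edge
      obtain ⟨r, rfl⟩ : ∃ r, d = r + 1 := ⟨d - 1, by omega⟩
      have hr : 5 ≤ r := by omega
      have he : exc S (r + 1) (lv S ∅) ≤ 2 := by
        have := exc_of_cls h htop hc (by omega) hC
        exact_mod_cast this
      obtain ⟨a, ha, -, hak⟩ := t3 h htop hr hc hCI he
      have haS : ({a} : Finset V) ∈ S := by
        have := ((W1.HslkAux.mem_lv' S ∅ a).mp ha).2
        rwa [insert_empty_eq] at this
      have hKf : ∀ ρ ∈ Kf S ∅ a, ρ ∈ S ∧ ρ ⊆ nk S (lv S ∅) a := by
        intro ρ hρ
        unfold Kf at hρ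
        rw [Finset.mem_filter] at hρ
        refine ⟨hρ.1, ?_⟩
        intro x hx
        rw [mem_nk, W1.HslkAux.mem_lv']
        refine ⟨⟨Finset.notMem_empty _, h.down ρ hρ.1 _ (by simpa using hx)⟩, ?_⟩
        intro hxa
        refine Finset.disjoint_left.mp hρ.2.1 hx ?_
        unfold Nb
        rw [Finset.mem_filter]
        exact ⟨Finset.mem_univ _, hxa⟩
      have hstep := step h hE ∅ a (Finset.notMem_empty _) (by rwa [insert_empty_eq]) (r - 1)
        (by
          intro ρ hρ
          have := Finset.card_le_card (hKf ρ hρ).2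
          omega)
        (by
          intro e he' hec
          have h1 := hlink e (hKf e he').1 (Finset.card_pos.mp (by omega))
          rw [hec, show r + 1 - 2 = r - 1 by omega] at h1
          rwa [Finset.union_empty])
        (by
          intro t ht htc x hx
          have htS := (hKf t ht).1
          have heS : t.erase x ∈ S := h.down t htS _ (Finset.erase_subset _ _)
          have hec : (t.erase x).card = 2 := by
            rw [Finset.card_erase_of_mem hx]
            omega
          obtain ⟨y, z, hyz, hyz2⟩ := Finset.card_eq_two.mp hec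
          have hyzS : ({y, z} : Finset V) ∈ S := by rwa [← hyz2]
          have hyS : ({y} : Finset V) ∈ S := h.down _ hyzS _ (by simp)
          have hy : y ∈ lv S ∅ := (W1.HslkAux.mem_lv' S ∅ y).mpr ⟨Finset.notMem_empty _, hyS⟩
          have hz : z ∈ lv S {y} := by
            rw [W1.HslkAux.mem_lv', Finset.mem_singleton, Finset.pair_comm]
            exact ⟨fun h' => hyz h'.symm, hyzS⟩
          have e1 : nb S (lv S ∅) y = lv S {y} := nb_lv h hy
          have e2 : nb S (lv S {y}) z = lv S (t.erase x) := by
            rw [nb_lv h hz, Finset.pair_comm, ← hyz2]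
          have h1 := t3_drop h htop (by omega) hc hCI hy
          rw [e1] at h1
          obtain ⟨s, rfl⟩ : ∃ s, r = s + 1 := ⟨r - 1, by omega⟩
          have hLy : LS S (s + 1 + 1) (s + 1) (lv S {y}) := by
            have := ls_lv h hyS
            rwa [Finset.card_singleton, Nat.add_sub_cancel] at this
          have h2 := exc_mono h hLy hz
          rw [e2] at h2
          have hLe : LS S (s + 1 + 1) s (lv S (t.erase x)) := by
            have := ls_lv h heS
            rwa [hec, show s + 1 + 1 - 2 = s by omega] at this
          have hcl : Cls S (s + 1 + 1) 1 (lv S (t.erase x)) :=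
            cls_of_exc h hLe (by push_cast; linarith)
          have hM := (main_M (k := k) (lv (lkF S (t.erase x)) ∅).card _ (lkF S (t.erase x))
            (W1.hs_lk h _ heS) le_rfl (cls_lkF h heS hcl)).2 x (by
              rw [W1.lv_lkF h _ heS, W1.HslkAux.mem_lv', Finset.insert_erase hx]
              exact ⟨Finset.notMem_erase _ _, htS⟩)
          rw [H_lkF h heS (Finset.disjoint_empty_left _) (by rwa [Finset.empty_union]),
            H_lkF h heS (by
              rw [Finset.disjoint_singleton_left]
              exact Finset.notMem_erase _ _) (by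
              rwa [Finset.singleton_union, Finset.insert_erase hx]),
            Finset.empty_union, Finset.singleton_union, Finset.insert_erase hx, hec] at hM
          rw [Finset.union_empty, Finset.union_empty]
          exact hM)
      rw [insert_empty_eq, show r - 1 + 2 = r + 1 by omega] at hstep
      have h3 := (hlink {a} haS (Finset.singleton_nonempty a)).mulS
      rw [Finset.card_singleton, Nat.add_sub_cancel] at h3
      have h4 := hstep.add h3
      rwa [sub_add_cancel] at h4

end Pool.Agent.MP19e880.TT
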