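import Pool.Agent.Lib.MP_19e880_co_TT.T3
import Pool.Agent.Lib.MP_19e880_co_TT.ConE
import Pool.Agent.Lib.MP_19e880_co_TT.ConH
import Pool.Agent.Lib.MP_19e880_co_TT.LowR
import Pool.Agent.Lib.MP_19e880_co_TT.JoinG

/-!
The class of excess one: Gal conjecture and monotonicity.
-/

set_option autoImplicit false
set_option linter.unusedSectionVars false

namespace Pool.Agent.MP19e880.TT

open Polynomial

variable {V : Type} [Fintype V] [LinearOrder V] {k : Type} [Field k]

theorem mainM_empty {S : Finset (Finset V)} {d : ℕ} (h : HS k S d) : (∅ : Finset V) ∈ S :=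
  h.flag ∅ (fun a ha => absurd ha (Finset.notMem_empty a))

theorem mainM_ls {S : Finset (Finset V)} {d : ℕ} (h : HS k S d) {σ : Finset V} (hσ : σ ∈ S) :
    LS S d (d - σ.card) (lv S σ) := by
  have := h.card_le σ hσ
  exact ⟨σ, hσ, by omega, rfl⟩

/-- The links of the faces of a sphere of the class are in the class. -/
theorem mainM_cls {S : Finset (Finset V)} {d c : ℕ} (h : HS k S d) (hC : Cls S d c (lv S ∅))
    (σ : Finset V) : σ ∈ S → Cls S d c (lv S σ) := by
  induction σ using Finset.induction_on with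
  | empty => exact fun _ => hC
  | insert x σ hx ih =>
    intro hs
    have hσ : σ ∈ S := h.down _ hs _ (Finset.subset_insert _ _)
    have hxl : x ∈ lv S σ := (mem_lv σ x).mpr ⟨hx, hs⟩
    rw [← nb_lv h hxl]
    exact cls_nb h (mainM_ls h hσ) (ih hσ) hxl

theorem mainM_lt {S : Finset (Finset V)} {d : ℕ} (h : HS k S d) {σ : Finset V} (hσ : σ ∈ S)
    (hne : σ.Nonempty) : (lv S σ).card < (lv S ∅).card := by
  apply Finset.card_lt_card
  obtain ⟨x, hx⟩ := hne
  have hsub : lv S σ ⊆ lv S ∅ := by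
    intro y hy
    rw [mem_lv] at hy ⊢
    refine ⟨Finset.notMem_empty _, h.down _ hy.2 _ ?_⟩
    exact Finset.insert_subset_insert _ (Finset.empty_subset _)
  refine ⟨hsub, fun h' => ?_⟩
  have hx0 : x ∈ lv S ∅ := by
    rw [mem_lv]
    refine ⟨Finset.notMem_empty _, h.down _ hσ _ ?_⟩
    rw [insert_empty_eq]
    exact Finset.singleton_subset_iff.mpr hx
  exact ((mem_lv σ x).mp (h' hx0)).1 hx

/-- The induction hypothesis for a link. -/
theorem mainM_lk {n : ℕ}
    (ih : ∀ (d : ℕ) (S : Finset (Finset V)), HS k S d → (lv S ∅).card ≤ n →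
      Cls S d 1 (lv S ∅) → Cone d (H S d ∅) ∧
        ∀ v ∈ lv S ∅, Cone d (H S d ∅ - (1 + X) * H S d {v}))
    {S : Finset (Finset V)} {d : ℕ} (h : HS k S d) {σ : Finset V} (hσ : σ ∈ S)
    (hn : (lv S σ).card ≤ n) (hC : Cls S d 1 (lv S σ)) :
    Cone (d - σ.card) (H S d σ) ∧
      ∀ w ∈ lv S σ, Cone (d - σ.card) (H S d σ - (1 + X) * H S d (insert w σ)) := by
  have h1 := W1.hs_lk h σ hσ
  have h2 := W1.lv_lkF h σ hσ
  have h3 := ih (d - σ.card) (lkF S σ) h1 (by rw [h2]; exact hn) (cls_lkF h hσ hC)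
  have h4 : H (lkF S σ) (d - σ.card) ∅ = H S d σ := by
    have := H_lkF h hσ (Finset.disjoint_empty_left σ) (by rw [Finset.empty_union]; exact hσ)
    rw [this, Finset.empty_union]
  rw [h4, h2] at h3
  refine ⟨h3.1, fun w hw => ?_⟩
  have h5 := h3.2 w hw
  rw [mem_lv] at hw
  have h6 : H (lkF S σ) (d - σ.card) {w} = H S d (insert w σ) := by
    have := H_lkF h hσ (Finset.disjoint_singleton_left.mpr hw.1)
      (by rw [Finset.singleton_union]; exact hw.2)
    rw [this, Finset.singleton_union]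
  rw [h6] at h5
  exact h5

/-- Monotonicity in a join. -/
theorem mainM_join {n : ℕ}
    (ih : ∀ (d : ℕ) (S : Finset (Finset V)), HS k S d → (lv S ∅).card ≤ n →
      Cls S d 1 (lv S ∅) → Cone d (H S d ∅) ∧
        ∀ v ∈ lv S ∅, Cone d (H S d ∅ - (1 + X) * H S d {v}))
    {S : Finset (Finset V)} {d : ℕ} (h : HS k S d) (hn : (lv S ∅).card ≤ n + 1)
    (hC : Cls S d 1 (lv S ∅)) (hc : ¬ Con S (lv S ∅)) {v : V} (hv : v ∈ lv S ∅) :
    Cone d (H S d ∅ - (1 + X) * H S d {v}) := by
  obtain ⟨ρ, hρ, τ, hτ, h1, h2, h3, h4, h5⟩ := join_G h hc hv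
  have hvc : v ∈ cp S (lv S ∅) v := mem_cp_self hv
  have hn1 : (lv S ρ).card ≤ n := by
    have := Finset.card_lt_card (Finset.ssubset_iff_subset_ne.mpr
      ⟨cp_sub (S := S) (L := lv S ∅) (a := v), cp_ne hc hv⟩)
    rw [h1]
    omega
  have hn2 : (lv S τ).card ≤ n := by
    have : ((lv S ∅) \ cp S (lv S ∅) v).card < (lv S ∅).card := by
      apply Finset.card_lt_card
      refine ⟨Finset.sdiff_subset, fun h' => ?_⟩
      exact (Finset.mem_sdiff.mp (h' hv)).2 hvc
    rw [h2]
    omega
  have hC1 : Cls S d 1 (lv S ρ) := by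
    rw [h1]
    exact cls_cld (cp_cld S (lv S ∅) v) hC
  have hC2 : Cls S d 1 (lv S τ) := by
    rw [h2]
    exact cls_cld (cp_cld S (lv S ∅) v).sdiff hC
  have hM := (mainM_lk ih h hρ hn1 hC1).2 v (by rw [h1]; exact hvc)
  have hG := (mainM_lk ih h hτ hn2 hC2).1
  have hmul := hM.mul hG
  have e1 : d - ρ.card + (d - τ.card) = d := by omega
  rw [e1] at hmul
  have e2 : H S d ∅ - (1 + X) * H S d {v} =
      (H S d ρ - (1 + X) * H S d (insert v ρ)) * H S d τ := by
    rw [h4, h5]
    ring
  rw [e2]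
  exact hmul

/-- Monotonicity by contraction. -/
theorem mainM_con {n : ℕ}
    (ih : ∀ (d : ℕ) (S : Finset (Finset V)), HS k S d → (lv S ∅).card ≤ n →
      Cls S d 1 (lv S ∅) → Cone d (H S d ∅) ∧
        ∀ v ∈ lv S ∅, Cone d (H S d ∅ - (1 + X) * H S d {v}))
    {S : Finset (Finset V)} {d : ℕ} (h : HS k S d) (hn : (lv S ∅).card ≤ n + 1)
    (hC : Cls S d 1 (lv S ∅)) (hc : Con S (lv S ∅)) (hd : 6 ≤ d)
    {x y : V} (hy : y ∈ lv S ∅) (hxy : x ≠ y)
    (hS : ({x, y} : Finset V) ∈ S) (hsq : NoSqU S (lv S ∅) x y) {v : V} (hv : v ∈ lv S ∅) :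
    Cone d (H S d ∅ - (1 + X) * H S d {v}) := by
  have hq := noSq_of h hsq
  have hS' : HS k (W1.con S x y) d := W1.hs_con h x y hxy hS hq
  have hlv : lv (W1.con S x y) ∅ = (lv S ∅).erase y := W1.lv_con h.down x y hxy hS
  have hcls := cls_con h hd hc hxy hS hq hC
  have hlt : (lv (W1.con S x y) ∅).card ≤ n := by
    rw [hlv, Finset.card_erase_of_mem hy]
    omega
  obtain ⟨_, hM'⟩ := ih d (W1.con S x y) hS' hlt hcls
  have hS2 : ({y, x} : Finset V) ∈ S := by
    rw [Finset.pair_comm]
    exact hS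
  have hxS : ({x} : Finset V) ∈ S := h.down _ hS _ (by
    intro z hz
    rw [Finset.mem_singleton] at hz
    rw [hz]
    exact Finset.mem_insert_self _ _)
  have hyS : ({y} : Finset V) ∈ S := h.down _ hS2 _ (by
    intro z hz
    rw [Finset.mem_singleton] at hz
    rw [hz]
    exact Finset.mem_insert_self _ _)
  have lk : ∀ σ ∈ S, σ.Nonempty → Cone (d - σ.card) (H S d σ) ∧
      ∀ w ∈ lv S σ, Cone (d - σ.card) (H S d σ - (1 + X) * H S d (insert w σ)) := by
    intro σ hσ hne
    have := mainM_lt h hσ hne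
    exact mainM_lk ih h hσ (by omega) (mainM_cls h hC σ hσ)
  have hxy2 := lk {x, y} hS ⟨x, Finset.mem_insert_self _ _⟩
  rw [Finset.card_pair hxy] at hxy2
  have e2 : d - 2 + 2 = d := by omega
  have e1 : d - 1 + 1 = d := by omega
  have hX : Cone d (X * H S d {x, y}) := by
    have := hxy2.1.mulX
    rwa [e2] at this
  have hH := H_con h hxy hS hq
  have hend := H_con_end h hxy hS hq
  have hx' : x ∈ lv (W1.con S x y) ∅ := by
    rw [hlv, Finset.mem_erase]
    refine ⟨hxy, (mem_lv ∅ x).mpr ⟨Finset.notMem_empty _, ?_⟩⟩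
    rw [insert_empty_eq]
    exact hxS
  by_cases hvx : v = x
  · subst hvx
    have hm := (lk {y} hyS ⟨y, Finset.mem_singleton_self _⟩).2 v ((mem_lv {y} v).mpr
      ⟨by rw [Finset.mem_singleton]; exact hxy, hS⟩)
    rw [Finset.card_singleton] at hm
    have hm2 := hm.mulS
    rw [e1] at hm2
    have key := ((hM' v hx').add hX).add hm2
    have e3 : H S d ∅ - (1 + X) * H S d {v} =
        H (W1.con S v y) d ∅ - (1 + X) * H (W1.con S v y) d {v} + X * H S d {v, y} +
          (1 + X) * (H S d {y} - (1 + X) * H S d (insert v {y})) := by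
      have h8 : H (W1.con S v y) d {v} = H S d {v} + H S d {y} - (1 + X) * H S d {v, y} := by
        rw [hend]
        ring
      rw [hH, h8]
      ring
    rw [e3]
    exact key
  by_cases hvy : v = y
  · subst hvy
    have hm := (lk {x} hxS ⟨x, Finset.mem_singleton_self _⟩).2 v ((mem_lv {x} v).mpr
      ⟨by rw [Finset.mem_singleton]; exact hvx, hS2⟩)
    rw [Finset.card_singleton] at hm
    have hm2 := hm.mulS
    rw [e1] at hm2
    have key := ((hM' x hx').add hX).add hm2
    have e3 : H S d ∅ - (1 + X) * H S d {v} =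
        H (W1.con S x v) d ∅ - (1 + X) * H (W1.con S x v) d {x} + X * H S d {x, v} +
          (1 + X) * (H S d {x} - (1 + X) * H S d (insert v {x})) := by
      have h8 : H (W1.con S x v) d {x} = H S d {x} + H S d {v} - (1 + X) * H S d {x, v} := by
        rw [hend]
        ring
      have h9 : (insert v {x} : Finset V) = {x, v} := Finset.pair_comm v x
      rw [hH, h8, h9]
      ring
    rw [e3]
    exact key
  have hv' : v ∈ lv (W1.con S x y) ∅ := by
    rw [hlv, Finset.mem_erase]
    exact ⟨hvy, hv⟩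
  by_cases hw : ({v, x, y} : Finset V) ∈ S
  · have hb := H_con_both h hxy hS hq hvx hvy hw
    have hm := hxy2.2 v ((mem_lv {x, y} v).mpr ⟨by
      rw [Finset.mem_insert, Finset.mem_singleton, not_or]
      exact ⟨hvx, hvy⟩, hw⟩)
    have hm2 := hm.mulX
    rw [e2] at hm2
    have key := (hM' v hv').add hm2
    have e3 : H S d ∅ - (1 + X) * H S d {v} =
        H (W1.con S x y) d ∅ - (1 + X) * H (W1.con S x y) d {v} +
          X * (H S d {x, y} - (1 + X) * H S d (insert v {x, y})) := by
      rw [hH, hb]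
      ring
    rw [e3]
    exact key
  · have hvS : ({v} : Finset V) ∈ S := by
      have := ((mem_lv ∅ v).mp hv).2
      rwa [insert_empty_eq] at this
    have hb := H_con_one h hxy hS hq hvx hvy hvS hw
    have key := (hM' v hv').add hX
    have e3 : H S d ∅ - (1 + X) * H S d {v} =
        H (W1.con S x y) d ∅ - (1 + X) * H (W1.con S x y) d {v} + X * H S d {x, y} := by
      rw [hH, hb]
      ring
    rw [e3]
    exact key

theorem main_M : ∀ (n d : ℕ) (S : Finset (Finset V)), HS k S d → (lv S ∅).card ≤ n →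
    Cls S d 1 (lv S ∅) → Cone d (H S d ∅) ∧
      ∀ v ∈ lv S ∅, Cone d (H S d ∅ - (1 + X) * H S d {v}) := by
  intro n
  induction n with
  | zero =>
    intro d S h hn _
    have hU : lv S ∅ = ∅ := Finset.card_eq_zero.mp (Nat.le_zero.mp hn)
    have hd : d = 0 := (LS.zero h (LS.top h)).mp hU
    rw [hU]
    refine ⟨?_, fun v hv => absurd hv (Finset.notMem_empty v)⟩
    subst hd
    rw [H_facet (eul_of_hs h) ∅ (mainM_empty h) Finset.card_empty]
    exact Cone.one
  | succ n ih =>
    intro d S h hn hC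
    by_cases hn' : (lv S ∅).card ≤ n
    · exact ih d S h hn' hC
    have hne : (lv S ∅).Nonempty := by
      rw [← Finset.card_pos]
      omega
    have hM : ∀ v ∈ lv S ∅, Cone d (H S d ∅ - (1 + X) * H S d {v}) := by
      intro v hv
      by_cases hc : Con S (lv S ∅)
      · by_cases hd : d ≤ 5
        · exact low_M h hd hv
        · obtain ⟨r, rfl⟩ : ∃ r, d = r + 1 := ⟨d - 1, by omega⟩
          by_cases hCI : CI S (lv S ∅)
          · have he := exc_of_cls h (LS.top h) hc (by omega) hC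
            exact absurd (t3_one h (LS.top h) (by omega) hc hCI (by exact_mod_cast he)) id
          · unfold CI at hCI
            push Not at hCI
            obtain ⟨x, _, y, hy, hxy, hS, hsq⟩ := hCI
            exact mainM_con ih h hn hC hc (by omega) hy hxy hS hsq hv
      · exact mainM_join ih h hn hC hc hv
    refine ⟨?_, hM⟩
    obtain ⟨v, hv⟩ := hne
    have hvS : ({v} : Finset V) ∈ S := by
      have := ((mem_lv ∅ v).mp hv).2
      rwa [insert_empty_eq] at this
    have hvn : ({v} : Finset V).Nonempty := ⟨v, Finset.mem_singleton_self _⟩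
    have hlt := mainM_lt h hvS hvn
    have hG := (mainM_lk ih h hvS (by omega) (mainM_cls h hC {v} hvS)).1.mulS
    have hcd := h.card_le _ hvS
    rw [Finset.card_singleton] at hG hcd
    have e1 : d - 1 + 1 = d := by omega
    rw [e1] at hG
    have key := (hM v hv).add hG
    have e2 : H S d ∅ - (1 + X) * H S d {v} + (1 + X) * H S d {v} = H S d ∅ := by ring
    rw [e2] at key
    exact key

end Pool.Agent.MP19e880.TT
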