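import Pool.Agent.Lib.MP_19e880_co_TT.Outl
import Pool.Agent.Lib.MP_19e880_co_TT.LemF
import Pool.Agent.Lib.MP_19e880_co_TT.CIt
import Pool.Agent.Lib.MP_19e880_co_TT.LemB

/-!
No sphere without contractible edges in which all vertex links have excess zero.
-/

set_option autoImplicit false
set_option linter.unusedSectionVars false

namespace Pool.Agent.MP19e880.TT

variable {V : Type} [Fintype V] [LinearOrder V] {k : Type} [Field k]
  {S : Finset (Finset V)} {d : ℕ}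

private theorem NoCI_nb (h : HS k S d) {r : ℕ} {U : Finset V} (hU : LS S d (r + 1) U) {v : V}
    (hv : v ∈ U) : LS S d r (nb S U v) := by
  obtain ⟨s, h1, h2⟩ := LS.nb h hU hv
  have h3 : s = r := by omega
  rw [h3] at h2
  exact h2

private theorem NoCI_ne (h : HS k S d) {r : ℕ} {U : Finset V} (hU : LS S d r U) (hr : 1 ≤ r) :
    U.Nonempty := by
  rw [Finset.nonempty_iff_ne_empty]
  intro h1
  have h2 := (LS.zero h hU).1 h1
  omega

private theorem NoCI_card (h : HS k S d) {r : ℕ} {U : Finset V} (hU : LS S d r U) (hr : 1 ≤ r)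
    (h0 : exc S r U = 0) : U.card + 1 ≤ 3 * r := by
  have h1 := nc_pos (S := S) (NoCI_ne h hU hr)
  unfold exc at h0
  have h2 : (1 : ℤ) ≤ (nc S U : ℤ) := by exact_mod_cast h1
  have h3 : (U.card : ℤ) + 1 ≤ 3 * (r : ℤ) := by linarith
  exact_mod_cast h3

private theorem NoCI_sizes (h : HS k S d) {r : ℕ} {U : Finset V} (hU : LS S d (r + 1) U)
    (hr : 5 ≤ r) (hc : Con S U) (h0 : ∀ v ∈ U, exc S r (nb S U v) = 0) :
    (U.card : ℤ) = exc S (r + 1) U + 3 * r + 2 ∧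
      (∀ v ∈ U, ((nk S U v).card : ℤ) ≤ exc S (r + 1) U + 1 + r) ∧
      (∀ v ∈ U, Con S (nb S U v) → ((nk S U v).card : ℤ) = exc S (r + 1) U + 2) := by
  have hne := NoCI_ne h hU (by omega)
  have h1 := nc_one (S := S) hc hne
  refine ⟨?_, ?_, ?_⟩
  · unfold exc
    rw [h1]
    push_cast
    ring
  · intro v hv
    have h2 := exc_con h hU hc hv
    have h3 := h0 v hv
    have hL := NoCI_nb h hU hv
    have h4 := LS.two_mul h hL
    rw [h3] at h2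
    unfold exc at h3
    have h5 : (2 * (r : ℤ)) ≤ ((nb S U v).card : ℤ) := by exact_mod_cast h4
    have h6 : (nc S (nb S U v) : ℤ) ≤ r := by linarith
    linarith
  · intro v hv hcv
    have h2 := exc_con h hU hc hv
    have hL := NoCI_nb h hU hv
    have h4 := nc_one (S := S) hcv (NoCI_ne h hL (by omega))
    rw [h0 v hv, h4] at h2
    push_cast at h2
    linarith

theorem k_simplex (h : HS k S d) {r : ℕ} {U : Finset V} (hU : LS S d (r + 1) U) (hr : 5 ≤ r)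
    (hc : Con S U) (he : exc S (r + 1) U ≤ 2) (h0 : ∀ v ∈ U, exc S r (nb S U v) = 0) {a : V}
    (ha : a ∈ U) (hca : Con S (nb S U a)) :
    ∀ u ∈ nk S U a, ∀ v ∈ nk S U a, ({u, v} : Finset V) ∈ S := by
  intro u hu v hv
  by_contra huv
  obtain ⟨hs1, hs2, hs3⟩ := NoCI_sizes h hU hr hc h0
  obtain ⟨hu1, hu2⟩ := mem_nk.1 hu
  obtain ⟨hv1, hv2⟩ := mem_nk.1 hv
  have hau : ({a, u} : Finset V) ∉ S := fun h' => hu2 (pair_symm h')
  have hav : ({a, v} : Finset V) ∉ S := fun h' => hv2 (pair_symm h')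
  have hn : (nk S U a).card + (nk S U u).card + (nk S U v).card < U.card + 3 := by
    have h1 := hs3 a ha hca
    have h2 := hs2 u hu1
    have h3 := hs2 v hv1
    have h4 : (5 : ℤ) ≤ r := by exact_mod_cast hr
    have h5 : ((nk S U a).card : ℤ) + (nk S U u).card + (nk S U v).card < U.card + 3 := by
      linarith
    exact_mod_cast h5
  obtain ⟨b, hb, hba, hbu, hbv, hba2, hbu2, hbv2⟩ := common_nb h hU ha hu1 hv1 hau hav huv hn
  have hL := NoCI_nb h hU hb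
  have ha' : a ∈ nb S U b := mem_nb.2 ⟨ha, fun h' => hba h'.symm, pair_symm hba2⟩
  have hu' : u ∈ nk S (nb S U b) a :=
    mem_nk.2 ⟨mem_nb.2 ⟨hu1, fun h' => hbu h'.symm, pair_symm hbu2⟩, hu2⟩
  have hv' : v ∈ nk S (nb S U b) a :=
    mem_nk.2 ⟨mem_nb.2 ⟨hv1, fun h' => hbv h'.symm, pair_symm hbv2⟩, hv2⟩
  exact huv (z_simplex h hL (h0 b hb) ha' hu' hv')

/-- The common neighbour `b'`. -/
private theorem NoCI_common (h : HS k S d) {r : ℕ} {U : Finset V} (hU : LS S d (r + 1) U)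
    (hr : 5 ≤ r) (hUc : U.card + 5 ≤ 4 * (r + 1)) (h0 : ∀ v ∈ U, exc S r (nb S U v) = 0)
    {x y p q : V} (hx : x ∈ U) (hy : y ∈ U) (hp : p ∈ U) (hq : q ∈ U) (hxy : x ≠ y)
    (hpq : p ≠ q) (hxy2 : ({x, y} : Finset V) ∈ S) (hpq2 : ({p, q} : Finset V) ∈ S)
    (hyp : ({y, p} : Finset V) ∉ S) (hxq : ({x, q} : Finset V) ∉ S) (τ : Finset V)
    (hτ : τ ⊆ U) (hτc : τ.card ≤ 2) (hτ2 : ∀ u ∈ τ, ∀ v ∈ τ, ({u, v} : Finset V) ∈ S)
    (hτ3 : ∀ z ∈ τ, x ≠ z ∧ y ≠ z ∧ p ≠ z ∧ q ≠ z ∧ ({x, z} : Finset V) ∈ S ∧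
      ({y, z} : Finset V) ∈ S ∧ ({p, z} : Finset V) ∈ S ∧ ({q, z} : Finset V) ∈ S) :
    ∃ b ∈ U, b ≠ x ∧ b ≠ y ∧ b ≠ p ∧ b ≠ q ∧ ({b, x} : Finset V) ∈ S ∧
      ({b, y} : Finset V) ∈ S ∧ ({b, p} : Finset V) ∈ S ∧ ({b, q} : Finset V) ∈ S ∧
      ∀ z ∈ τ, b ≠ z ∧ ({b, z} : Finset V) ∈ S := by
  rcases Nat.lt_or_ge τ.card 1 with h1 | h1
  · have h2 : τ = ∅ := Finset.card_eq_zero.1 (by omega)
    obtain ⟨b, hb, c1, c2, c3, c4, c5, c6, c7, c8⟩ :=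
      lemF h hU hx hy hp hq hxy hpq hxy2 hpq2 hyp hxq hUc
    refine ⟨b, hb, c1, c2, c3, c4, c5, c6, c7, c8, ?_⟩
    intro z hz
    rw [h2] at hz
    exact absurd hz (Finset.notMem_empty _)
  · obtain ⟨z, hz⟩ := Finset.card_pos.1 (by omega : 0 < τ.card)
    have hzU := hτ hz
    have hL := NoCI_nb h hU hzU
    obtain ⟨d1, d2, d3, d4, d5, d6, d7, d8⟩ := hτ3 z hz
    have hx1 : x ∈ nb S U z := mem_nb.2 ⟨hx, d1, d5⟩
    have hy1 : y ∈ nb S U z := mem_nb.2 ⟨hy, d2, d6⟩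
    have hp1 : p ∈ nb S U z := mem_nb.2 ⟨hp, d3, d7⟩
    have hq1 : q ∈ nb S U z := mem_nb.2 ⟨hq, d4, d8⟩
    have hce := h0 z hzU
    have hcd := NoCI_card h hL (by omega) hce
    rcases Nat.lt_or_ge τ.card 2 with h3 | h3
    · obtain ⟨b, hb, c1, c2, c3, c4, c5, c6, c7, c8⟩ :=
        lemF h hL hx1 hy1 hp1 hq1 hxy hpq hxy2 hpq2 hyp hxq (by omega)
      obtain ⟨e1, e2, e3⟩ := mem_nb.1 hb
      refine ⟨b, e1, c1, c2, c3, c4, c5, c6, c7, c8, ?_⟩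
      intro z' hz'
      have h4 : τ.card = 1 := by omega
      obtain ⟨t, ht⟩ := Finset.card_eq_one.1 h4
      have h5 : z' = z := by
        rw [ht, Finset.mem_singleton] at hz hz'
        rw [hz, hz']
      rw [h5]
      exact ⟨e2, e3⟩
    · have h4 : τ.card = 2 := by omega
      have h5 : 0 < (τ.erase z).card := by
        rw [Finset.card_erase_of_mem hz]
        omega
      obtain ⟨z', hz'⟩ := Finset.card_pos.1 h5
      have hz'1 := Finset.mem_of_mem_erase hz'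
      have hz'2 := Finset.ne_of_mem_erase hz'
      have hz'U : z' ∈ nb S U z := mem_nb.2 ⟨hτ hz'1, hz'2, hτ2 z' hz'1 z hz⟩
      obtain ⟨s, hs⟩ : ∃ s, r = s + 1 := ⟨r - 1, by omega⟩
      rw [hs] at hL hce
      have hL2 := NoCI_nb h hL hz'U
      have hce2 := z_nb h hL hce hz'U
      have hcd2 := NoCI_card h hL2 (by omega) hce2
      obtain ⟨f1, f2, f3, f4, f5, f6, f7, f8⟩ := hτ3 z' hz'1
      have hx2 : x ∈ nb S (nb S U z) z' := mem_nb.2 ⟨hx1, f1, f5⟩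
      have hy2 : y ∈ nb S (nb S U z) z' := mem_nb.2 ⟨hy1, f2, f6⟩
      have hp2 : p ∈ nb S (nb S U z) z' := mem_nb.2 ⟨hp1, f3, f7⟩
      have hq2 : q ∈ nb S (nb S U z) z' := mem_nb.2 ⟨hq1, f4, f8⟩
      obtain ⟨b, hb, c1, c2, c3, c4, c5, c6, c7, c8⟩ :=
        lemF h hL2 hx2 hy2 hp2 hq2 hxy hpq hxy2 hpq2 hyp hxq (by omega)
      obtain ⟨e1, e2, e3⟩ := mem_nb.1 hb
      obtain ⟨e4, e5, e6⟩ := mem_nb.1 e1
      refine ⟨b, e4, c1, c2, c3, c4, c5, c6, c7, c8, ?_⟩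
      intro t ht
      by_cases h6 : t = z
      · rw [h6]
        exact ⟨e5, e6⟩
      · have h7 : (τ.erase z).card = 1 := by
          rw [Finset.card_erase_of_mem hz]
          omega
        obtain ⟨t', ht'⟩ := Finset.card_eq_one.1 h7
        have h8 : t ∈ τ.erase z := Finset.mem_erase.2 ⟨h6, ht⟩
        rw [ht', Finset.mem_singleton] at h8 hz'
        rw [h8, ← hz']
        exact ⟨e2, e3⟩

theorem no_ci (h : HS k S d) {r : ℕ} {U : Finset V} (hU : LS S d (r + 1) U) (hr : 5 ≤ r)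
    (hc : Con S U) (hCI : CI S U) (he : exc S (r + 1) U ≤ 2)
    (h0 : ∀ v ∈ U, exc S r (nb S U v) = 0) : False := by
  obtain ⟨hs1, hs2, hs3⟩ := NoCI_sizes h hU hr hc h0
  have he0 := exc_nonneg h hU
  obtain ⟨a, ha, hca⟩ := irr_vertex h hU hc (by omega)
  have hK := hs3 a ha hca
  have hLa := NoCI_nb h hU ha
  have hnca := nc_one (S := S) hca (NoCI_ne h hLa (by omega))
  have hKge : 2 ≤ (nk S U a).card := by
    have : (2 : ℤ) ≤ (nk S U a).card := by linarith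
    exact_mod_cast this
  have hKle : (nk S U a).card ≤ 4 := by
    have : ((nk S U a).card : ℤ) ≤ 4 := by linarith
    exact_mod_cast this
  have hs := k_simplex h hU hr hc he h0 ha hca
  have hKS : nk S U a ∈ S := h.flag _ hs
  have hKU : nk S U a ⊆ U := fun x hx => (mem_nk.1 hx).1
  obtain ⟨G, hG1, hG2, hG3, hG4⟩ := LS.facet h hU hKU hKS
  obtain ⟨b0, hb0G, hb0K⟩ : ∃ b ∈ G, b ∉ nk S U a := by
    by_contra hcon
    push Not at hcon
    have h1 := Finset.card_le_card (fun x hx => hcon x hx : G ⊆ nk S U a)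
    omega
  have hb0U := hG2 hb0G
  have hb0adj : ∀ z ∈ nk S U a, ({z, b0} : Finset V) ∈ S := by
    intro z hz
    refine h.down G hG3 _ ?_
    intro t ht
    rw [Finset.mem_insert, Finset.mem_singleton] at ht
    rcases ht with rfl | rfl
    · exact hG1 hz
    · exact hb0G
  have hb0z : ∀ z ∈ nk S U a, b0 ≠ z := fun z hz h' => hb0K (h' ▸ hz)
  obtain ⟨z0, hz0⟩ := Finset.card_pos.1 (by omega : 0 < (nk S U a).card)
  have hb0a : b0 ≠ a := by
    intro h'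
    have h1 := hb0adj z0 hz0
    rw [h'] at h1
    exact (mem_nk.1 hz0).2 h1
  have hb0a2 : ({b0, a} : Finset V) ∈ S := by
    by_contra h'
    exact hb0K (mem_nk.2 ⟨hb0U, h'⟩)
  have hU0 := NoCI_nb h hU hb0U
  have hE0 := h0 b0 hb0U
  have ha0 : a ∈ nb S U b0 := mem_nb.2 ⟨ha, fun h' => hb0a h'.symm, pair_symm hb0a2⟩
  have hnk0 : nk S (nb S U b0) a = nk S U a := by
    ext z
    rw [mem_nk, mem_nk, mem_nb]
    constructor
    · rintro ⟨⟨h1, -, -⟩, h2⟩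
      exact ⟨h1, h2⟩
    · rintro ⟨h1, h2⟩
      have h3 : z ∈ nk S U a := mem_nk.2 ⟨h1, h2⟩
      exact ⟨⟨h1, fun h' => hb0z z h3 h'.symm, hb0adj z h3⟩, h2⟩
  obtain ⟨x, hx, y, hy, hxy, H1, H2⟩ := z_cherry h hU0 hE0 ha0 (by rw [hnk0]; exact hKge)
  rw [hnk0] at hx hy
  obtain ⟨hxU, hxa⟩ := mem_nk.1 hx
  obtain ⟨hyU, hya⟩ := mem_nk.1 hy
  have hxy2 := hs x hx y hy
  have hci := hCI x hxU y hyU hxy hxy2
  unfold NoSqU at hci
  push Not at hci
  obtain ⟨p, hpU, q, hqU, hxp, hyq, hpq2, hyp, hxq⟩ := hci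
  have hpq : p ≠ q := by
    intro h'
    rw [h'] at hxp
    exact hxq hxp
  have hpK : p ∉ nk S U a := fun h' => hyp (hs y hy p h')
  have hqK : q ∉ nk S U a := fun h' => hxq (hs x hx q h')
  have hpa : ({p, a} : Finset V) ∈ S := by
    by_contra h'
    exact hpK (mem_nk.2 ⟨hpU, h'⟩)
  have hqa : ({q, a} : Finset V) ∈ S := by
    by_contra h'
    exact hqK (mem_nk.2 ⟨hqU, h'⟩)
  have hpna : p ≠ a := by
    intro h'
    rw [h'] at hxp
    exact hxa hxp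
  have hqna : q ≠ a := by
    intro h'
    rw [h'] at hyq
    exact hya hyq
  -- the set `τ`
  have hUc : U.card + 5 ≤ 4 * (r + 1) := by
    have h4 : (5 : ℤ) ≤ r := by exact_mod_cast hr
    have h5 : (U.card : ℤ) + 5 ≤ 4 * (r + 1) := by linarith
    exact_mod_cast h5
  let τ : Finset V := (nk S U a).filter
    (fun z => z ≠ x ∧ z ≠ y ∧ ({z, p} : Finset V) ∈ S ∧ ({z, q} : Finset V) ∈ S)
  have hmτ : ∀ z, z ∈ τ ↔ z ∈ nk S U a ∧ (z ≠ x ∧ z ≠ y ∧ ({z, p} : Finset V) ∈ S ∧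
      ({z, q} : Finset V) ∈ S) := fun z => by
    simp only [τ, Finset.mem_filter]
  have hτK : τ ⊆ nk S U a := fun z hz => ((hmτ z).1 hz).1
  have hτc : τ.card ≤ 2 := by
    have h1 : insert x (insert y τ) ⊆ nk S U a :=
      Finset.insert_subset hx (Finset.insert_subset hy hτK)
    have h2 : y ∉ τ := fun h' => ((hmτ y).1 h').2.2.1 rfl
    have h3 : x ∉ insert y τ := by
      rw [Finset.mem_insert]
      rintro (h' | h')
      · exact hxy h'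
      · exact ((hmτ x).1 h').2.1 rfl
    have h4 := Finset.card_le_card h1
    rw [Finset.card_insert_of_notMem h3, Finset.card_insert_of_notMem h2] at h4
    omega
  obtain ⟨b, hbU, hbx, hby, hbp, hbq, hbx2, hby2, hbp2, hbq2, hbτ⟩ :=
    NoCI_common h hU hr hUc h0 hxU hyU hpU hqU hxy hpq hxy2 hpq2 hyp hxq τ
      (hτK.trans hKU) hτc (fun u hu v hv => hs u (hτK hu) v (hτK hv)) (fun z hz => by
        obtain ⟨g1, g2, g3, g4, g5⟩ := (hmτ z).1 hz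
        refine ⟨fun h' => g2 h'.symm, fun h' => g3 h'.symm, ?_, ?_, hs x hx z g1, hs y hy z g1,
          pair_symm g4, pair_symm g5⟩
        · intro h'
          rw [h'] at hpK
          exact hpK g1
        · intro h'
          rw [h'] at hqK
          exact hqK g1)
  have hbK : b ∉ nk S U a := by
    intro h'
    have h1 : b ∈ τ := (hmτ b).2 ⟨h', hbx, hby, hbp2, hbq2⟩
    exact (hbτ b h1).1 rfl
  have hba : b ≠ a := by
    intro h'
    rw [h'] at hbx2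
    exact hxa (pair_symm hbx2)
  have hba2 : ({b, a} : Finset V) ∈ S := by
    by_contra h'
    exact hbK (mem_nk.2 ⟨hbU, h'⟩)
  have hU1 := NoCI_nb h hU hbU
  have hE1 := h0 b hbU
  have ha1 : a ∈ nb S U b := mem_nb.2 ⟨ha, fun h' => hba h'.symm, pair_symm hba2⟩
  have hx1 : x ∈ nk S (nb S U b) a :=
    mem_nk.2 ⟨mem_nb.2 ⟨hxU, fun h' => hbx h'.symm, pair_symm hbx2⟩, hxa⟩
  have hy1 : y ∈ nk S (nb S U b) a :=
    mem_nk.2 ⟨mem_nb.2 ⟨hyU, fun h' => hby h'.symm, pair_symm hby2⟩, hya⟩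
  have hp1 : p ∈ nb S (nb S U b) a :=
    mem_nb.2 ⟨mem_nb.2 ⟨hpU, fun h' => hbp h'.symm, pair_symm hbp2⟩, hpna, hpa⟩
  have hq1 : q ∈ nb S (nb S U b) a :=
    mem_nb.2 ⟨mem_nb.2 ⟨hqU, fun h' => hbq h'.symm, pair_symm hbq2⟩, hqna, hqa⟩
  -- the outlier
  have hout : ∀ z ∈ nk S (nb S U b) a, z ≠ x → z ≠ y →
      Cm S U a b x y z ∧ Ot S U a b x y z := by
    intro z hz hzx hzy
    obtain ⟨hzb, hza⟩ := mem_nk.1 hz
    obtain ⟨hzU, hzb1, hzb2⟩ := mem_nb.1 hzb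
    have hzK : z ∈ nk S U a := mem_nk.2 ⟨hzU, hza⟩
    have hCb : Cm S U a b x y z := ⟨hbU, hba, hba2, hbx, hby, fun h' => hzb1 h'.symm,
      pair_symm hbx2, pair_symm hby2, hzb2⟩
    have hCb0 : Cm S U a b0 x y z := ⟨hb0U, hb0a, hb0a2, hb0z x hx, hb0z y hy, hb0z z hzK,
      hb0adj x hx, hb0adj y hy, hb0adj z hzK⟩
    have hO0 : Ot S U a b0 x y z := by
      obtain ⟨q0, hq0, h3⟩ := z_three h hU0 hE0 ha0 (x := x) (y := y) (z := z)
        (by rw [hnk0]; exact hx) (by rw [hnk0]; exact hy) (by rw [hnk0]; exact hzK) hxy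
        (fun h' => hzx h'.symm) (fun h' => hzy h'.symm)
      obtain ⟨i1, i2, i3⟩ := mem_nb.1 hq0
      obtain ⟨i4, i5, i6⟩ := mem_nb.1 i1
      rcases h3 with ⟨j1, j2, j3⟩ | ⟨j1, j2, j3⟩ | ⟨j1, j2, j3⟩
      · refine ⟨q0, i4, i2, i5, i3, i6, (mem_Mp.1 j1).2, (mem_Mp.1 j2).2, ?_⟩
        by_contra h'
        exact j3 (mem_Mp.2 ⟨by rw [hnk0]; exact hzK, h'⟩)
      · have h4 := H1 q0 hq0 j1 j2
        rw [h4, Finset.mem_singleton] at j3
        exact absurd j3 hzx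
      · have h4 := H2 q0 hq0 j2 j1
        rw [h4, Finset.mem_singleton] at j3
        exact absurd j3 hzy
    exact ⟨hCb, ot_const h hU (by omega) h0 ha hx hy hzK hxy (fun h' => hzx h'.symm)
      (fun h' => hzy h'.symm) hs hKle hCb0 hCb hO0⟩
  have C1 : ∀ w ∈ nb S (nb S U b) a, x ∈ Mp S (nb S U b) a w → y ∉ Mp S (nb S U b) a w →
      Mp S (nb S U b) a w = {x} := by
    intro w hw hxw hyw
    rw [Finset.eq_singleton_iff_unique_mem]
    refine ⟨hxw, ?_⟩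
    intro z hz
    by_contra hzx
    have hzy : z ≠ y := by
      intro h'
      rw [h'] at hz
      exact hyw hz
    obtain ⟨hz1, hz2⟩ := mem_Mp.1 hz
    obtain ⟨hCb, hO⟩ := hout z hz1 hzx hzy
    obtain ⟨hzb, hza⟩ := mem_nk.1 hz1
    have hzK : z ∈ nk S U a := mem_nk.2 ⟨(mem_nb.1 hzb).1, hza⟩
    obtain ⟨i1, i2, i3⟩ := mem_nb.1 hw
    obtain ⟨i4, i5, i6⟩ := mem_nb.1 i1
    refine ot_unique h hU h0 ha hx hy hzK hCb hO
      ⟨w, i4, i2, i5, i3, i6, (mem_Mp.1 hxw).2, hz2, ?_⟩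
    by_contra h'
    exact hyw (mem_Mp.2 ⟨hy1, h'⟩)
  have C2 : ∀ w ∈ nb S (nb S U b) a, y ∈ Mp S (nb S U b) a w → x ∉ Mp S (nb S U b) a w →
      Mp S (nb S U b) a w = {y} := by
    intro w hw hyw hxw
    rw [Finset.eq_singleton_iff_unique_mem]
    refine ⟨hyw, ?_⟩
    intro z hz
    by_contra hzy
    have hzx : z ≠ x := by
      intro h'
      rw [h'] at hz
      exact hxw hz
    obtain ⟨hz1, hz2⟩ := mem_Mp.1 hz
    obtain ⟨hCb, hO⟩ := hout z hz1 hzx hzy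
    obtain ⟨hzb, hza⟩ := mem_nk.1 hz1
    have hzK : z ∈ nk S U a := mem_nk.2 ⟨(mem_nb.1 hzb).1, hza⟩
    obtain ⟨i1, i2, i3⟩ := mem_nb.1 hw
    obtain ⟨i4, i5, i6⟩ := mem_nb.1 i1
    obtain ⟨k1, k2, k3, k4, k5, k6, k7, k8, k9⟩ := hCb
    obtain ⟨o, o1, o2, o3, o4, o5, o6, o7, o8⟩ := hO
    refine ot_unique h hU h0 ha hy hx hzK ⟨k1, k2, k3, k5, k4, k6, k8, k7, k9⟩
      ⟨o, o1, o2, o3, o4, o5, o7, o6, o8⟩
      ⟨w, i4, i2, i5, i3, i6, (mem_Mp.1 hyw).2, hz2, ?_⟩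
    by_contra h'
    exact hxw (mem_Mp.2 ⟨hx1, h'⟩)
  have hMp : Mp S (nb S U b) a p = {y} :=
    C2 p hp1 (mem_Mp.2 ⟨hy1, hyp⟩) (fun h' => (mem_Mp.1 h').2 hxp)
  have hMq : Mp S (nb S U b) a q = {x} :=
    C1 q hq1 (mem_Mp.2 ⟨hx1, hxq⟩) (fun h' => (mem_Mp.1 h').2 hyq)
  exact z_four h hU1 hE1 ha1 hx1 hy1 hxy C1 C2 hq1 hp1 (fun h' => hpq h'.symm)
    (pair_symm hpq2) hMq hMp

end Pool.Agent.MP19e880.TT
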