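import Pool.Agent.Lib.MP_19e880_co_TT.Zero

/-!
Outliers.
-/

set_option autoImplicit false
set_option linter.unusedSectionVars false

namespace Pool.Agent.MP19e880.TT

variable {V : Type} [Fintype V] [LinearOrder V] {k : Type} [Field k]
  {S : Finset (Finset V)} {d : ℕ}

/-- In the link of `b`, the vertex `z` is the outlier of `x, y, z`. -/
def Ot (S : Finset (Finset V)) (U : Finset V) (a b x y z : V) : Prop :=
  ∃ q ∈ U, q ≠ a ∧ q ≠ b ∧ ({q, a} : Finset V) ∈ S ∧ ({q, b} : Finset V) ∈ S ∧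
    ({x, q} : Finset V) ∉ S ∧ ({y, q} : Finset V) ∉ S ∧ ({z, q} : Finset V) ∈ S

/-- `b` is a neighbour of `a`, `x`, `y`, `z` in `U`. -/
def Cm (S : Finset (Finset V)) (U : Finset V) (a b x y z : V) : Prop :=
  b ∈ U ∧ b ≠ a ∧ ({b, a} : Finset V) ∈ S ∧ b ≠ x ∧ b ≠ y ∧ b ≠ z ∧
    ({x, b} : Finset V) ∈ S ∧ ({y, b} : Finset V) ∈ S ∧ ({z, b} : Finset V) ∈ S

private theorem Outl_nk {U : Finset V} {a b x : V} (hx : x ∈ nk S U a) (hbx : b ≠ x)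
    (hxb : ({x, b} : Finset V) ∈ S) : x ∈ nk S (nb S U b) a := by
  rw [mem_nk] at hx ⊢
  exact ⟨mem_nb.mpr ⟨hx.1, hbx.symm, hxb⟩, hx.2⟩

private theorem Outl_base {U : Finset V} {a b : V} (ha : a ∈ U) (hba : b ≠ a)
    (hS : ({b, a} : Finset V) ∈ S) : a ∈ nb S U b := by
  rw [mem_nb]
  refine ⟨ha, hba.symm, ?_⟩
  rw [Finset.pair_comm]
  exact hS

/-- Uniqueness of the outlier. -/
theorem ot_unique (h : HS k S d) {r : ℕ} {U : Finset V} (hU : LS S d (r + 1) U)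
    (h0 : ∀ v ∈ U, exc S r (nb S U v) = 0) {a b x y z : V} (ha : a ∈ U) (hx : x ∈ nk S U a)
    (hy : y ∈ nk S U a) (hz : z ∈ nk S U a) (hb : Cm S U a b x y z)
    (h1 : Ot S U a b x y z) (h2 : Ot S U a b x z y) : False := by
  obtain ⟨hbU, hba, hbaS, hbx, hby, hbz, hxb, hyb, hzb⟩ := hb
  obtain ⟨q, hqU, hqa, hqb, hqaS, hqbS, hxq, hyq, hzq⟩ := h1
  obtain ⟨p, hpU, hpa, hpb, hpaS, hpbS, hxp, hzp, hyp⟩ := h2
  obtain ⟨s, hs, hL⟩ := LS.nb h hU hbU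
  obtain rfl : r = s := by omega
  have haB := Outl_base ha hba hbaS
  have hxB := Outl_nk hx hbx hxb
  have hyB := Outl_nk hy hby hyb
  have hzB := Outl_nk hz hbz hzb
  have hq : q ∈ nb S (nb S U b) a := mem_nb.mpr ⟨mem_nb.mpr ⟨hqU, hqb, hqbS⟩, hqa, hqaS⟩
  have hp : p ∈ nb S (nb S U b) a := mem_nb.mpr ⟨mem_nb.mpr ⟨hpU, hpb, hpbS⟩, hpa, hpaS⟩
  rcases z_lam h hL (h0 b hbU) haB hq hp with h3 | h3 | h3
  · have h4 := h3 (mem_Mp.mpr ⟨hyB, hyq⟩)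
    exact (mem_Mp.mp h4).2 hyp
  · have h4 := h3 (mem_Mp.mpr ⟨hzB, hzp⟩)
    exact (mem_Mp.mp h4).2 hzq
  · exact Finset.disjoint_left.mp h3 (mem_Mp.mpr ⟨hxB, hxq⟩) (mem_Mp.mpr ⟨hxB, hxp⟩)

/-- The outlier does not change along an edge. -/
theorem ot_edge (h : HS k S d) {r : ℕ} {U : Finset V} (hU : LS S d (r + 1) U)
    (h0 : ∀ v ∈ U, exc S r (nb S U v) = 0) {a b b' x y z : V} (ha : a ∈ U)
    (hx : x ∈ nk S U a) (hy : y ∈ nk S U a) (hz : z ∈ nk S U a)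
    (hxy : x ≠ y) (hxz : x ≠ z) (hyz : y ≠ z) (hb : Cm S U a b x y z)
    (hb' : Cm S U a b' x y z) (hbb : b ≠ b') (hbb2 : ({b, b'} : Finset V) ∈ S)
    (h1 : Ot S U a b x y z) : Ot S U a b' x y z := by
  have hbc := hb
  obtain ⟨hbU, hba, hbaS, hbx, hby, hbz, hxb, hyb, hzb⟩ := hb
  obtain ⟨hcU, hca, hcaS, hcx, hcy, hcz, hxc, hyc, hzc⟩ := hb'
  obtain ⟨s, hs, hL⟩ := LS.nb h hU hbU
  obtain rfl : r = s := by omega
  have hcB : b' ∈ nb S U b := by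
    rw [mem_nb]
    refine ⟨hcU, hbb.symm, ?_⟩
    rw [Finset.pair_comm]
    exact hbb2
  obtain ⟨s, rfl, hL2⟩ := LS.nb h hL hcB
  have hz2 := z_nb h hL (h0 b hbU) hcB
  have haB := Outl_base ha hba hbaS
  have haC := Outl_base haB hca hcaS
  have hxB := Outl_nk (Outl_nk hx hbx hxb) hcx hxc
  have hyB := Outl_nk (Outl_nk hy hby hyb) hcy hyc
  have hzB := Outl_nk (Outl_nk hz hbz hzb) hcz hzc
  obtain ⟨q, hq, hcase⟩ := z_three h hL2 hz2 haC hxB hyB hzB hxy hxz hyz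
  have hq2 := mem_nb.mp hq
  have hq3 := mem_nb.mp hq2.1
  have hq4 := mem_nb.mp hq3.1
  have hin : ∀ {v : V}, v ∈ nk S (nb S (nb S U b) b') a →
      v ∉ Mp S (nb S (nb S U b) b') a q → ({v, q} : Finset V) ∈ S := by
    intro v hv hv2
    by_contra hcon
    exact hv2 (mem_Mp.mpr ⟨hv, hcon⟩)
  rcases hcase with ⟨h3, h4, h5⟩ | ⟨h3, h4, h5⟩ | ⟨h3, h4, h5⟩
  · exact ⟨q, hq4.1, hq2.2.1, hq3.2.1, hq2.2.2, hq3.2.2, (mem_Mp.mp h3).2, (mem_Mp.mp h4).2,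
      hin hzB h5⟩
  · exfalso
    have h6 : Ot S U a b x z y := ⟨q, hq4.1, hq2.2.1, hq4.2.1, hq2.2.2, hq4.2.2,
      (mem_Mp.mp h3).2, (mem_Mp.mp h5).2, hin hyB h4⟩
    exact ot_unique h hU h0 ha hx hy hz hbc h1 h6
  · exfalso
    have h6 : Ot S U a b y z x := ⟨q, hq4.1, hq2.2.1, hq4.2.1, hq2.2.2, hq4.2.2,
      (mem_Mp.mp h4).2, (mem_Mp.mp h5).2, hin hxB h3⟩
    have h7 : Ot S U a b y x z := by
      obtain ⟨p, p1, p2, p3, p4, p5, p6, p7, p8⟩ := h1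
      exact ⟨p, p1, p2, p3, p4, p5, p7, p6, p8⟩
    have h8 : Cm S U a b y x z := ⟨hbU, hba, hbaS, hby, hbx, hbz, hyb, hxb, hzb⟩
    exact ot_unique h hU h0 ha hy hx hz h8 h7 h6

/-- The outlier is constant. -/
theorem ot_const (h : HS k S d) {r : ℕ} {U : Finset V} (hU : LS S d (r + 1) U) (hr : 4 ≤ r)
    (h0 : ∀ v ∈ U, exc S r (nb S U v) = 0) {a b b' x y z : V} (ha : a ∈ U)
    (hx : x ∈ nk S U a) (hy : y ∈ nk S U a) (hz : z ∈ nk S U a)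
    (hxy : x ≠ y) (hxz : x ≠ z) (hyz : y ≠ z)
    (hs : ∀ u ∈ nk S U a, ∀ v ∈ nk S U a, ({u, v} : Finset V) ∈ S)
    (h4 : (nk S U a).card ≤ 4) (hb : Cm S U a b x y z) (hb' : Cm S U a b' x y z)
    (h1 : Ot S U a b x y z) : Ot S U a b' x y z := by
  classical
  have hxU := (mem_nk.mp hx).1
  have hyU := (mem_nk.mp hy).1
  have hzU := (mem_nk.mp hz).1
  obtain ⟨s1, hs1, hL1⟩ := LS.nb h hU hxU
  have hy1 : y ∈ nb S U x := mem_nb.mpr ⟨hyU, hxy.symm, hs y hy x hx⟩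
  have hz1 : z ∈ nb S U x := mem_nb.mpr ⟨hzU, hxz.symm, hs z hz x hx⟩
  obtain ⟨s2, hs2, hL2⟩ := LS.nb h hL1 hy1
  have hz2 : z ∈ nb S (nb S U x) y := mem_nb.mpr ⟨hz1, hyz.symm, hs z hz y hy⟩
  obtain ⟨s3, hs3, hL3⟩ := LS.nb h hL2 hz2
  have hr3 : 2 ≤ s3 := by omega
  -- the exceptional vertex
  have hcard : ((nk S U a) \ {x, y, z}).card ≤ 1 := by
    have hsub : ({x, y, z} : Finset V) ⊆ nk S U a := by
      intro v hv
      simp only [Finset.mem_insert, Finset.mem_singleton] at hv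
      rcases hv with rfl | rfl | rfl
      · exact hx
      · exact hy
      · exact hz
    have h5 := Finset.card_sdiff_add_card_eq_card hsub
    have h6 : ({x, y, z} : Finset V).card = 3 := by
      rw [Finset.card_insert_of_notMem, Finset.card_insert_of_notMem, Finset.card_singleton]
      · rw [Finset.mem_singleton]
        exact hyz
      · simp only [Finset.mem_insert, Finset.mem_singleton, not_or]
        exact ⟨hxy, hxz⟩
    omega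
  obtain ⟨w, hw, hwa⟩ : ∃ w : V, (∀ c ∈ nk S U a, c ≠ x → c ≠ y → c ≠ z → c = w) ∧
      (w = a ∨ w ∈ nk S U a) := by
    by_cases hne : ((nk S U a) \ {x, y, z}).Nonempty
    · obtain ⟨w, hwm⟩ := hne
      refine ⟨w, fun c hc h5 h6 h7 => ?_, Or.inr (Finset.mem_sdiff.mp hwm).1⟩
      refine Finset.card_le_one.mp hcard c ?_ w hwm
      simp only [Finset.mem_sdiff, Finset.mem_insert, Finset.mem_singleton, not_or]
      exact ⟨hc, h5, h6, h7⟩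
    · refine ⟨a, fun c hc h5 h6 h7 => ?_, Or.inl rfl⟩
      exfalso
      apply hne
      refine ⟨c, ?_⟩
      simp only [Finset.mem_sdiff, Finset.mem_insert, Finset.mem_singleton, not_or]
      exact ⟨hc, h5, h6, h7⟩
  have hcmw : ∀ c, Cm S U a c x y z → c ∈ nb S (nb S (nb S U x) y) z ∧ c ≠ w := by
    intro c hc
    obtain ⟨c1, c2, c3, c4, c5, c6, c7, c8, c9⟩ := hc
    rw [Finset.pair_comm] at c7 c8 c9
    refine ⟨mem_nb.mpr ⟨mem_nb.mpr ⟨mem_nb.mpr ⟨c1, c4, c7⟩, c5, c8⟩, c6, c9⟩, ?_⟩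
    intro hcw
    rcases hwa with h5 | h5
    · exact c2 (hcw.trans h5)
    · rw [← hcw] at h5
      exact (mem_nk.mp h5).2 c3
  have hwcm : ∀ c, c ∈ nb S (nb S (nb S U x) y) z → c ≠ w → Cm S U a c x y z := by
    intro c hc hcw
    obtain ⟨h5, c6, c9⟩ := mem_nb.mp hc
    obtain ⟨h6, c5, c8⟩ := mem_nb.mp h5
    obtain ⟨c1, c4, c7⟩ := mem_nb.mp h6
    have c3 : ({c, a} : Finset V) ∈ S := by
      by_contra hcon
      exact hcw (hw c (mem_nk.mpr ⟨c1, hcon⟩) c4 c5 c6)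
    have c2 : c ≠ a := by
      intro hca
      rw [hca, Finset.pair_comm] at c7
      exact (mem_nk.mp hx).2 c7
    rw [Finset.pair_comm] at c7 c8 c9
    exact ⟨c1, c2, c3, c4, c5, c6, c7, c8, c9⟩
  by_contra hcon
  have hX : ∀ c, c ∈ Finset.univ.filter (fun c => Ot S U a c x y z) ↔ Ot S U a c x y z := by
    intro c
    rw [Finset.mem_filter]
    exact ⟨fun hc => hc.2, fun hc => ⟨Finset.mem_univ c, hc⟩⟩
  obtain ⟨b1, hb1, hb1w, hb1X, b2, hb2, hb2w, hb2X, hbb⟩ := LS.conn h hL3 hr3 w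
    (Finset.univ.filter (fun c => Ot S U a c x y z)) (hcmw b hb).1 (hcmw b hb).2
    ((hX b).mpr h1) (hcmw b' hb').1 (hcmw b' hb').2 (fun hc => hcon ((hX b').mp hc))
  rw [hX] at hb1X hb2X
  have hne : b1 ≠ b2 := by
    rintro rfl
    exact hb2X hb1X
  exact hb2X (ot_edge h hU h0 ha hx hy hz hxy hxz hyz (hwcm b1 hb1 hb1w) (hwcm b2 hb2 hb2w)
    hne hbb hb1X)

end Pool.Agent.MP19e880.TT
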