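import Pool.Agent.Lib.MP_19e880_co_TT.Kinds

/-!
Tight vertices: roots.
-/

set_option autoImplicit false
set_option linter.unusedSectionVars false

namespace Pool.Agent.MP19e880.TT

variable {V : Type} [Fintype V] [LinearOrder V] {k : Type} [Field k]
  {S : Finset (Finset V)} {d : ℕ}

private theorem Root.mono {U : Finset V} {a : V} {I J : Finset (Finset V)} (hIJ : I ⊆ J) :
    XX S U a I ⊆ XX S U a J := by
  intro x hx
  rw [mem_XX] at hx ⊢
  obtain ⟨h1, A, hA, y, hy, h2⟩ := hx
  exact ⟨h1, A, hIJ hA, y, hy, h2⟩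

private theorem Root.single {U : Finset V} {a x : V} {B : Finset V} :
    x ∈ XX S U a {B} ↔ x ∈ nk S U a ∧ ∃ y ∈ B, ({x, y} : Finset V) ∉ S := by
  rw [mem_XX]
  constructor
  · rintro ⟨h1, A, hA, y, hy, h2⟩
    rw [Finset.mem_singleton] at hA
    subst hA
    exact ⟨h1, y, hy, h2⟩
  · rintro ⟨h1, y, hy, h2⟩
    exact ⟨h1, B, Finset.mem_singleton_self B, y, hy, h2⟩

/-- Two different factors, the second one of maximal `XX`, not below it: no common member. -/
private theorem Root.disj (h : HS k S d) {r : ℕ} {U : Finset V} (hU : LS S d r U) {a : V}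
    (ht : Ti S U a) {B C : Finset V} (hB : B ∈ cps S (nb S U a)) (hC : C ∈ cps S (nb S U a))
    (hBC : C ≠ B) (hmax : (XX S U a {C}).card ≤ (XX S U a {B}).card) {p x c : V} (hp : p ∈ B)
    (hCp : C ∉ Ip S U a p) (hx : x ∈ Mp S U a p) (hc : c ∈ C) (hxc : x ∈ Mp S U a c) : False := by
  have hpN : p ∈ nb S U a := cps_sub hB hp
  have hcN : c ∈ nb S U a := cps_sub hC hc
  have ecp : cp S (nb S U a) c = C := cps_cp hC hc
  have epp : cp S (nb S U a) p = B := cps_cp hB hp
  have hdj : Disjoint C B := cps_disj hC hB hBC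
  have hpC : p ∉ C := fun hh => (Finset.disjoint_left.mp hdj) hh hp
  have hcB : c ∉ B := fun hh => (Finset.disjoint_left.mp hdj) hc hh
  rcases lam h hU ht hpN hcN with h1 | h1 | h1
  · -- `M p ⊆ M c`
    have h2 : cp S (nb S U a) p ∈ Ip S U a c :=
      lemN h hU ht hcN hpN (by rw [epp]; exact hcB) ⟨x, hx⟩ h1
    rw [epp, mem_Ip] at h2
    have h3 : XX S U a {B} ⊆ Mp S U a c := by
      intro z hz
      rw [Root.single] at hz
      obtain ⟨hz1, y, hy, hz2⟩ := hz
      rw [mem_Mp]
      exact ⟨hz1, h2.2.2 y hy z hz1 hz2⟩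
    have h4 : Mp S U a c ⊆ XX S U a {C} := by
      have h5 := Mp_sub_XX (S := S) hcN
      rw [ecp] at h5
      exact h5
    have h6 : Mp S U a c = XX S U a {C} := by
      refine Finset.eq_of_subset_of_card_le h4 ?_
      exact le_trans hmax (Finset.card_le_card h3)
    obtain ⟨y, hy, z, hz, hz1, hz2⟩ := ti_XA h hU ht hcN
    rw [ecp] at hy
    have h7 : z ∈ XX S U a {C} := by
      rw [Root.single]
      exact ⟨hz, y, hy, hz2⟩
    rw [← h6, mem_Mp] at h7
    exact h7.2 hz1
  · -- `M c ⊆ M p`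
    have h2 : cp S (nb S U a) c ∈ Ip S U a p :=
      lemN h hU ht hpN hcN (by rw [ecp]; exact hpC) ⟨x, hxc⟩ h1
    rw [ecp] at h2
    exact hCp h2
  · exact (Finset.disjoint_left.mp h1) hx hxc

theorem root (h : HS k S d) {r : ℕ} {U : Finset V} (hU : LS S d r U) {a : V}
    (ht : Ti S U a) {I : Finset (Finset V)} (hI : I ⊆ cps S (nb S U a)) (hIn : I.Nonempty)
    (hc : (XX S U a I).card = I.card + 1) : ∃ B ∈ I, XX S U a {B} = XX S U a I := by
  classical
  obtain ⟨B, hBI, hBmax⟩ := Finset.exists_max_image I (fun B => (XX S U a {B}).card) hIn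
  refine ⟨B, hBI, ?_⟩
  have hB := hI hBI
  obtain ⟨p, hp, q, hq, -, -, -, hXB, hXT⟩ := two_kinds h hU ht hB
  -- the union of the lower families
  have hXT0 : ∀ J : Finset (Finset V), (∀ A : Finset V, A ∈ J ↔
      A = B ∨ A ∈ Ip S U a p ∨ A ∈ Ip S U a q) → XX S U a J = XX S U a {B} := by
    intro J hJ
    rw [← hXT]
    congr 1
    ext A
    rw [hJ, Finset.mem_insert, Finset.mem_union]
  obtain ⟨T, hT⟩ : ∃ T : Finset (Finset V), ∀ A : Finset V, A ∈ T ↔
      A = B ∨ A ∈ Ip S U a p ∨ A ∈ Ip S U a q := by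
    refine ⟨(cps S (nb S U a)).filter (fun A => A = B ∨ A ∈ Ip S U a p ∨ A ∈ Ip S U a q), ?_⟩
    intro A
    rw [Finset.mem_filter]
    constructor
    · exact fun hh => hh.2
    · intro hh
      refine ⟨?_, hh⟩
      rcases hh with h1 | h1 | h1
      · rw [h1]; exact hB
      · exact (mem_Ip.mp h1).1
      · exact (mem_Ip.mp h1).1
  have hXT1 := hXT0 T hT
  have hTc : T ⊆ cps S (nb S U a) := by
    intro A hA
    rcases (hT A).mp hA with h1 | h1 | h1
    · rw [h1]; exact hB
    · exact (mem_Ip.mp h1).1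
    · exact (mem_Ip.mp h1).1
  have hBT : B ∈ T := (hT B).mpr (Or.inl rfl)
  -- (1)
  have hTI : T ⊆ I := by
    have h1 : XX S U a (I ∪ T) = XX S U a I := by
      apply Finset.Subset.antisymm
      · intro x hx
        rw [mem_XX] at hx
        obtain ⟨hx1, A, hA, y, hy, hxy⟩ := hx
        rw [Finset.mem_union] at hA
        rcases hA with hA | hA
        · rw [mem_XX]
          exact ⟨hx1, A, hA, y, hy, hxy⟩
        · have h2 : x ∈ XX S U a T := by
            rw [mem_XX]
            exact ⟨hx1, A, hA, y, hy, hxy⟩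
          rw [hXT1] at h2
          exact Root.mono (Finset.singleton_subset_iff.mpr hBI) h2
      · exact Root.mono Finset.subset_union_left
    have h2 := XX_bound h hU ht.2.1 ht.1 (Finset.union_subset hI hTc)
      (hIn.mono Finset.subset_union_left)
    rw [h1, hc] at h2
    have h3 : I = I ∪ T := Finset.eq_of_subset_of_card_le Finset.subset_union_left (by omega)
    rw [h3]
    exact Finset.subset_union_right
  -- (2)
  have hdis : ∀ C ∈ I, C ∉ T → Disjoint (XX S U a {C}) (XX S U a {B}) := by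
    intro C hCI hCT
    have hC := hI hCI
    have hCB : C ≠ B := fun hh => hCT (by rw [hh]; exact hBT)
    rw [Finset.disjoint_left]
    intro x hx hx'
    rw [hXB, Finset.mem_union] at hx'
    rw [Root.single] at hx
    obtain ⟨hx1, c, hcC, hxc⟩ := hx
    have hxM : x ∈ Mp S U a c := by
      rw [mem_Mp]
      exact ⟨hx1, hxc⟩
    rcases hx' with hx' | hx'
    · exact Root.disj h hU ht hB hC hCB (hBmax C hCI) hp
        (fun hh => hCT ((hT C).mpr (Or.inr (Or.inl hh)))) hx' hcC hxM
    · exact Root.disj h hU ht hB hC hCB (hBmax C hCI) hq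
        (fun hh => hCT ((hT C).mpr (Or.inr (Or.inr hh)))) hx' hcC hxM
  -- (3)
  by_cases hne : (I \ T).Nonempty
  · exfalso
    have h1 := XX_bound h hU ht.2.1 ht.1 (fun A hA => hI (Finset.mem_sdiff.mp hA).1) hne
    have h2 := XX_bound h hU ht.2.1 ht.1 hTc ⟨B, hBT⟩
    have h3 : Disjoint (XX S U a T) (XX S U a (I \ T)) := by
      rw [hXT1, Finset.disjoint_left]
      intro x hx hx'
      rw [mem_XX] at hx'
      obtain ⟨hx1, C, hC, y, hy, hxy⟩ := hx'
      rw [Finset.mem_sdiff] at hC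
      have h4 : x ∈ XX S U a {C} := by
        rw [Root.single]
        exact ⟨hx1, y, hy, hxy⟩
      exact (Finset.disjoint_left.mp (hdis C hC.1 hC.2)) h4 hx
    have h5 : (XX S U a T ∪ XX S U a (I \ T)).card ≤ (XX S U a I).card :=
      Finset.card_le_card (Finset.union_subset (Root.mono hTI)
        (Root.mono Finset.sdiff_subset))
    rw [Finset.card_union_of_disjoint h3, hc] at h5
    have h6 := Finset.card_sdiff_add_card_eq_card hTI
    omega
  · rw [Finset.not_nonempty_iff_eq_empty, Finset.sdiff_eq_empty_iff_subset] at hne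
    have h1 : T = I := Finset.Subset.antisymm hTI hne
    rw [← hXT1, h1]

theorem root_p (h : HS k S d) {r : ℕ} {U : Finset V} (hU : LS S d r U) {a p : V}
    (ht : Ti S U a) (hp : p ∈ nb S U a) (h2 : 2 ≤ (Mp S U a p).card) :
    ∃ B ∈ cps S (nb S U a), XX S U a {B} = Mp S U a p := by
  have hM : (Mp S U a p).Nonempty := by
    rw [← Finset.card_pos]
    omega
  have h3 := (ti_ne h hU ht hp hM).2
  have hI : (Ip S U a p).Nonempty := by
    rw [← Finset.card_pos]
    omega
  have h4 := ti_XX h hU ht hp hI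
  have h5 : Ip S U a p ⊆ cps S (nb S U a) := fun A hA => (mem_Ip.mp hA).1
  obtain ⟨B, hB, hB2⟩ := root h hU ht h5 hI (by rw [h4, h3])
  exact ⟨B, h5 hB, by rw [hB2, h4]⟩

theorem root_top (h : HS k S d) {r : ℕ} {U : Finset V} (hU : LS S d r U) {a : V}
    (ht : Ti S U a) (hne : (nb S U a).Nonempty) :
    ∃ B ∈ cps S (nb S U a), XX S U a {B} = nk S U a := by
  obtain ⟨x, hx⟩ := hne
  have hIn : (cps S (nb S U a)).Nonempty := ⟨_, cp_cps hx⟩
  have h1 := XX_bound h hU ht.2.1 ht.1 (Finset.Subset.refl _) hIn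
  have h2 : XX S U a (cps S (nb S U a)) ⊆ nk S U a := by
    intro y hy
    rw [mem_XX] at hy
    exact hy.1
  have h3 : (nk S U a).card = (cps S (nb S U a)).card + 1 := ht.2.2
  have h4 : XX S U a (cps S (nb S U a)) = nk S U a :=
    Finset.eq_of_subset_of_card_le h2 (by rw [h3]; exact h1)
  obtain ⟨B, hB, hB2⟩ := root h hU ht (Finset.Subset.refl _) hIn (by rw [h4, h3])
  exact ⟨B, hB, by rw [hB2, h4]⟩

end Pool.Agent.MP19e880.TT
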