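import Pool.Agent.Lib.MP_19e880_co_TT.Fin

/-!
The gamma vector of a flag homology sphere is nonnegative if every join-irreducible factor has
rank at most five or at most `3 r + 1` vertices, where `r` is its rank; in particular if the sphere
has at most `2 d + 7` vertices.
-/

set_option autoImplicit false

namespace Pool.Agent.Results.MP_19e880_co.SmallFactors

/-- Let `S` be a flag homology `(d-1)`-sphere over a field. If `S` has at most `2 d + 7` vertices,
or if every component `A` of the complement of its graph (join factor of `S`) has no face with more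
than five elements, or has a face `F` with `A.card ≤ 3 * F.card + 1`, then the gamma vector of `S`
is nonnegative. -/
theorem result :
  ∀ (k : Type) [Field k] (n d : ℕ) (S : Finset (Finset (Fin n)))
    (r : Finset (Finset (Fin n)) → ℕ → ℕ),
    (∀ F ∈ S, ∀ G : Finset (Fin n), G ⊆ F → G ∈ S) →
    (∀ F : Finset (Fin n), (∀ a ∈ F, ∀ b ∈ F, ({a, b} : Finset (Fin n)) ∈ S) → F ∈ S) →
    (∀ (L : Finset (Finset (Fin n))) (j : ℕ),
      r L j = Matrix.rank (Matrix.of
        (fun (A : {A : Finset (Fin n) // A ∈ L.filter (fun A => A.card = j - 1)})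
             (B : {B : Finset (Fin n) // B ∈ L.filter (fun B => B.card = j)}) =>
          ∑ v ∈ B.1, if B.1.erase v = A.1
            then (-1 : k) ^ (B.1.filter (fun w => w < v)).card else 0))) →
    (∀ F ∈ S, ∀ j : ℕ,
      ((((S.filter (fun G => Disjoint G F ∧ G ∪ F ∈ S)).filter
            (fun G => G.card = j)).card : ℤ)
        - (r (S.filter (fun G => Disjoint G F ∧ G ∪ F ∈ S)) j : ℤ)
        - (r (S.filter (fun G => Disjoint G F ∧ G ∪ F ∈ S)) (j + 1) : ℤ))
        = if j + F.card = d then 1 else 0) →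
    ((S.filter (fun G => G.card = 1)).card ≤ 2 * d + 7 ∨
      ∀ A : Finset (Fin n), A.Nonempty → (∀ a ∈ A, ({a} : Finset (Fin n)) ∈ S) →
        (∀ a ∈ A, ∀ b : Fin n, ({b} : Finset (Fin n)) ∈ S → b ∉ A →
          ({a, b} : Finset (Fin n)) ∈ S) →
        (∀ B : Finset (Fin n), B ⊆ A → B.Nonempty → B ≠ A →
          ∃ a ∈ B, ∃ b ∈ A \ B, ({a, b} : Finset (Fin n)) ∉ S) →
        (∀ F ∈ S, F ⊆ A → F.card ≤ 5) ∨ (∃ F ∈ S, F ⊆ A ∧ A.card ≤ 3 * F.card + 1)) →
    ∀ γ : ℕ → ℤ,
      (∑ j ∈ Finset.range (d + 1),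
          Polynomial.C (((S.filter (fun G => G.card = j)).card : ℕ) : ℤ)
            * Polynomial.X ^ j * (1 - Polynomial.X) ^ (d - j)
        = ∑ i ∈ Finset.range (d / 2 + 1),
          Polynomial.C (γ i) * Polynomial.X ^ i * (1 + Polynomial.X) ^ (d - 2 * i)) →
      ∀ i : ℕ, i ≤ d / 2 → 0 ≤ γ i := by
  intro k _ n d S r hS hfl hr hrk hf γ hγ
  have hrc : Pool.Agent.MP19e880.RankCond k S d := by
    intro F hF j
    have h := hrk F hF j
    rw [hr, hr] at h
    exact h
  have h := Pool.Agent.MP19e880.HS_of_rank S d hS hfl hrc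
  have hE := Pool.Agent.MP19e880.Eul_of_rank S d hS hfl hrc
  have h0 : (∅ : Finset (Fin n)) ∈ S := hfl ∅ (by simp)
  have hcard : (Pool.Agent.MP19e880.lv S ∅).card = (S.filter (fun G => G.card = 1)).card := by
    rw [← Pool.Agent.MP19e880.fn_one S hS]
    unfold Pool.Agent.MP19e880.fn
    congr 1
    refine Finset.filter_congr fun F _ => ?_
    simp
  rw [← hcard] at hf
  have hcone := Pool.Agent.MP19e880.TT.final h hf
  rw [← Pool.Agent.MP19e880.h_poly_eq hE h0] at hcone
  exact Pool.Agent.MP19e880.Cone.gamma_nonneg hcone γ hγ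

end Pool.Agent.Results.MP_19e880_co.SmallFactors
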