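import Pool.Agent.Lib.MP_19e880_co_TT.NoCI

/-!
A good vertex in a sphere without contractible edges.
-/

set_option autoImplicit false
set_option linter.unusedSectionVars false

namespace Pool.Agent.MP19e880.TT

variable {V : Type} [Fintype V] [LinearOrder V] {k : Type} [Field k]
  {S : Finset (Finset V)} {d : ℕ}

private theorem T3_nb (h : HS k S d) {r : ℕ} {U : Finset V} (hU : LS S d (r + 1) U) {v : V}
    (hv : v ∈ U) : LS S d r (nb S U v) := by
  obtain ⟨s, h1, h2⟩ := LS.nb h hU hv
  have h3 : s = r := by omega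
  rw [h3] at h2
  exact h2

private theorem T3_ne (h : HS k S d) {r : ℕ} {U : Finset V} (hU : LS S d r U) (hr : 1 ≤ r) :
    U.Nonempty := by
  rw [Finset.nonempty_iff_ne_empty]
  intro h1
  have h2 := (LS.zero h hU).1 h1
  omega

private theorem T3_ge (h : HS k S d) {r : ℕ} {U : Finset V} (hU : LS S d (r + 1) U) (hr : 1 ≤ r)
    (hc : Con S U) (hCI : CI S U) {v : V} (hv : v ∈ U) :
    nc S (nb S U v) + 2 ≤ (nk S U v).card := by
  have h1 := nk_ge h hU hc hv
  have h2 : (nk S U v).card ≠ nc S (nb S U v) + 1 := fun h' =>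
    ci_not_ti h hU (by omega) hCI (a := v) ⟨hv, hc, h'⟩
  omega

theorem t3 (h : HS k S d) {r : ℕ} {U : Finset V} (hU : LS S d (r + 1) U) (hr : 5 ≤ r)
    (hc : Con S U) (hCI : CI S U) (he : exc S (r + 1) U ≤ 2) :
    ∃ a ∈ U, Con S (nb S U a) ∧ (nk S U a).card = 3 := by
  by_cases hex : ∃ p ∈ U, 1 ≤ exc S r (nb S U p)
  · obtain ⟨p, hp, hp1⟩ := hex
    obtain ⟨a, ha, hca, ha1⟩ := irr_vertex_exc h hU hc hp hp1
    refine ⟨a, ha, hca, ?_⟩
    have h1 := nc_one (S := S) hca (T3_ne h (T3_nb h hU ha) (by omega))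
    have h2 := T3_ge h hU (by omega) hc hCI ha
    have h3 := exc_con h hU hc ha
    rw [h1] at h2 h3
    push_cast at h3
    omega
  · push Not at hex
    exact (no_ci h hU hr hc hCI he (fun v hv => by
      have h1 := hex v hv
      have h2 := exc_nonneg h (T3_nb h hU hv)
      omega)).elim

/-- Without contractible edges, the links of the vertices have smaller excess. -/
theorem t3_drop (h : HS k S d) {r : ℕ} {U : Finset V} (hU : LS S d (r + 1) U) (hr : 1 ≤ r)
    (hc : Con S U) (hCI : CI S U) {v : V} (hv : v ∈ U) :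
    exc S r (nb S U v) + 1 ≤ exc S (r + 1) U := by
  have h2 := T3_ge h hU hr hc hCI hv
  have h3 := exc_con h hU hc hv
  omega

/-- There is no such sphere of excess at most one. -/
theorem t3_one (h : HS k S d) {r : ℕ} {U : Finset V} (hU : LS S d (r + 1) U) (hr : 5 ≤ r)
    (hc : Con S U) (hCI : CI S U) (he : exc S (r + 1) U ≤ 1) : False := by
  refine no_ci h hU hr hc hCI (by omega) (fun v hv => ?_)
  have h1 := t3_drop h hU (by omega) hc hCI hv
  have h2 := exc_nonneg h (T3_nb h hU hv)
  omega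

end Pool.Agent.MP19e880.TT
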