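import Pool.Agent.Lib.MP_19e880_co_TT.Root

/-!
Tight vertices: the non-neighbours form a face.
-/

set_option autoImplicit false
set_option linter.unusedSectionVars false

namespace Pool.Agent.MP19e880.TT

variable {V : Type} [Fintype V] [LinearOrder V] {k : Type} [Field k]
  {S : Finset (Finset V)} {d : ℕ}

/-- In each join factor there are vertices of both kinds. -/
private theorem TTS_kinds (h : HS k S d) {r : ℕ} {U : Finset V} (hU : LS S d r U) {a x y : V}
    (ht : Ti S U a) (hcov : ∀ p ∈ nb S U a, x ∈ Mp S U a p ∨ y ∈ Mp S U a p) {A : Finset V}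
    (hA : A ∈ cps S (nb S U a)) :
    ∃ p ∈ A, ∃ q ∈ A, x ∈ Mp S U a p ∧ y ∉ Mp S U a p ∧ y ∈ Mp S U a q := by
  obtain ⟨p, hp, q, hq, -, -, hd, -, -⟩ := two_kinds h hU ht hA
  rw [Finset.disjoint_left] at hd
  rcases hcov p (cps_sub hA hp) with h1 | h1
  · rcases hcov q (cps_sub hA hq) with h2 | h2
    · exact absurd h2 (hd h1)
    · exact ⟨p, hp, q, hq, h1, fun h3 => hd h3 h2, h2⟩
  · rcases hcov q (cps_sub hA hq) with h2 | h2
    · exact ⟨q, hq, p, hp, h2, fun h3 => hd h1 h3, h1⟩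
    · exact absurd h2 (hd h1)

/-- One of the two inclusions is impossible. -/
private theorem TTS_sub (h : HS k S d) {r : ℕ} {U : Finset V} (hU : LS S d r U) {a x y : V}
    (ht : Ti S U a) {A B : Finset V} (hA : A ∈ cps S (nb S U a)) (hB : B ∈ cps S (nb S U a))
    (hAB : A ≠ B) {p q p' : V} (hp : p ∈ A) (hq : q ∈ A) (hp' : p' ∈ B)
    (hx : x ∈ Mp S U a p) (hyq : y ∈ Mp S U a q) (hyp' : y ∉ Mp S U a p')
    (hsub : Mp S U a p ⊆ Mp S U a p') : False := by
  have hcp : cp S (nb S U a) p = A := cps_cp hA hp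
  have hp'A : p' ∉ A := fun hh => (Finset.disjoint_left.mp (cps_disj hA hB hAB)) hh hp'
  have h1 : cp S (nb S U a) p ∈ Ip S U a p' :=
    lemN h hU ht (cps_sub hB hp') (cps_sub hA hp) (by rw [hcp]; exact hp'A) ⟨x, hx⟩ hsub
  rw [hcp, mem_Ip] at h1
  rw [mem_Mp] at hyq
  exact hyp' (mem_Mp.mpr ⟨hyq.1, h1.2.2 q hq y hyq.1 hyq.2⟩)

theorem ti_simplex (h : HS k S d) : ∀ r : ℕ, ∀ U : Finset V, ∀ a : V, LS S d r U → Ti S U a →
    ∀ x ∈ nk S U a, ∀ y ∈ nk S U a, ({x, y} : Finset V) ∈ S := by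
  intro r
  induction r using Nat.strong_induction_on with
  | _ r ih =>
  intro U a hU ht x hx y hy
  by_contra hxy
  have hxU : x ∈ U := (mem_nk.mp hx).1
  have hne : x ≠ y := by
    rintro rfl
    exact hxy (LS.self h hU hxU)
  have hcov : ∀ p ∈ nb S U a, x ∈ Mp S U a p ∨ y ∈ Mp S U a p := by
    intro p hp
    by_contra hcon
    rw [not_or] at hcon
    have h1 : ({x, p} : Finset V) ∈ S := by
      by_contra h2
      exact hcon.1 (mem_Mp.mpr ⟨hx, h2⟩)
    have h3 : ({y, p} : Finset V) ∈ S := by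
      by_contra h2
      exact hcon.2 (mem_Mp.mpr ⟨hy, h2⟩)
    obtain ⟨-, -, -, -, t, htr, hLS⟩ := phi_LS h hU ht.1 hp
    exact hxy (ih t htr _ a hLS (ti_phi h hU ht hp) x ((phi_nk h hU ht.1 hp).mpr ⟨hx, h1⟩)
      y ((phi_nk h hU ht.1 hp).mpr ⟨hy, h3⟩))
  have hcard : 2 ≤ (nk S U a).card := by
    have h1 : ({x, y} : Finset V) ⊆ nk S U a := by
      intro z hz
      rw [Finset.mem_insert, Finset.mem_singleton] at hz
      rcases hz with rfl | rfl
      · exact hx
      · exact hy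
    have h2 := Finset.card_le_card h1
    rwa [Finset.card_pair hne] at h2
  have hK := ht.2.2
  by_cases h1 : nc S (nb S U a) = 1
  · -- two non-neighbours only
    have hK2 : (nk S U a).card = 2 := by omega
    have hKe : ({x, y} : Finset V) = nk S U a := by
      apply Finset.eq_of_subset_of_card_le
      · intro z hz
        rw [Finset.mem_insert, Finset.mem_singleton] at hz
        rcases hz with rfl | rfl
        · exact hx
        · exact hy
      · rw [hK2, Finset.card_pair hne]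
    obtain ⟨x', -, hx'X, y', hy', hy'X, hS⟩ := LS.nk_conn h hU ht.1 {x} hx
      (Finset.mem_singleton_self x) hy (by rw [Finset.mem_singleton]; exact hne.symm)
    rw [Finset.mem_singleton] at hx'X hy'X
    rw [← hKe, Finset.mem_insert, Finset.mem_singleton] at hy'
    rcases hy' with h2 | h2
    · exact hy'X h2
    · rw [hx'X, h2] at hS
      exact hxy hS
  · have h2 : 1 < (cps S (nb S U a)).card := by
      have h3 : (nk S U a).card = (cps S (nb S U a)).card + 1 := hK
      have h4 : (cps S (nb S U a)).card ≠ 1 := h1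
      omega
    obtain ⟨A, hA, B, hB, hAB⟩ := Finset.one_lt_card.mp h2
    obtain ⟨p, hp, q, hq, hxp, hyp, hyq⟩ := TTS_kinds h hU ht hcov hA
    obtain ⟨p', hp', q', hq', hxp', hyp', hyq'⟩ := TTS_kinds h hU ht hcov hB
    rcases lam h hU ht (cps_sub hA hp) (cps_sub hB hp') with h5 | h5 | h5
    · exact TTS_sub h hU ht hA hB hAB hp hq hp' hxp hyq hyp' h5
    · exact TTS_sub h hU ht hB hA hAB.symm hp' hq' hp hxp' hyq' hyp h5
    · exact (Finset.disjoint_left.mp h5) hxp hxp'

end Pool.Agent.MP19e880.TT
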