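import Pool.Agent.Lib.MP_19e880_co_TT.CaseB

/-!
Toughness of the complement of the graph.
-/

set_option autoImplicit false
set_option linter.unusedSectionVars false

namespace Pool.Agent.MP19e880.TT

variable {V : Type} [Fintype V] [LinearOrder V] {k : Type} [Field k]
  {S : Finset (Finset V)} {d : ℕ}

/-- The step for a reducible `U`. -/
private theorem Tough.caseA (h : HS k S d) {N r : ℕ}
    (ih : ∀ r : ℕ, ∀ U R : Finset V, r + R.card ≤ N → LS S d r U →
      R ⊆ U → nc S (U \ R) ≤ R.card + ((cps S U).filter (fun C => Disjoint C R)).card)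
    {U R : Finset V} (hN : r + R.card ≤ N + 1) (hU : LS S d r U) (hR : R ⊆ U) (hc : ¬ Con S U)
    {x : V} (hx : x ∈ U) :
    nc S (U \ R) ≤ R.card + ((cps S U).filter (fun C => Disjoint C R)).card := by
  set W := cp S U x with hWdef
  have hW : Cld S U W := cp_cld S U x
  have hWU : W ≠ U := cp_ne hc hx
  have hxW : x ∈ W := mem_cp_self hx
  obtain ⟨s, t, hst, hs, ht⟩ := LS.cld h hU hW
  have hs1 : s ≠ 0 := by
    intro h0
    have := (LS.zero h hs).mpr h0
    rw [this] at hxW
    exact Finset.notMem_empty x hxW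
  have ht1 : t ≠ 0 := by
    intro h0
    have := (LS.zero h ht).mpr h0
    rw [Finset.sdiff_eq_empty_iff_subset] at this
    exact hWU (Finset.Subset.antisymm hW.1 this)
  have hc1 : (R ∩ W).card ≤ R.card := Finset.card_le_card Finset.inter_subset_left
  have hc2 : (R \ W).card ≤ R.card := Finset.card_le_card Finset.sdiff_subset
  have h1 := ih s W (R ∩ W) (by omega) hs Finset.inter_subset_right
  have h2 := ih t (U \ W) (R \ W) (by omega) ht
    (Finset.sdiff_subset_sdiff hR (Finset.Subset.refl _))
  have hcl : Cld S (U \ R) (W \ R) := by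
    refine ⟨Finset.sdiff_subset_sdiff hW.1 (Finset.Subset.refl _), ?_⟩
    intro a ha b hb
    rw [Finset.mem_sdiff] at ha
    rw [Finset.mem_sdiff, Finset.mem_sdiff, Finset.mem_sdiff] at hb
    refine hW.2 a ha.1 b (Finset.mem_sdiff.mpr ⟨hb.1.1, ?_⟩)
    intro hbW
    exact hb.2 ⟨hbW, hb.1.2⟩
  have e1 : W \ (R ∩ W) = W \ R := by
    ext y
    simp only [Finset.mem_sdiff, Finset.mem_inter]
    tauto
  have e2 : (U \ R) \ (W \ R) = (U \ W) \ (R \ W) := by
    ext y
    simp only [Finset.mem_sdiff]
    tauto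
  have h3 := nc_cld hcl
  rw [e2] at h3
  rw [e1] at h1
  have h4 : (R ∩ W).card + (R \ W).card = R.card := by
    have := Finset.card_sdiff_add_card_inter R W
    omega
  have h5 : ((cps S U).filter (fun C => Disjoint C R)).card =
      ((cps S W).filter (fun C => Disjoint C (R ∩ W))).card +
        ((cps S (U \ W)).filter (fun C => Disjoint C (R \ W))).card := by
    rw [cps_union hW, Finset.filter_union, Finset.card_union_of_disjoint
      (Finset.disjoint_filter_filter cps_union_disj)]
    congr 1
    · congr 1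
      apply Finset.filter_congr
      intro C hC
      have hCW := cps_sub hC
      constructor
      · intro hd
        exact Finset.disjoint_of_subset_right Finset.inter_subset_left hd
      · intro hd
        rw [Finset.disjoint_left] at hd ⊢
        intro y hy hyR
        exact hd hy (Finset.mem_inter.mpr ⟨hyR, hCW hy⟩)
    · congr 1
      apply Finset.filter_congr
      intro C hC
      have hCW := cps_sub hC
      constructor
      · intro hd
        exact Finset.disjoint_of_subset_right Finset.sdiff_subset hd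
      · intro hd
        rw [Finset.disjoint_left] at hd ⊢
        intro y hy hyR
        exact hd hy (Finset.mem_sdiff.mpr ⟨hyR, (Finset.mem_sdiff.mp (hCW hy)).2⟩)
  omega

/-- The step for an irreducible `U`. -/
private theorem Tough.caseB2 (h : HS k S d) {N r : ℕ}
    (ih : ∀ r : ℕ, ∀ U R : Finset V, r + R.card ≤ N → LS S d r U →
      R ⊆ U → nc S (U \ R) ≤ R.card + ((cps S U).filter (fun C => Disjoint C R)).card)
    {U R : Finset V} (hN : r + R.card ≤ N + 1) (hU : LS S d r U) (hR : R ⊆ U) (hc : Con S U)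
    (hRn : R.Nonempty) (h2 : 2 ≤ nc S (U \ R)) :
    nc S (U \ R) ≤ R.card := by
  have hUn : U.Nonempty := hRn.mono hR
  -- a vertex which is adjacent to some but not all members of `R`
  have hex : ∃ p ∈ U \ R, (∃ x ∈ R, ({x, p} : Finset V) ∉ S) ∧
      (∃ x ∈ R, ({x, p} : Finset V) ∈ S) := by
    by_contra hcon
    push Not at hcon
    refine caseB h hU hc hR hRn h2 ?_
    intro p hp
    by_cases h3 : ∃ x ∈ R, ({x, p} : Finset V) ∉ S
    · right
      intro y hy
      exact hcon p hp h3 y hy
    · push Not at h3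
      left
      exact h3
  obtain ⟨p, hp, ⟨x1, hx1, hx1p⟩, ⟨x2, hx2, hx2p⟩⟩ := hex
  have hpU : p ∈ U := (Finset.mem_sdiff.mp hp).1
  have hpR : p ∉ R := (Finset.mem_sdiff.mp hp).2
  set Q := R.filter (fun x => ({x, p} : Finset V) ∈ S) with hQdef
  set T := R.filter (fun x => ¬ ({x, p} : Finset V) ∈ S) with hTdef
  have hQT : Q.card + T.card = R.card := Finset.card_filter_add_card_filter_not _
  have hQ : ∀ x, x ∈ Q ↔ x ∈ R ∧ ({x, p} : Finset V) ∈ S := fun x => Finset.mem_filter
  have hT : ∀ x, x ∈ T ↔ x ∈ R ∧ ({x, p} : Finset V) ∉ S := fun x => Finset.mem_filter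
  have hQn : 0 < Q.card := Finset.card_pos.mpr ⟨x2, (hQ x2).mpr ⟨hx2, hx2p⟩⟩
  have hx1T : x1 ∈ T := (hT x1).mpr ⟨hx1, hx1p⟩
  have hC0 : cp S (U \ R) p ∈ cps S (U \ R) := cp_cps hp
  have hp0 : p ∈ cp S (U \ R) p := mem_cp_self hp
  set CC := (cps S (U \ R)).erase (cp S (U \ R) p) with hCCdef
  have hCCc : CC.card + 1 = nc S (U \ R) := Finset.card_erase_add_one hC0
  have hCC : ∀ C, C ∈ CC → C ∈ cps S (U \ R) ∧ p ∉ C := by
    intro C hC
    rw [hCCdef, Finset.mem_erase] at hC
    refine ⟨hC.2, ?_⟩
    intro hpC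
    exact Finset.disjoint_left.mp (cps_disj hC.2 hC0 hC.1) hpC hp0
  set AA := CC.filter (fun C => ∀ c ∈ C, ∀ x ∈ Q, ({c, x} : Finset V) ∈ S) with hAAdef
  set BB := CC.filter (fun C => ¬ ∀ c ∈ C, ∀ x ∈ Q, ({c, x} : Finset V) ∈ S) with hBBdef
  have hAB : AA.card + BB.card = CC.card := Finset.card_filter_add_card_filter_not _
  -- the members of `BB`
  have hB : BB.card ≤ Q.card := by
    obtain ⟨s, hs, hUp⟩ := LS.nb h hU hpU
    have hQUp : Q ⊆ nb S U p := by
      intro x hx
      rw [hQ] at hx
      rw [mem_nb]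
      refine ⟨hR hx.1, ?_, hx.2⟩
      rintro rfl
      exact hpR hx.1
    have h3 := ih s (nb S U p) Q (by
      have : 0 < T.card := Finset.card_pos.mpr ⟨x1, hx1T⟩
      omega) hUp hQUp
    set DD := (cps S (nb S U p)).filter (fun C => Disjoint C Q) with hDDdef
    have hsub : BB ∪ DD ⊆ cps S (nb S U p \ Q) := by
      intro C hC
      rw [Finset.mem_union] at hC
      rcases hC with hC | hC
      · obtain ⟨hC1, hC2⟩ := hCC C (Finset.mem_filter.mp hC).1
        have hCsub := cps_sub hC1
        refine cps_of ⟨?_, ?_⟩ (cps_con hC1) (cps_ne hC1)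
        · intro c hcC
          have h4 := Finset.mem_sdiff.mp (hCsub hcC)
          rw [Finset.mem_sdiff, mem_nb, hQ]
          refine ⟨⟨h4.1, ?_, cps_adj hC1 hcC hp hC2⟩, fun h5 => h4.2 h5.1⟩
          rintro rfl
          exact hC2 hcC
        · intro a ha b hb
          rw [Finset.mem_sdiff, Finset.mem_sdiff, mem_nb, hQ] at hb
          refine cps_adj hC1 ha (Finset.mem_sdiff.mpr ⟨hb.1.1.1, ?_⟩) hb.2
          intro hbR
          exact hb.1.2 ⟨hbR, hb.1.1.2.2⟩
      · obtain ⟨hC1, hC2⟩ := Finset.mem_filter.mp hC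
        have hCsub := cps_sub hC1
        refine cps_of ⟨?_, ?_⟩ (cps_con hC1) (cps_ne hC1)
        · intro c hcC
          rw [Finset.mem_sdiff]
          exact ⟨hCsub hcC, Finset.disjoint_left.mp hC2 hcC⟩
        · intro a ha b hb
          rw [Finset.mem_sdiff, Finset.mem_sdiff] at hb
          exact cps_adj hC1 ha hb.1.1 hb.2
    have hdis : Disjoint BB DD := by
      rw [Finset.disjoint_left]
      intro C hC hC'
      obtain ⟨hC1, hC2⟩ := Finset.mem_filter.mp hC'
      apply (Finset.mem_filter.mp hC).2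
      intro c hcC x hx
      exact cps_adj hC1 hcC (hQUp hx) (fun h' => Finset.disjoint_left.mp hC2 h' hx)
    have h4 := Finset.card_le_card hsub
    rw [Finset.card_union_of_disjoint hdis] at h4
    unfold nc at h3
    omega
  -- the members of `AA`
  have hA : AA.card + 1 ≤ T.card := by
    have hTR : T ⊆ R := Finset.filter_subset _ _
    have h3 := ih r U T (by omega) hU (hTR.trans hR)
    have h4 : (cps S U).filter (fun C => Disjoint C T) = ∅ := by
      rw [cps_one hc hUn, Finset.filter_singleton, if_neg]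
      intro hd
      exact Finset.disjoint_left.mp hd (hR hx1) hx1T
    rw [h4, Finset.card_empty, Nat.add_zero] at h3
    have hpT : p ∈ U \ T := Finset.mem_sdiff.mpr ⟨hpU, fun h' => hpR (hTR h')⟩
    have hnot : cp S (U \ T) p ∉ AA := by
      intro h'
      exact (hCC _ (Finset.mem_filter.mp h').1).2 (mem_cp_self hpT)
    have hsub : insert (cp S (U \ T) p) AA ⊆ cps S (U \ T) := by
      intro C hC
      rw [Finset.mem_insert] at hC
      rcases hC with rfl | hC
      · exact cp_cps hpT
      · obtain ⟨hC0', hCQ⟩ := Finset.mem_filter.mp hC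
        obtain ⟨hC1, hC2⟩ := hCC C hC0'
        have hCsub := cps_sub hC1
        refine cps_of ⟨?_, ?_⟩ (cps_con hC1) (cps_ne hC1)
        · intro c hcC
          have h5 := Finset.mem_sdiff.mp (hCsub hcC)
          exact Finset.mem_sdiff.mpr ⟨h5.1, fun h' => h5.2 (hTR h')⟩
        · intro a ha b hb
          rw [Finset.mem_sdiff, Finset.mem_sdiff, hT] at hb
          by_cases hbR : b ∈ R
          · refine hCQ a ha b ((hQ b).mpr ⟨hbR, ?_⟩)
            by_contra hcon
            exact hb.1.2 ⟨hbR, hcon⟩
          · exact cps_adj hC1 ha (Finset.mem_sdiff.mpr ⟨hb.1.1, hbR⟩) hb.2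
    have h5 := Finset.card_le_card hsub
    rw [Finset.card_insert_of_notMem hnot] at h5
    unfold nc at h3
    omega
  omega

theorem tough (h : HS k S d) : ∀ N r : ℕ, ∀ U R : Finset V, r + R.card ≤ N → LS S d r U →
    R ⊆ U → nc S (U \ R) ≤ R.card + ((cps S U).filter (fun C => Disjoint C R)).card := by
  intro N
  induction N with
  | zero =>
    intro r U R hN hU hR
    have hU0 : U = ∅ := (LS.zero h hU).mpr (by omega)
    have : U \ R = ∅ := by
      rw [hU0, Finset.empty_sdiff]
    rw [this, nc_empty]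
    exact Nat.zero_le _
  | succ N ih =>
    intro r U R hN hU hR
    rcases U.eq_empty_or_nonempty with hU0 | hUn
    · have : U \ R = ∅ := by
        rw [hU0, Finset.empty_sdiff]
      rw [this, nc_empty]
      exact Nat.zero_le _
    · by_cases hc : Con S U
      · rcases R.eq_empty_or_nonempty with hR0 | hRn
        · rw [hR0, Finset.sdiff_empty, nc_one hc hUn, cps_one hc hUn, Finset.filter_singleton,
            if_pos (Finset.disjoint_empty_right U), Finset.card_singleton]
          omega
        · by_cases h2 : 2 ≤ nc S (U \ R)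
          · exact (Tough.caseB2 h ih hN hU hR hc hRn h2).trans (Nat.le_add_right _ _)
          · have : 0 < R.card := Finset.card_pos.mpr hRn
            omega
      · obtain ⟨x, hx⟩ := hUn
        exact Tough.caseA h ih hN hU hR hc hx

theorem tough_con (h : HS k S d) {r : ℕ} {U R : Finset V} (hU : LS S d r U) (hc : Con S U)
    (hR : R ⊆ U) (hRn : R.Nonempty) : nc S (U \ R) ≤ R.card := by
  have h1 := tough h (r + R.card) r U R (Nat.le_refl _) hU hR
  have h4 : (cps S U).filter (fun C => Disjoint C R) = ∅ := by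
    rw [cps_one hc (hRn.mono hR), Finset.filter_singleton, if_neg]
    intro hd
    obtain ⟨x, hx⟩ := hRn
    exact Finset.disjoint_left.mp hd (hR hx) hx
  rw [h4, Finset.card_empty, Nat.add_zero] at h1
  exact h1

end Pool.Agent.MP19e880.TT
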