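import Pool.Agent.Lib.MP_19e880_co_TT.TTS
import Pool.Agent.Lib.MP_19e880_co_TT.TTP

/-!
Spheres of excess zero.
-/

set_option autoImplicit false
set_option linter.unusedSectionVars false

namespace Pool.Agent.MP19e880.TT

variable {V : Type} [Fintype V] [LinearOrder V] {k : Type} [Field k]
  {S : Finset (Finset V)} {d : ℕ}

private theorem Zero_Mp {U C : Finset V} {a : V} (hnk : nk S U a = nk S C a) (q : V) :
    Mp S U a q = Mp S C a q := by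
  unfold Mp
  rw [hnk]

private theorem Zero_nb {U C : Finset V} (hCU : C ⊆ U) {a q : V} (hq : q ∈ nb S C a) :
    q ∈ nb S U a := by
  rw [mem_nb] at hq ⊢
  exact ⟨hCU hq.1, hq.2⟩

private theorem Zero_nb' {U C : Finset V} {a q : V} (hq : q ∈ nb S U a) (hqC : q ∈ C) :
    q ∈ nb S C a := by
  rw [mem_nb] at hq ⊢
  exact ⟨hqC, hq.2⟩

private theorem Zero_out {U : Finset V} {a q x : V} (ha : a ∈ U)
    (hnk : nk S U a = nk S (cp S U a) a) (hq : q ∈ nb S U a) (hqC : q ∉ cp S U a) :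
    x ∉ Mp S U a q := by
  intro hx
  rw [mem_Mp] at hx
  have h1 := hx.1
  rw [hnk, mem_nk] at h1
  exact hx.2 (cps_adj (cp_cps ha) h1.1 (mem_nb.mp hq).1 hqC)

private theorem Zero_set (h : HS k S d) {r : ℕ} {U : Finset V} (hU : LS S d r U)
    (h0 : exc S r U = 0) {a : V} (ha : a ∈ U) :
    ∃ ρ, LS S d ρ (cp S U a) ∧ Ti S (cp S U a) a ∧ nk S U a = nk S (cp S U a) a := by
  obtain ⟨ρ, t, _, h1, _⟩ := LS.cld h hU (cps_cld (cp_cps (S := S) ha))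
  exact ⟨ρ, h1, ti_of_zero h hU h0 ha, (nb_cp h hU ha).1⟩

theorem z_nb (h : HS k S d) {r : ℕ} {U : Finset V} (hU : LS S d (r + 1) U)
    (h0 : exc S (r + 1) U = 0) {a : V} (ha : a ∈ U) : exc S r (nb S U a) = 0 := by
  obtain ⟨s, hs, hnb⟩ := LS.nb h hU ha
  obtain rfl : r = s := by omega
  have h1 := exc_mono h hU ha
  have h2 := exc_nonneg h hnb
  omega

theorem z_simplex (h : HS k S d) {r : ℕ} {U : Finset V} (hU : LS S d r U)
    (h0 : exc S r U = 0) {a x y : V} (ha : a ∈ U) (hx : x ∈ nk S U a) (hy : y ∈ nk S U a) :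
    ({x, y} : Finset V) ∈ S := by
  obtain ⟨ρ, hC, ht, hnk⟩ := Zero_set h hU h0 ha
  rw [hnk] at hx hy
  exact ti_simplex h ρ _ a hC ht x hx y hy

theorem z_three (h : HS k S d) {r : ℕ} {U : Finset V} (hU : LS S d r U)
    (h0 : exc S r U = 0) {a x y z : V} (ha : a ∈ U) (hx : x ∈ nk S U a) (hy : y ∈ nk S U a)
    (hz : z ∈ nk S U a) (hxy : x ≠ y) (hxz : x ≠ z) (hyz : y ≠ z) :
    ∃ q ∈ nb S U a,
      (x ∈ Mp S U a q ∧ y ∈ Mp S U a q ∧ z ∉ Mp S U a q) ∨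
      (x ∈ Mp S U a q ∧ y ∉ Mp S U a q ∧ z ∈ Mp S U a q) ∨
      (x ∉ Mp S U a q ∧ y ∈ Mp S U a q ∧ z ∈ Mp S U a q) := by
  obtain ⟨ρ, hC, ht, hnk⟩ := Zero_set h hU h0 ha
  rw [hnk] at hx hy hz
  obtain ⟨q, hq, hq2⟩ := ti_three h hC ht hx hy hz hxy hxz hyz
  refine ⟨q, Zero_nb cp_sub hq, ?_⟩
  rw [Zero_Mp hnk q]
  exact hq2

theorem z_lam (h : HS k S d) {r : ℕ} {U : Finset V} (hU : LS S d r U)
    (h0 : exc S r U = 0) {a p q : V} (ha : a ∈ U) (hp : p ∈ nb S U a) (hq : q ∈ nb S U a) :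
    Mp S U a p ⊆ Mp S U a q ∨ Mp S U a q ⊆ Mp S U a p ∨ Disjoint (Mp S U a p) (Mp S U a q) := by
  obtain ⟨ρ, hC, ht, hnk⟩ := Zero_set h hU h0 ha
  by_cases hpC : p ∈ cp S U a
  · by_cases hqC : q ∈ cp S U a
    · rw [Zero_Mp hnk p, Zero_Mp hnk q]
      exact lam h hC ht (Zero_nb' hp hpC) (Zero_nb' hq hqC)
    · right
      left
      intro x hx
      exact absurd hx (Zero_out ha hnk hq hqC)
  · left
    intro x hx
    exact absurd hx (Zero_out ha hnk hp hpC)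

theorem z_cherry (h : HS k S d) {r : ℕ} {U : Finset V} (hU : LS S d r U)
    (h0 : exc S r U = 0) {a : V} (ha : a ∈ U) (h2 : 2 ≤ (nk S U a).card) :
    ∃ x ∈ nk S U a, ∃ y ∈ nk S U a, x ≠ y ∧
      (∀ q ∈ nb S U a, x ∈ Mp S U a q → y ∉ Mp S U a q → Mp S U a q = {x}) ∧
      (∀ q ∈ nb S U a, y ∈ Mp S U a q → x ∉ Mp S U a q → Mp S U a q = {y}) := by
  obtain ⟨ρ, hC, ht, hnk⟩ := Zero_set h hU h0 ha
  rw [hnk] at h2
  obtain ⟨x, hx, y, hy, hxy, h3, h4⟩ := ti_cherry h hC ht h2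
  rw [← hnk] at hx hy
  refine ⟨x, hx, y, hy, hxy, ?_, ?_⟩
  · intro q hq hqx hqy
    by_cases hqC : q ∈ cp S U a
    · rw [Zero_Mp hnk q] at hqx hqy ⊢
      exact h3 q (Zero_nb' hq hqC) hqx hqy
    · exact absurd hqx (Zero_out ha hnk hq hqC)
  · intro q hq hqy hqx
    by_cases hqC : q ∈ cp S U a
    · rw [Zero_Mp hnk q] at hqx hqy ⊢
      exact h4 q (Zero_nb' hq hqC) hqy hqx
    · exact absurd hqy (Zero_out ha hnk hq hqC)

theorem z_four (h : HS k S d) {r : ℕ} {U : Finset V} (hU : LS S d r U)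
    (h0 : exc S r U = 0) {a : V} (ha : a ∈ U) {x y : V} (hx : x ∈ nk S U a) (hy : y ∈ nk S U a)
    (hxy : x ≠ y)
    (h1 : ∀ q ∈ nb S U a, x ∈ Mp S U a q → y ∉ Mp S U a q → Mp S U a q = {x})
    (h2 : ∀ q ∈ nb S U a, y ∈ Mp S U a q → x ∉ Mp S U a q → Mp S U a q = {y})
    {p q : V} (hp : p ∈ nb S U a) (hq : q ∈ nb S U a) (hpq : p ≠ q)
    (hpq2 : ({p, q} : Finset V) ∈ S) (hMp : Mp S U a p = {x}) (hMq : Mp S U a q = {y}) :
    False := by
  obtain ⟨ρ, hC, ht, hnk⟩ := Zero_set h hU h0 ha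
  have hpC : p ∈ cp S U a := by
    by_contra hpC
    have h3 : x ∈ Mp S U a p := by
      rw [hMp]
      exact Finset.mem_singleton_self x
    exact Zero_out ha hnk hp hpC h3
  have hqC : q ∈ cp S U a := by
    by_contra hqC
    have h3 : y ∈ Mp S U a q := by
      rw [hMq]
      exact Finset.mem_singleton_self y
    exact Zero_out ha hnk hq hqC h3
  rw [hnk] at hx hy
  rw [Zero_Mp hnk] at hMp hMq
  refine ti_four h hC ht hx hy hxy ?_ ?_ (Zero_nb' hp hpC) (Zero_nb' hq hqC) hpq hpq2 hMp hMq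
  · intro q' hq'
    have h3 := h1 q' (Zero_nb cp_sub hq')
    rw [Zero_Mp hnk q'] at h3
    exact h3
  · intro q' hq'
    have h3 := h2 q' (Zero_nb cp_sub hq')
    rw [Zero_Mp hnk q'] at h3
    exact h3

end Pool.Agent.MP19e880.TT
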